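import Pool.Agent.H35.CR.Spec

/-!
# Row G1: the boundary of a component of a regular sublevel set
-/

set_option autoImplicit false

open Complex Set
open scoped ContDiff Topology

namespace Pool.Agent.H35.CR

section G1

variable {E : Type} [NormedAddCommGroup E] [NormedSpace ℝ E]

theorem g1_open {D : Set E} {φ : E → ℝ} {ε : ℝ} (hD : IsOpen D) (hφ : ContDiffOn ℝ ∞ φ D) :
    IsOpen {p ∈ D | φ p < ε} :=
  hφ.continuousOn.isOpen_inter_preimage hD isOpen_Iio

/-- `φ` decreases along a segment on which its derivative in the direction `v` is negative. -/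
theorem g1_decr {D : Set E} {φ : E → ℝ} {v z : E} {s₀ : ℝ} (hs : 0 < s₀)
    (hD : IsOpen D) (hφ : ContDiffOn ℝ ∞ φ D)
    (hseg : ∀ t ∈ Icc (0 : ℝ) s₀, z + t • v ∈ D ∧ fderiv ℝ φ (z + t • v) v < 0) :
    StrictAntiOn (fun t : ℝ => φ (z + t • v)) (Icc 0 s₀) := by
  have hder : ∀ t ∈ Icc (0 : ℝ) s₀,
      HasDerivAt (fun t : ℝ => φ (z + t • v)) (fderiv ℝ φ (z + t • v) v) t := by
    intro t ht
    have h1 : DifferentiableAt ℝ φ (z + t • v) :=
      (hφ.contDiffAt (hD.mem_nhds (hseg t ht).1)).differentiableAt (by simp)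
    have h2 : HasDerivAt (fun s : ℝ => z + s • v) v t := by
      have := ((hasDerivAt_id t).smul_const v).const_add z
      simpa using this
    exact h1.hasFDerivAt.comp_hasDerivAt t h2
  have _ := hs
  refine strictAntiOn_of_deriv_neg (convex_Icc _ _) ?_ ?_
  · intro t ht
    exact (hder t ht).continuousAt.continuousWithinAt
  · intro t ht
    rw [interior_Icc] at ht
    have ht' : t ∈ Icc (0 : ℝ) s₀ := Ioo_subset_Icc_self ht
    rw [(hder t ht').deriv]
    exact (hseg t ht').2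

/-- Near a point `p` with `φ p = ε` and `dφ p ≠ 0` the set `{φ < ε}` lies in one component. -/
theorem g1_local {D : Set E} {φ : E → ℝ} {ε : ℝ} (hD : IsOpen D) (hφ : ContDiffOn ℝ ∞ φ D)
    {p : E} (hp : p ∈ D) (hpε : φ p = ε) (hd : fderiv ℝ φ p ≠ 0) :
    ∃ (r : ℝ) (c : E), 0 < r ∧ Metric.ball p r ⊆ D ∧
      ∀ z ∈ Metric.ball p r, φ z < ε → z ∈ connectedComponentIn {p ∈ D | φ p < ε} c := by
  obtain ⟨v, hv⟩ : ∃ v : E, fderiv ℝ φ p v < 0 := by
    by_contra hcon
    push Not at hcon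
    apply hd
    ext w
    have h1 := hcon w
    have h2 := hcon (-w)
    rw [map_neg] at h2
    have : fderiv ℝ φ p w = 0 := by linarith
    simpa using this
  have hcont : ContinuousOn (fun z => fderiv ℝ φ z v) D :=
    (hφ.continuousOn_fderiv_of_isOpen hD (by simp)).clm_apply continuousOn_const
  have hO : IsOpen {z ∈ D | fderiv ℝ φ z v < 0} := hcont.isOpen_inter_preimage hD isOpen_Iio
  obtain ⟨r, hr, hball⟩ := Metric.isOpen_iff.1 hO p ⟨hp, hv⟩
  have hrD : Metric.ball p r ⊆ D := fun z hz => (hball hz).1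
  -- the step
  have hvn : 0 < ‖v‖ := by
    rw [norm_pos_iff]
    rintro rfl
    simp at hv
  obtain ⟨s₀, hs₀, hs₀v⟩ : ∃ s₀ : ℝ, 0 < s₀ ∧ s₀ * ‖v‖ < r / 2 := by
    refine ⟨r / 4 / ‖v‖, by positivity, ?_⟩
    rw [div_mul_cancel₀ _ hvn.ne']
    linarith
  have hin : ∀ z ∈ Metric.ball p (r / 2), ∀ t ∈ Icc (0 : ℝ) s₀, z + t • v ∈ Metric.ball p r := by
    intro z hz t ht
    rw [Metric.mem_ball, dist_eq_norm] at hz ⊢
    have h1 : z + t • v - p = (z - p) + t • v := by abel
    rw [h1]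
    have h2 : ‖t • v‖ ≤ s₀ * ‖v‖ := by
      rw [norm_smul, Real.norm_eq_abs, abs_of_nonneg ht.1]
      exact mul_le_mul_of_nonneg_right ht.2 (norm_nonneg _)
    calc ‖(z - p) + t • v‖ ≤ ‖z - p‖ + ‖t • v‖ := norm_add_le _ _
      _ < r / 2 + r / 2 := by linarith
      _ = r := by ring
  have hanti : ∀ z ∈ Metric.ball p (r / 2),
      StrictAntiOn (fun t : ℝ => φ (z + t • v)) (Icc 0 s₀) := by
    intro z hz
    exact g1_decr hs₀ hD hφ (fun t ht => hball (hin z hz t ht))
  have hpb : p ∈ Metric.ball p (r / 2) := Metric.mem_ball_self (by linarith)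
  set c : E := p + s₀ • v with hc
  have hcε : φ c < ε := by
    have h := hanti p hpb (left_mem_Icc.2 hs₀.le) (right_mem_Icc.2 hs₀.le) hs₀
    simpa [hpε] using h
  have hcb : c ∈ Metric.ball p r := hin p hpb s₀ (right_mem_Icc.2 hs₀.le)
  have hcS : c ∈ {p ∈ D | φ p < ε} := ⟨hrD hcb, hcε⟩
  obtain ⟨r', hr', hball'⟩ := Metric.isOpen_iff.1 (g1_open (ε := ε) hD hφ) c hcS
  refine ⟨min r' (r / 2), c, lt_min hr' (by linarith), ?_, ?_⟩
  · exact (Metric.ball_subset_ball (le_trans (min_le_right _ _) (by linarith))).trans hrD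
  intro z hz hzε
  have hz1 : z ∈ Metric.ball p (r / 2) := Metric.ball_subset_ball (min_le_right _ _) hz
  have hz2 : z ∈ Metric.ball p r' := Metric.ball_subset_ball (min_le_left _ _) hz
  -- the segment
  let seg : Set E := (fun t : ℝ => z + t • v) '' Icc 0 s₀
  have hsegc : IsPreconnected seg := by
    apply isPreconnected_Icc.image
    exact (Continuous.continuousOn (by fun_prop))
  have hsegS : seg ⊆ {p ∈ D | φ p < ε} := by
    rintro _ ⟨t, ht, rfl⟩
    refine ⟨hrD (hin z hz1 t ht), ?_⟩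
    have h := (hanti z hz1).antitoneOn (left_mem_Icc.2 hs₀.le) ht ht.1
    have h' : φ (z + t • v) ≤ φ z := by simpa using h
    exact lt_of_le_of_lt h' hzε
  have hzb' : z + s₀ • v ∈ Metric.ball c r' := by
    rw [Metric.mem_ball, dist_eq_norm] at hz2 ⊢
    have h1 : z + s₀ • v - c = z - p := by rw [hc]; abel
    rw [h1]
    exact hz2
  have hunion : IsPreconnected (seg ∪ Metric.ball c r') :=
    IsPreconnected.union (z + s₀ • v) ⟨s₀, right_mem_Icc.2 hs₀.le, rfl⟩ hzb' hsegc
      (convex_ball c r').isPreconnected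
  have hsub := hunion.subset_connectedComponentIn (x := c) (F := {p ∈ D | φ p < ε})
    (Or.inr (Metric.mem_ball_self hr')) (union_subset hsegS hball')
  exact hsub (Or.inl ⟨0, left_mem_Icc.2 hs₀.le, by simp⟩)

end G1

/-- row G1 -/
theorem spBd : SpBd := by
  intro E _ _ D φ ε hD hφ hreg hcl q hq hqε p hp
  set S : Set E := {p ∈ D | φ p < ε} with hS
  have hSo : IsOpen S := g1_open hD hφ
  have hCo : IsOpen (connectedComponentIn S q) := hSo.connectedComponentIn
  have hCS : connectedComponentIn S q ⊆ S := connectedComponentIn_subset S q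
  rw [hCo.frontier_eq] at hp
  obtain ⟨hpc, hpn⟩ := hp
  have hpD : p ∈ D := hcl (closure_mono hCS hpc)
  have hle : φ p ≤ ε := by
    by_contra hcon
    push Not at hcon
    have hO : IsOpen {z ∈ D | ε < φ z} := hφ.continuousOn.isOpen_inter_preimage hD isOpen_Ioi
    obtain ⟨z, hz1, hz2⟩ := mem_closure_iff.1 hpc _ hO ⟨hpD, hcon⟩
    have h1 := (hCS hz2).2
    have h2 := hz1.2
    linarith
  have heq : φ p = ε := by
    by_contra hne
    have hlt : φ p < ε := lt_of_le_of_ne hle hne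
    have hpS : p ∈ S := ⟨hpD, hlt⟩
    have hO : IsOpen (connectedComponentIn S p) := hSo.connectedComponentIn
    obtain ⟨z, hz1, hz2⟩ := mem_closure_iff.1 hpc _ hO (mem_connectedComponentIn hpS)
    apply hpn
    rw [connectedComponentIn_eq hz2, ← connectedComponentIn_eq hz1]
    exact mem_connectedComponentIn hpS
  refine ⟨hpD, heq, ?_⟩
  obtain ⟨r, c, hr, hrD, hloc⟩ := g1_local hD hφ hpD heq (hreg p hpD heq)
  refine ⟨Metric.ball p r, Metric.isOpen_ball, Metric.mem_ball_self hr, hrD, ?_⟩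
  intro z hz
  constructor
  · intro h
    exact (hCS h).2
  · intro h
    have h1 := hloc z hz h
    obtain ⟨y, hy1, hy2⟩ := mem_closure_iff.1 hpc _ Metric.isOpen_ball (Metric.mem_ball_self hr)
    have h2 := hloc y hy1 (hCS hy2).2
    rw [connectedComponentIn_eq hy2, ← connectedComponentIn_eq h2]
    exact h1

end Pool.Agent.H35.CR
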