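import Pool.Agent.H35.CR.Spec

/-!
# Project CR: evaluation of polynomials
-/

set_option autoImplicit false

open Complex Set Polynomial
open scoped ContDiff Topology

namespace Pool.Agent.H35.CR

@[simp] theorem ev_add (F G : PP) (p : C2) : ev (F + G) p = ev F p + ev G p := by
  simp [ev, sp]

@[simp] theorem ev_sub (F G : PP) (p : C2) : ev (F - G) p = ev F p - ev G p := by
  simp [ev, sp]

@[simp] theorem ev_mul (F G : PP) (p : C2) : ev (F * G) p = ev F p * ev G p := by
  simp [ev, sp]

@[simp] theorem ev_pow (F : PP) (n : ℕ) (p : C2) : ev (F ^ n) p = ev F p ^ n := by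
  simp [ev, sp]

@[simp] theorem ev_X (p : C2) : ev (Polynomial.X : PP) p = p 1 := by
  simp [ev, sp]

@[simp] theorem ev_CX (p : C2) : ev (Polynomial.C Polynomial.X : PP) p = p 0 := by
  simp [ev, sp]

@[simp] theorem ev_CC (c : ℂ) (p : C2) : ev (Polynomial.C (Polynomial.C c) : PP) p = c := by
  simp [ev, sp]

@[simp] theorem ev_zero (p : C2) : ev (0 : PP) p = 0 := by
  simp [ev, sp]

@[simp] theorem ev_one (p : C2) : ev (1 : PP) p = 1 := by
  simp [ev, sp]

theorem ev_dvd {F G : PP} (h : F ∣ G) {p : C2} (hp : ev F p = 0) : ev G p = 0 := by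
  obtain ⟨H, rfl⟩ := h
  rw [ev_mul, hp, zero_mul]

theorem ev_zc_odd {m : ℕ} (h : m % 2 = 1) (p : C2) : ev (zc m) p = p 1 + p 0 := by
  rw [zc, if_pos h, ev_add, ev_X, ev_CX]

theorem ev_zc_even {m : ℕ} (h : m % 2 = 0) (p : C2) : ev (zc m) p = p 1 - p 0 := by
  rw [zc, if_neg (by omega), ev_sub, ev_X, ev_CX]

theorem fm_odd {m : ℕ} (h : m % 2 = 1) (p : C2) : fm m p = (p 1 + p 0) / 4 ^ m := by
  rw [fm, ev_zc_odd h]

theorem fm_even {m : ℕ} (h : m % 2 = 0) (p : C2) : fm m p = (p 1 - p 0) / 4 ^ m := by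
  rw [fm, ev_zc_even h]

theorem zc_add_two (m : ℕ) : zc (m + 2) = zc m := by
  unfold zc
  have : (m + 2) % 2 = m % 2 := by omega
  rw [this]

theorem fm_add_two (m : ℕ) (p : C2) : fm (m + 2) p = fm m p / 16 := by
  rw [fm, fm, zc_add_two, pow_add]
  field_simp
  norm_num

theorem ev_hP (T : PP) (n N : ℕ) (p : C2) : ev (hP T n N) p = hh T n N p := by
  rw [hP, hh, ev_mul, ev_pow, ev_mul, ev_CC, fm]
  congr 2
  rw [one_div, inv_pow, div_eq_inv_mul]

theorem sp_add (F G : PP) (x : ℂ) : sp (F + G) x = sp F x + sp G x := by simp [sp]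

theorem sp_sub (F G : PP) (x : ℂ) : sp (F - G) x = sp F x - sp G x := by simp [sp]

theorem sp_mul (F G : PP) (x : ℂ) : sp (F * G) x = sp F x * sp G x := by simp [sp]

theorem sp_CC (c x : ℂ) : sp (Polynomial.C (Polynomial.C c)) x = Polynomial.C c := by simp [sp]

theorem sp_X (x : ℂ) : sp (Polynomial.X : PP) x = Polynomial.X := by simp [sp]

theorem sp_derivative (F : PP) (x : ℂ) :
    sp (Polynomial.derivative F) x = Polynomial.derivative (sp F x) := by
  simp [sp, Polynomial.derivative_map]

theorem nice_sp {F : PP} {c : ℂ} (hF : F.leadingCoeff = Polynomial.C c) (hc : c ≠ 0) (x : ℂ) :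
    (sp F x).natDegree = F.natDegree ∧ (sp F x).leadingCoeff = c ∧ sp F x ≠ 0 := by
  have h1 : (Polynomial.evalRingHom x) F.leadingCoeff ≠ 0 := by
    rw [hF]
    simpa using hc
  have h2 : (sp F x).natDegree = F.natDegree := Polynomial.natDegree_map_of_leadingCoeff_ne_zero _ h1
  have h3 : (sp F x).leadingCoeff = c := by
    rw [sp, Polynomial.leadingCoeff_map_of_leadingCoeff_ne_zero _ h1, hF]
    simp
  refine ⟨h2, h3, ?_⟩
  intro h
  rw [h, Polynomial.leadingCoeff_zero] at h3
  exact hc h3.symm

theorem ev_contDiff (F : PP) {n : WithTop ℕ∞} : ContDiff ℂ n (ev F) := by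
  have h0 : ContDiff ℂ n (fun p : C2 => p 0) := by fun_prop
  have h1 : ContDiff ℂ n (fun p : C2 => p 1) := by fun_prop
  induction F using Polynomial.induction_on' with
  | add F G hF hG =>
    have : ev (F + G) = fun p => ev F p + ev G p := by
      funext p
      exact ev_add F G p
    rw [this]
    exact hF.add hG
  | monomial k a =>
    have : ev (Polynomial.monomial k a) = fun p => a.eval (p 0) * p 1 ^ k := by
      funext p
      simp [ev, sp]
    rw [this]
    clear this
    refine ContDiff.mul ?_ (h1.pow k)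
    induction a using Polynomial.induction_on' with
    | add f g hf hg =>
      simp only [Polynomial.eval_add]
      exact hf.add hg
    | monomial j b =>
      simp only [Polynomial.eval_monomial]
      exact contDiff_const.mul (h0.pow j)

theorem ev_continuous (F : PP) : Continuous (ev F) := (ev_contDiff F (n := 0)).continuous

theorem ev_differentiable (F : PP) : Differentiable ℂ (ev F) :=
  (ev_contDiff F (n := 1)).differentiable (by norm_num)

theorem fm_contDiff (m : ℕ) {n : WithTop ℕ∞} : ContDiff ℂ n (fm m) := by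
  unfold fm
  exact (ev_contDiff _).div_const _

theorem fm_continuous (m : ℕ) : Continuous (fm m) := (fm_contDiff m (n := 0)).continuous

theorem hh_contDiff (T : PP) (n N : ℕ) {k : WithTop ℕ∞} : ContDiff ℂ k (hh T n N) := by
  unfold hh
  exact (ev_contDiff T).mul ((fm_contDiff n).pow N)

theorem hh_continuous (T : PP) (n N : ℕ) : Continuous (hh T n N) :=
  (hh_contDiff T n N (k := 0)).continuous

end Pool.Agent.H35.CR
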