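import Pool.Agent.H35.CR.Spec
import Pool.Agent.H35.CR.Ev

/-!
# Project CR (MP_d5c4e7_an), row C0: the bidiscs
-/

set_option autoImplicit false

open Complex Set Polynomial
open scoped ContDiff Topology

namespace Pool.Agent.H35.CR

theorem c0_dm_pos (m : ℕ) : 0 < dm m := by
  unfold dm
  positivity

theorem c0_dm_le (m : ℕ) : dm m ≤ 1 / 4 := by
  unfold dm
  have h : ((1 : ℝ) / 2) ^ m ≤ 1 := pow_le_one₀ (by norm_num) (by norm_num)
  linarith

theorem c0_norm_fm_add_two (m : ℕ) (p : C2) : ‖fm (m + 2) p‖ = ‖fm m p‖ / 16 := by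
  rw [fm_add_two, norm_div]
  norm_num

theorem c0_norm_pow (m : ℕ) : ‖((4 : ℂ) ^ m)‖ = 4 ^ m := by
  rw [norm_pow]
  norm_num

theorem c0_fm_le (m : ℕ) (p : C2) : ‖fm m p‖ ≤ 2 * ‖p‖ / 4 ^ m := by
  have h0 : ‖p 0‖ ≤ ‖p‖ := PiLp.norm_apply_le p 0
  have h1 : ‖p 1‖ ≤ ‖p‖ := PiLp.norm_apply_le p 1
  rcases Nat.mod_two_eq_zero_or_one m with h | h
  · rw [fm_even h, norm_div, c0_norm_pow]
    gcongr
    calc ‖p 1 - p 0‖ ≤ ‖p 1‖ + ‖p 0‖ := norm_sub_le _ _
      _ ≤ 2 * ‖p‖ := by linarith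
  · rw [fm_odd h, norm_div, c0_norm_pow]
    gcongr
    calc ‖p 1 + p 0‖ ≤ ‖p 1‖ + ‖p 0‖ := norm_add_le _ _
      _ ≤ 2 * ‖p‖ := by linarith

theorem c0_norm_le (p : C2) : ‖p‖ ≤ ‖p 1 + p 0‖ + ‖p 1 - p 0‖ := by
  have h1 : ‖p 0‖ ≤ (‖p 1 + p 0‖ + ‖p 1 - p 0‖) / 2 := by
    have h2 : p 0 = ((p 1 + p 0) - (p 1 - p 0)) / 2 := by ring
    calc ‖p 0‖ = ‖((p 1 + p 0) - (p 1 - p 0)) / 2‖ := by rw [← h2]
      _ = ‖(p 1 + p 0) - (p 1 - p 0)‖ / 2 := by
        rw [norm_div]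
        norm_num
      _ ≤ _ := by
        gcongr
        exact norm_sub_le _ _
  have h2 : ‖p 1‖ ≤ (‖p 1 + p 0‖ + ‖p 1 - p 0‖) / 2 := by
    have h3 : p 1 = ((p 1 + p 0) + (p 1 - p 0)) / 2 := by ring
    calc ‖p 1‖ = ‖((p 1 + p 0) + (p 1 - p 0)) / 2‖ := by rw [← h3]
      _ = ‖(p 1 + p 0) + (p 1 - p 0)‖ / 2 := by
        rw [norm_div]
        norm_num
      _ ≤ _ := by
        gcongr
        exact norm_add_le _ _
  have h3 : ‖p‖ ≤ ‖p 0‖ + ‖p 1‖ := by
    rw [EuclideanSpace.norm_eq, Fin.sum_univ_two]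
    apply Real.sqrt_le_iff.mpr
    constructor
    · positivity
    · nlinarith [norm_nonneg (p 0), norm_nonneg (p 1)]
  linarith

theorem c0_lt_pow {m : ℕ} {p : C2} (h : ‖fm m p‖ < 1) :
    (m % 2 = 1 → ‖p 1 + p 0‖ < 4 ^ m) ∧ (m % 2 = 0 → ‖p 1 - p 0‖ < 4 ^ m) := by
  have h4 : (0 : ℝ) < 4 ^ m := by positivity
  constructor
  · intro hm
    rw [fm_odd hm, norm_div, c0_norm_pow, div_lt_one h4] at h
    exact h
  · intro hm
    rw [fm_even hm, norm_div, c0_norm_pow, div_lt_one h4] at h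
    exact h

theorem dmProps : DmProps where
  isOpen := by
    intro m
    exact (isOpen_lt (fm_continuous _).norm continuous_const).inter
      (isOpen_lt (fm_continuous _).norm continuous_const)
  subset := by
    rintro m p ⟨h1, h2⟩
    refine ⟨h2, ?_⟩
    have h3 : m + 1 + 2 = (m + 1) + 2 := rfl
    change ‖fm ((m + 1) + 2) p‖ < 1 - dm ((m + 1) + 2)
    rw [c0_norm_fm_add_two]
    have h4 := c0_dm_pos (m + 1)
    have h5 := c0_dm_le ((m + 1) + 2)
    linarith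
  exhaust := by
    intro R
    obtain ⟨m₀, hm₀⟩ := pow_unbounded_of_one_lt (4 * |R|) (by norm_num : (1 : ℝ) < 4)
    refine ⟨m₀, fun m hm p hp => ?_⟩
    have key : ∀ k, m₀ ≤ k → ‖fm k p‖ < 1 - dm k := by
      intro k hk
      have h1 := c0_fm_le k p
      have h2 : (4 : ℝ) ^ m₀ ≤ 4 ^ k := pow_le_pow_right₀ (by norm_num) hk
      have h3 : 4 * |R| < 4 ^ k := lt_of_lt_of_le hm₀ h2
      have h4 : (0 : ℝ) < 4 ^ k := by positivity
      have h5 : 2 * ‖p‖ / 4 ^ k < 1 / 2 := by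
        rw [div_lt_iff₀ h4]
        have h6 : ‖p‖ ≤ |R| := hp.trans (le_abs_self R)
        linarith
      have h6 := c0_dm_le k
      linarith
    exact ⟨key (m + 1) (by omega), key (m + 2) (by omega)⟩
  bounded := by
    intro m
    refine isBounded_iff_forall_norm_le.mpr ⟨2 * 4 ^ (m + 2), fun p hp => ?_⟩
    obtain ⟨h1, h2⟩ := hp
    have h3 : ‖fm (m + 1) p‖ < 1 := by
      have := c0_dm_pos (m + 1)
      linarith
    have h4 : ‖fm (m + 2) p‖ < 1 := by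
      have := c0_dm_pos (m + 2)
      linarith
    have h5 := c0_lt_pow h3
    have h6 := c0_lt_pow h4
    have h7 := c0_norm_le p
    have h8 : (4 : ℝ) ^ (m + 1) ≤ 4 ^ (m + 2) := pow_le_pow_right₀ (by norm_num) (by omega)
    rcases Nat.mod_two_eq_zero_or_one m with h | h
    · have h9 := h5.1 (by omega)
      have h10 := h6.2 (by omega)
      linarith
    · have h9 := h5.2 (by omega)
      have h10 := h6.1 (by omega)
      linarith
  fm_lt := fun m p hp => hp.1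
  fm_ge := by
    intro m p hp hn
    by_contra hc
    push Not at hc
    exact hn ⟨hc, hp.1⟩
  fm_small := by
    intro m p hp
    change ‖fm ((m + 1) + 2) p‖ ≤ 1 / 16
    rw [c0_norm_fm_add_two]
    have h1 := hp.1
    have h2 := c0_dm_pos (m + 1)
    linarith
  axis := by
    intro t ht
    have h0 : (!₂[(0 : ℂ), (t : ℂ)] : C2) 0 = 0 := rfl
    have h1 : (!₂[(0 : ℂ), (t : ℂ)] : C2) 1 = (t : ℂ) := rfl
    constructor
    · change ‖fm 1 !₂[(0 : ℂ), (t : ℂ)]‖ < 1 - dm 1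
      rw [fm_odd (by norm_num), h0, h1, add_zero, norm_div, c0_norm_pow, Complex.norm_real,
        Real.norm_eq_abs, dm]
      norm_num
      linarith
    · change ‖fm 2 !₂[(0 : ℂ), (t : ℂ)]‖ < 1 - dm 2
      rw [fm_even (by norm_num), h0, h1, sub_zero, norm_div, c0_norm_pow, Complex.norm_real,
        Real.norm_eq_abs, dm]
      norm_num
      linarith

end Pool.Agent.H35.CR
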