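import Pool.Agent.H35.CR.Ev

/-!
# Project CR, row B3: density of the good points of the curve
-/

set_option autoImplicit false

open Complex Set Polynomial
open scoped ContDiff Topology

namespace Pool.Agent.H35.CR

theorem b3_prod (s : Multiset ℂ) (y₀ : ℂ) {r : ℝ} (hr : 0 ≤ r) (h : ∀ y ∈ s, r ≤ ‖y₀ - y‖) :
    r ^ (Multiset.card s) ≤ ‖(s.map fun a => y₀ - a).prod‖ := by
  induction s using Multiset.induction_on with
  | empty => simp
  | cons a s ih =>
    rw [Multiset.card_cons, Multiset.map_cons, Multiset.prod_cons, norm_mul, pow_succ, mul_comm]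
    exact mul_le_mul (h a (Multiset.mem_cons_self a s))
      (ih fun y hy => h y (Multiset.mem_cons_of_mem hy)) (pow_nonneg hr _) (norm_nonneg _)

theorem spCurveDense : SpCurveDense := by
  intro F Z p ε hF hZ hp hε
  obtain ⟨c, hc, hlead, hdeg⟩ := hF
  set x₀ := p 0 with hx₀
  set y₀ := p 1 with hy₀
  have hcontL : Continuous (fun x : ℂ => (!₂[x, y₀] : C2)) := by
    have : Continuous (fun x : ℂ => (![x, y₀] : Fin 2 → ℂ)) := by
      refine continuous_pi fun i => ?_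
      fin_cases i
      · exact continuous_id
      · exact continuous_const
    exact (PiLp.continuous_toLp 2 _).comp this
  have hcont : Continuous (fun x : ℂ => ‖ev F (!₂[x, y₀] : C2)‖) :=
    ((ev_continuous F).comp hcontL).norm
  have hp0 : ev F (!₂[x₀, y₀] : C2) = 0 := by
    rw [← hp]
    unfold ev
    simp [hx₀, hy₀]
  have hpos : 0 < ‖c‖ * (ε / 2) ^ F.natDegree := by
    have : 0 < ‖c‖ := norm_pos_iff.2 hc
    positivity
  have h1 : ∀ᶠ x in 𝓝 x₀, ‖ev F (!₂[x, y₀] : C2)‖ < ‖c‖ * (ε / 2) ^ F.natDegree := by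
    apply hcont.continuousAt.eventually_lt_const
    change ‖ev F (!₂[x₀, y₀] : C2)‖ < _
    rw [hp0, norm_zero]
    exact hpos
  have h2 : ∀ᶠ x in 𝓝 x₀, ‖x - x₀‖ < ε / 2 := by
    have := Metric.ball_mem_nhds x₀ (half_pos hε)
    filter_upwards [this] with x hx
    rwa [Metric.mem_ball, dist_eq_norm] at hx
  have h3 : ∀ᶠ x in 𝓝[≠] x₀, x ∉ Z := by
    have hfin : (Z \ {x₀}).Finite := hZ.subset sdiff_subset
    have h4 : (Z \ {x₀})ᶜ ∈ 𝓝 x₀ := hfin.isClosed.isOpen_compl.mem_nhds (by simp)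
    filter_upwards [nhdsWithin_le_nhds h4, self_mem_nhdsWithin] with x hx hx' hxZ
    exact hx ⟨hxZ, hx'⟩
  have h1' : ∀ᶠ x in 𝓝[≠] x₀, ‖ev F (!₂[x, y₀] : C2)‖ < ‖c‖ * (ε / 2) ^ F.natDegree :=
    nhdsWithin_le_nhds h1
  have h2' : ∀ᶠ x in 𝓝[≠] x₀, ‖x - x₀‖ < ε / 2 := nhdsWithin_le_nhds h2
  obtain ⟨x, hx1, hx2, hx3⟩ := (h1'.and (h2'.and h3)).exists
  obtain ⟨hn, hl, hne⟩ := nice_sp hlead hc x
  have hsplit : (sp F x).Splits := IsAlgClosed.splits _
  have hprod := hsplit.eq_prod_roots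
  have hcard : Multiset.card (sp F x).roots = F.natDegree := by
    rw [← hn]
    exact (Polynomial.splits_iff_card_roots.1 hsplit)
  have hev : ev F (!₂[x, y₀] : C2) = c * ((sp F x).roots.map fun a => y₀ - a).prod := by
    have e1 : ev F (!₂[x, y₀] : C2) = (sp F x).eval y₀ := by
      unfold ev
      simp
    rw [e1]
    conv_lhs => rw [hprod]
    rw [Polynomial.eval_mul, Polynomial.eval_C, hl, Polynomial.eval_multiset_prod]
    congr 2
    rw [Multiset.map_map]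
    simp
  obtain ⟨y, hy, hyε⟩ : ∃ y ∈ (sp F x).roots, ‖y₀ - y‖ < ε / 2 := by
    by_contra hcon
    push Not at hcon
    have := b3_prod (sp F x).roots y₀ (r := ε / 2) (by linarith) hcon
    rw [hcard] at this
    rw [hev, norm_mul] at hx1
    have h5 := mul_le_mul_of_nonneg_left this (norm_nonneg c)
    linarith
  refine ⟨!₂[x, y], ?_, ?_, ?_⟩
  · have := (Polynomial.mem_roots hne).1 hy
    unfold ev
    simpa using this
  · simpa using hx3
  · have h6 : ‖(!₂[x, y] : C2) - p‖ ^ 2 = ‖x - x₀‖ ^ 2 + ‖y - y₀‖ ^ 2 := by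
      rw [EuclideanSpace.norm_sq_eq]
      simp [hx₀, hy₀]
    have h7 : ‖y - y₀‖ < ε / 2 := by
      rw [norm_sub_rev]
      exact hyε
    have h8 : ‖(!₂[x, y] : C2) - p‖ ^ 2 < ε ^ 2 := by
      rw [h6]
      have a1 : ‖x - x₀‖ ^ 2 < (ε / 2) ^ 2 := pow_lt_pow_left₀ hx2 (norm_nonneg _) (by norm_num)
      have a2 : ‖y - y₀‖ ^ 2 < (ε / 2) ^ 2 := pow_lt_pow_left₀ h7 (norm_nonneg _) (by norm_num)
      nlinarith
    exact lt_of_pow_lt_pow_left₀ 2 hε.le h8

end Pool.Agent.H35.CR
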