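import Pool.Agent.H35.CR.Fin

/-!
# Project CR, row G2: the hypersurface lies in the core
-/

set_option autoImplicit false

open Complex Set Polynomial
open scoped ContDiff Topology

namespace Pool.Agent.H35.CR

theorem spCore (hL : SpLC) (hCu : SpCurve) (hO : SpOpen) : SpCore := by
  intro W F w φ ε q hw hφ hε2 hε3 hq hqε p hp hWp
  set S : Set C2 := {p ∈ DW W | φ p < ε} with hSdef
  set Ω : Set C2 := connectedComponentIn S q with hΩ
  have hDo : IsOpen (DW W) := fin_DW_open hw.diff
  have hSo : IsOpen S := by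
    have h1 : ContinuousOn φ (DW W) := hφ.psh.smooth.continuousOn
    exact h1.isOpen_inter_preimage hDo isOpen_Iio (t := Iio ε)
  have hΩo : IsOpen Ω := hSo.connectedComponentIn
  have hΩS : Ω ⊆ S := connectedComponentIn_subset S q
  refine ⟨hp, fun u hu hM hstr => ?_⟩
  obtain ⟨M, hM⟩ := hM
  classical
  -- the extension by zero to the other components
  set u' : C2 → ℝ := fun z => if z ∈ Ω then u z else 0 with hu'
  have hin : ∀ z ∈ Ω, u' =ᶠ[𝓝 z] u := by
    intro z hz
    filter_upwards [hΩo.mem_nhds hz] with y hy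
    rw [hu']
    simp only
    rw [if_pos hy]
  have hout : ∀ z ∈ S, z ∉ Ω → u' =ᶠ[𝓝 z] fun _ => (0 : ℝ) := by
    intro z hz hzΩ
    have h1 : connectedComponentIn S z ∈ 𝓝 z :=
      hSo.connectedComponentIn.mem_nhds (mem_connectedComponentIn hz)
    filter_upwards [h1] with y hy
    rw [hu']
    simp only
    rw [if_neg]
    intro hyΩ
    apply hzΩ
    have h2 : connectedComponentIn S z = connectedComponentIn S y := connectedComponentIn_eq hy
    have h3 : connectedComponentIn S q = connectedComponentIn S y := connectedComponentIn_eq hyΩ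
    rw [hΩ, h3, ← h2]
    exact mem_connectedComponentIn hz
  have hsm : SmoothPsh u' S := by
    constructor
    · intro z hz
      by_cases hzΩ : z ∈ Ω
      · have h1 : ContDiffAt ℝ ∞ u z := hu.smooth.contDiffAt (hΩo.mem_nhds hzΩ)
        exact (h1.congr_of_eventuallyEq (hin z hzΩ)).contDiffWithinAt
      · have h1 : ContDiffAt ℝ ∞ (fun _ : C2 => (0 : ℝ)) z := contDiffAt_const
        exact (h1.congr_of_eventuallyEq (hout z hz hzΩ)).contDiffWithinAt
    · intro z hz v
      by_cases hzΩ : z ∈ Ω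
      · rw [(hL C2).congr v (hin z hzΩ)]
        exact hu.levi_nonneg z hzΩ v
      · rw [(hL C2).congr v (hout z hz hzΩ), (hL C2).const]
  have hbdd : ∃ M : ℝ, ∀ z ∈ S, u' z ≤ M := by
    refine ⟨max M 0, fun z _ => ?_⟩
    rw [hu']
    simp only
    split_ifs with h
    · exact (hM z h).trans (le_max_left _ _)
    · exact le_max_right _ _
  -- the curves lie in `S`
  have hcurve : ∀ n z, ev (F n) z = 0 → z ∈ S := by
    intro n z hz
    have h1 : ‖W z‖ = 1 := hw.unit n z hz
    have h2 : z ∈ DW W := by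
      refine ⟨?_, ?_⟩
      · rw [← norm_ne_zero_iff, h1]
        norm_num
      · rw [h1, Real.log_one, abs_zero]
        norm_num
    refine ⟨h2, ?_⟩
    rw [hφ.eq z h2 (by rw [h1, Real.log_one, abs_zero]; norm_num), h1, Real.log_one]
    norm_num
    linarith
  -- strictness is open
  have hu2 : ContDiffAt ℝ 2 u p := (hu.smooth.contDiffAt (hΩo.mem_nhds hp)).of_le (by norm_cast)
  have hev : ∀ᶠ z in 𝓝 p, StrictAt u z ∧ z ∈ Ω := (hO C2 u p hu2 hstr).and (hΩo.mem_nhds hp)
  obtain ⟨r, hr, hball⟩ := Metric.eventually_nhds_iff.1 hev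
  obtain ⟨n, z, hz, hzr⟩ := hw.dense p r hWp hr
  obtain ⟨hzs, hzΩ⟩ := hball (y := z) (by rw [dist_eq_norm]; exact hzr)
  refine hCu (F n) S u' (hw.nice n) (hw.sep n) hSo (hcurve n) hsm hbdd z hz ?_
  intro v hv
  rw [(hL C2).congr v (hin z hzΩ)]
  exact hzs v hv

end Pool.Agent.H35.CR
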