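import Pool.Agent.H35.CR.Spec

/-!
# Row B4: Liouville's theorem on an algebraic curve
-/

set_option autoImplicit false

open Complex Set Polynomial
open scoped ContDiff Topology

namespace Pool.Agent.H35.CR

theorem b4_comp (hC : SpComp) {E : Type} [NormedAddCommGroup E] [NormedSpace ℂ E] {γ : ℂ → E}
    {u : E → ℝ} {O : Set E} (hO : IsOpen O) (hu : SmoothPsh u O) {x₀ : ℂ}
    (hγ : ContDiffAt ℂ 2 γ x₀) (hmem : γ x₀ ∈ O) :
    ContDiffAt ℝ 2 (fun x => u (γ x)) x₀ ∧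
      levi (fun x => u (γ x)) x₀ 1 = levi u (γ x₀) (fderiv ℂ γ x₀ 1) := by
  have h1 : ContDiffAt ℝ 2 u (γ x₀) :=
    (hu.smooth.contDiffAt (hO.mem_nhds hmem)).of_le (WithTop.coe_le_coe.2 le_top)
  exact ⟨h1.comp x₀ (hγ.restrict_scalars ℝ), hC ℂ E γ u x₀ 1 hγ h1⟩

theorem b4_sum (hL : SpLC) {ι : Type} (t : Finset ι) (f : ι → ℂ → ℝ) (z v : ℂ)
    (h : ∀ i ∈ t, ContDiffAt ℝ 2 (f i) z) :
    levi (fun w => ∑ i ∈ t, f i w) z v = ∑ i ∈ t, levi (f i) z v := by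
  classical
  induction t using Finset.induction_on with
  | empty =>
    simp only [Finset.sum_empty]
    exact (hL ℂ).const 0 z v
  | insert a t ha ih =>
    have h1 : (fun w => ∑ i ∈ insert a t, f i w) = fun w => f a w + ∑ i ∈ t, f i w := by
      funext w
      rw [Finset.sum_insert ha]
    have h2 : ContDiffAt ℝ 2 (fun w => ∑ i ∈ t, f i w) z :=
      ContDiffAt.sum fun i hi => h i (Finset.mem_insert_of_mem hi)
    rw [h1, (hL ℂ).add v (h a (Finset.mem_insert_self a t)) h2,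
      ih fun i hi => h i (Finset.mem_insert_of_mem hi), Finset.sum_insert ha]

theorem b4_curve {s : ℂ → ℂ} {x₀ : ℂ} (hs : AnalyticAt ℂ s x₀) :
    ContDiffAt ℂ 2 (fun x => (!₂[x, s x] : C2)) x₀ ∧
      fderiv ℂ (fun x => (!₂[x, s x] : C2)) x₀ 1 ≠ 0 := by
  have h1 : ContDiffAt ℂ 2 (fun x => (!₂[x, s x] : C2)) x₀ := by
    rw [contDiffAt_euclidean]
    intro i
    fin_cases i
    · exact contDiffAt_id
    · simpa using hs.contDiffAt
  refine ⟨h1, ?_⟩
  intro h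
  have h2 : HasFDerivAt (fun x => (!₂[x, s x] : C2)) (fderiv ℂ (fun x => (!₂[x, s x] : C2)) x₀) x₀ :=
    (h1.differentiableAt (by simp)).hasFDerivAt
  have h3 : HasFDerivAt (fun x : ℂ => (EuclideanSpace.proj (0 : Fin 2) : C2 →L[ℂ] ℂ) (!₂[x, s x] : C2))
      ((EuclideanSpace.proj (0 : Fin 2) : C2 →L[ℂ] ℂ).comp
        (fderiv ℂ (fun x => (!₂[x, s x] : C2)) x₀)) x₀ :=
    (EuclideanSpace.proj (0 : Fin 2) : C2 →L[ℂ] ℂ).hasFDerivAt.comp x₀ h2
  have h4 : (fun x : ℂ => (EuclideanSpace.proj (0 : Fin 2) : C2 →L[ℂ] ℂ) (!₂[x, s x] : C2)) =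
      fun x => x := by
    funext x
    simp
  rw [h4] at h3
  have h5 := h3.unique (hasFDerivAt_id x₀)
  have h6 := congrArg (fun L : ℂ →L[ℂ] ℂ => L 1) h5
  simp only [ContinuousLinearMap.comp_apply, h, map_zero] at h6
  simp at h6

/-- row B4 -/
theorem spCurve (hL : SpLC) (hC : SpComp) (hR : SpRoots) (hLi : SpLiou1) (hD : SpCurveDense)
    (hO : SpOpen) : SpCurve := by
  intro F O u hF hsep hOo hOc hu hM p hp hstr
  obtain ⟨M, hM⟩ := hM
  obtain ⟨Z, hZ, hroots⟩ := hR F hF hsep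
  set U : ℂ → ℝ := fun x => ((sp F x).roots.map (fun y => u (!₂[x, y] : C2))).sum with hU
  -- the local description
  have key : ∀ x₀ ∉ Z, ∃ s : Fin F.natDegree → ℂ → ℂ,
      (∀ i, AnalyticAt ℂ (s i) x₀) ∧ (sp F x₀).roots = Finset.univ.val.map (fun i => s i x₀) ∧
      U =ᶠ[𝓝 x₀] (fun x => ∑ i, u (!₂[x, s i x] : C2)) ∧
      (∀ i, (!₂[x₀, s i x₀] : C2) ∈ O) := by
    intro x₀ hx₀
    obtain ⟨s, hs, hev⟩ := hroots x₀ hx₀
    have h0 := hev.self_of_nhds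
    refine ⟨s, hs, h0, ?_, ?_⟩
    · filter_upwards [hev] with x hx
      simp only [hU, hx, Multiset.map_map]
      rfl
    · intro i
      apply hOc
      have hmem : s i x₀ ∈ (sp F x₀).roots := by
        rw [h0, Multiset.mem_map]
        exact ⟨i, Finset.mem_univ i, rfl⟩
      have := (Polynomial.mem_roots'.1 hmem).2
      simpa [ev, Polynomial.IsRoot] using this
  have key2 : ∀ x₀ ∉ Z, ∀ s : Fin F.natDegree → ℂ → ℂ, (∀ i, AnalyticAt ℂ (s i) x₀) →
      U =ᶠ[𝓝 x₀] (fun x => ∑ i, u (!₂[x, s i x] : C2)) → (∀ i, (!₂[x₀, s i x₀] : C2) ∈ O) →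
      ContDiffAt ℝ 2 U x₀ ∧ levi U x₀ 1 =
        ∑ i, levi u (!₂[x₀, s i x₀] : C2) (fderiv ℂ (fun x => (!₂[x, s i x] : C2)) x₀ 1) := by
    intro x₀ _ s hs hUe hmem
    have hc := fun i => b4_comp hC hOo hu (b4_curve (hs i)).1 (hmem i)
    refine ⟨?_, ?_⟩
    · exact (ContDiffAt.sum fun i _ => (hc i).1).congr_of_eventuallyEq hUe
    · rw [(hL ℂ).congr 1 hUe, b4_sum hL Finset.univ _ x₀ 1 fun i _ => (hc i).1]
      exact Finset.sum_congr rfl fun i _ => (hc i).2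
  have hLiou : ∀ x ∉ Z, levi U x 1 = 0 := by
    refine hLi Z U (F.natDegree * M) hZ ?_ ?_ ?_
    · intro x hx
      obtain ⟨s, hs, _, hUe, hmem⟩ := key x hx
      exact (key2 x hx s hs hUe hmem).1
    · intro x hx
      obtain ⟨s, hs, _, hUe, hmem⟩ := key x hx
      rw [(key2 x hx s hs hUe hmem).2]
      exact Finset.sum_nonneg fun i _ => hu.levi_nonneg _ (hmem i) _
    · intro x hx
      obtain ⟨s, hs, _, hUe, hmem⟩ := key x hx
      rw [hUe.self_of_nhds]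
      calc ∑ i, u (!₂[x, s i x] : C2) ≤ ∑ _i : Fin F.natDegree, M :=
            Finset.sum_le_sum fun i _ => hM _ (hmem i)
        _ = F.natDegree * M := by simp
  -- strictness at a good point of the curve
  have hcd : ∃ ε > 0, ∀ q : C2, ‖q - p‖ < ε → StrictAt u q := by
    have h2 := hO C2 u p
      ((hu.smooth.contDiffAt (hOo.mem_nhds (hOc p hp))).of_le (WithTop.coe_le_coe.2 le_top)) hstr
    obtain ⟨ε, hε, h⟩ := Metric.eventually_nhds_iff.1 h2
    exact ⟨ε, hε, fun q hq => h (by rwa [dist_eq_norm])⟩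
  obtain ⟨ε, hε, hstr'⟩ := hcd
  obtain ⟨q, hq, hqZ, hqp⟩ := hD F Z p ε hF hZ hp hε
  have hqs := hstr' q hqp
  obtain ⟨s, hs, h0, hUe, hmem⟩ := key (q 0) hqZ
  have hlev := (key2 (q 0) hqZ s hs hUe hmem).2
  rw [hLiou (q 0) hqZ] at hlev
  have hne : sp F (q 0) ≠ 0 := by
    obtain ⟨c, hc, hlc, _⟩ := hF
    intro h
    have h1 : (Polynomial.evalRingHom (q 0)) F.leadingCoeff ≠ 0 := by
      rw [hlc]
      simpa using hc
    have h2 : (F.map (Polynomial.evalRingHom (q 0))).coeff F.natDegree =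
        (Polynomial.evalRingHom (q 0)) F.leadingCoeff := by
      rw [Polynomial.coeff_map]
      rfl
    have h3 : F.map (Polynomial.evalRingHom (q 0)) = 0 := h
    rw [h3, Polynomial.coeff_zero] at h2
    exact h1 h2.symm
  have hroot : q 1 ∈ (sp F (q 0)).roots := (Polynomial.mem_roots hne).2 hq
  rw [h0, Multiset.mem_map] at hroot
  obtain ⟨i, _, hi⟩ := hroot
  have hqi : (!₂[q 0, s i (q 0)] : C2) = q := by
    ext j
    fin_cases j
    · simp
    · simpa using hi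
  have hpos : 0 < levi u (!₂[q 0, s i (q 0)] : C2)
      (fderiv ℂ (fun x => (!₂[x, s i x] : C2)) (q 0) 1) := by
    rw [hqi]
    exact hqs _ (b4_curve (hs i)).2
  have hsum : 0 < ∑ i, levi u (!₂[q 0, s i (q 0)] : C2)
      (fderiv ℂ (fun x => (!₂[x, s i x] : C2)) (q 0) 1) :=
    Finset.sum_pos' (fun j _ => hu.levi_nonneg _ (hmem j) _) ⟨i, Finset.mem_univ _, hpos⟩
  rw [← hlev] at hsum
  exact lt_irrefl _ hsum

end Pool.Agent.H35.CR
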