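import Mathlib

/-!
# The core of a domain: definitions

The complement of the core of a strictly pseudoconvex domain need not be connected
(problem MP_d5c4e7_an).  This file holds the definitions used in the statement.
-/

set_option autoImplicit false

open Complex Set
open scoped ContDiff Topology

namespace Pool.Agent.H35.CR

section General

variable {E : Type*} [NormedAddCommGroup E] [NormedSpace ℂ E]

/-- Four times the Levi form of `φ` at `z` in the direction `v`, that is
`4 ∑ (∂²φ/∂z_j∂\bar z_k)(z) v_j \bar v_k = D²φ(z)(v,v) + D²φ(z)(iv,iv)`. -/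
noncomputable def levi (φ : E → ℝ) (z v : E) : ℝ :=
  fderiv ℝ (fderiv ℝ φ) z v v + fderiv ℝ (fderiv ℝ φ) z (I • v) (I • v)

/-- `φ` is strictly plurisubharmonic at `z`: its Levi form at `z` is positive definite. -/
def StrictAt (φ : E → ℝ) (z : E) : Prop := ∀ v : E, v ≠ 0 → 0 < levi φ z v

/-- `φ` is a `C^∞` plurisubharmonic function on the (open) set `Ω`. -/
structure SmoothPsh (φ : E → ℝ) (Ω : Set E) : Prop where
  smooth : ContDiffOn ℝ ∞ φ Ω
  levi_nonneg : ∀ z ∈ Ω, ∀ v : E, 0 ≤ levi φ z v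

/-- The core of `Ω`: the points of `Ω` at which no `C^∞` plurisubharmonic function on `Ω` that is
bounded above is strictly plurisubharmonic. -/
def core (Ω : Set E) : Set E :=
  {z | z ∈ Ω ∧ ∀ φ : E → ℝ, SmoothPsh φ Ω → (∃ M : ℝ, ∀ w ∈ Ω, φ w ≤ M) → ¬ StrictAt φ z}

/-- `Ω` is a strictly pseudoconvex domain with smooth boundary: it is a domain (nonempty, open,
connected) and every boundary point has an open neighbourhood `U` with a `C^∞` strictly
plurisubharmonic function `ρ` on `U` such that `Ω ∩ U = {ρ < 0}` and `dρ ≠ 0` on `bΩ ∩ U`. -/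
structure StrictlyPseudoconvexSmooth (Ω : Set E) : Prop where
  isOpen : IsOpen Ω
  isConnected : IsConnected Ω
  boundary : ∀ p ∈ frontier Ω, ∃ (U : Set E) (ρ : E → ℝ), IsOpen U ∧ p ∈ U ∧
    ContDiffOn ℝ ∞ ρ U ∧ (∀ z ∈ U, StrictAt ρ z) ∧ (∀ z ∈ U, z ∈ Ω ↔ ρ z < 0) ∧
    ∀ z ∈ frontier Ω ∩ U, fderiv ℝ ρ z ≠ 0

end General

/-- `ℂ²` -/
abbrev C2 := EuclideanSpace ℂ (Fin 2)

end Pool.Agent.H35.CR
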