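import Pool.Agent.H35.CR.Spec

/-!
# Project CR (MP_d5c4e7_an), row C7: density of the curves in `{|W| = 1}`
-/

set_option autoImplicit false

open Complex Set Polynomial
open scoped ContDiff Topology

namespace Pool.Agent.H35.CR

theorem c7_ev_sub (F G : PP) (p : C2) : ev (F - G) p = ev F p - ev G p := by
  unfold ev sp
  rw [Polynomial.map_sub, Polynomial.eval_sub]

theorem c7_ev_const (c : ℂ) (p : C2) : ev (Polynomial.C (Polynomial.C c)) p = c := by
  unfold ev sp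
  simp

theorem c7_ev_X (p : C2) : ev (Polynomial.X : PP) p = p 1 := by
  unfold ev sp
  simp

theorem c7_cont (F : PP) : Continuous (ev F) := by
  have h1 : ev F = fun p : C2 => ∑ i ∈ F.support, (F.coeff i).eval (p 0) * (p 1) ^ i := by
    funext p
    unfold ev sp
    rw [Polynomial.eval_map, Polynomial.eval₂_eq_sum, Polynomial.sum_def]
    rfl
  rw [h1]
  refine continuous_finsetSum _ fun i _ => ?_
  refine ((F.coeff i).continuous.comp ?_).mul ?_
  · fun_prop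
  · fun_prop

/-- `W` takes values of modulus larger and smaller than one near every point of `{|W| = 1}` -/
theorem c7_both (W : C2 → ℂ) (hW : Differentiable ℂ W) (q₀ : C2) (p : C2) (h0 : W q₀ ≠ W p)
    (hp : ‖W p‖ = 1) (ε : ℝ) (hε : 0 < ε) :
    ∃ q₁ q₂ : C2, ‖q₁ - p‖ < ε ∧ ‖q₂ - p‖ < ε ∧ 1 < ‖W q₁‖ ∧ ‖W q₂‖ < 1 := by
  set g : ℂ → ℂ := fun ζ => W (p + ζ • (q₀ - p)) with hg
  have hgd : Differentiable ℂ g := by
    refine hW.comp ?_
    fun_prop
  have hga : AnalyticOnNhd ℂ g Set.univ := by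
    have := hgd.differentiableOn (s := Set.univ)
    exact this.analyticOnNhd isOpen_univ
  have hg0 : g 0 = W p := by simp [hg]
  have hg1 : g 1 = W q₀ := by simp [hg]
  have hopen : 𝓝 (g 0) ≤ Filter.map g (𝓝 0) := by
    rcases (hga 0 (Set.mem_univ _)).eventually_constant_or_nhds_le_map_nhds with h | h
    · exfalso
      have h2 : g = fun _ => g 0 := by
        refine AnalyticOnNhd.eq_of_eventuallyEq hga (fun z _ => analyticAt_const) (z₀ := 0) ?_
        exact h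
      have h3 := congrFun h2 1
      rw [hg1, hg0] at h3
      exact h0 h3
    · exact h
  have hball : {ζ : ℂ | ‖(p + ζ • (q₀ - p)) - p‖ < ε} ∈ 𝓝 (0 : ℂ) := by
    have hc : Continuous fun ζ : ℂ => ‖(p + ζ • (q₀ - p)) - p‖ := by fun_prop
    refine (isOpen_lt hc continuous_const).mem_nhds ?_
    simp [hε]
  have himg : g '' {ζ : ℂ | ‖(p + ζ • (q₀ - p)) - p‖ < ε} ∈ 𝓝 (g 0) :=
    hopen (Filter.image_mem_map hball)
  rw [hg0] at himg
  obtain ⟨δ, hδ, hsub⟩ := Metric.mem_nhds_iff.mp himg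
  set η : ℝ := min (δ / 2) (1 / 2) with hη
  have hη0 : 0 < η := lt_min (by linarith) (by norm_num)
  have hη1 : η ≤ δ / 2 := min_le_left _ _
  have hη2 : η ≤ 1 / 2 := min_le_right _ _
  have hm1 : ((1 + η : ℝ) : ℂ) * W p ∈ Metric.ball (W p) δ := by
    rw [Metric.mem_ball, dist_eq_norm]
    have : ((1 + η : ℝ) : ℂ) * W p - W p = ((η : ℝ) : ℂ) * W p := by push_cast; ring
    rw [this, norm_mul, hp, mul_one, Complex.norm_real, Real.norm_of_nonneg hη0.le]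
    linarith
  have hm2 : ((1 - η : ℝ) : ℂ) * W p ∈ Metric.ball (W p) δ := by
    rw [Metric.mem_ball, dist_eq_norm]
    have : ((1 - η : ℝ) : ℂ) * W p - W p = ((-η : ℝ) : ℂ) * W p := by push_cast; ring
    rw [this, norm_mul, hp, mul_one, Complex.norm_real, norm_neg, Real.norm_of_nonneg hη0.le]
    linarith
  obtain ⟨ζ₁, hζ₁, e₁⟩ := hsub hm1
  obtain ⟨ζ₂, hζ₂, e₂⟩ := hsub hm2
  refine ⟨p + ζ₁ • (q₀ - p), p + ζ₂ • (q₀ - p), hζ₁, hζ₂, ?_, ?_⟩
  · have h3 : W (p + ζ₁ • (q₀ - p)) = ((1 + η : ℝ) : ℂ) * W p := e₁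
    rw [h3, norm_mul, hp, mul_one, Complex.norm_real, Real.norm_of_nonneg (by linarith)]
    linarith
  · have h3 : W (p + ζ₂ • (q₀ - p)) = ((1 - η : ℝ) : ℂ) * W p := e₂
    rw [h3, norm_mul, hp, mul_one, Complex.norm_real, Real.norm_of_nonneg (by linarith)]
    linarith

theorem spDense (hD : DmProps) : SpDense := by
  refine ⟨fun n => TopologicalSpace.denseSeq C2 n.unpair.1.unpair.1,
    fun n => 1 / ((n.unpair.1.unpair.2 : ℝ) + 1), fun n => by positivity, ?_⟩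
  intro Q T N c W hS hL p ε hp hε
  -- `W` is not constant
  have hax : ∀ t : ℝ, |t| ≤ 3 → ‖W !₂[(0 : ℂ), (t : ℂ)] - t‖ ≤ 1 / 100 := by
    intro t ht
    have h1 := hL.near 0 _ (hD.axis t ht)
    rw [hS.zero, c7_ev_X] at h1
    simpa using h1
  have hnc : ∃ q₀ : C2, W q₀ ≠ W p := by
    by_contra hc
    push Not at hc
    have h1 := hax 1 (by norm_num)
    have h2 := hax 2 (by norm_num)
    rw [hc] at h1 h2
    have h3 : ‖((2 : ℝ) : ℂ) - ((1 : ℝ) : ℂ)‖ ≤ 1 / 100 + 1 / 100 := by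
      calc ‖((2 : ℝ) : ℂ) - ((1 : ℝ) : ℂ)‖
          = ‖(W p - ((1 : ℝ) : ℂ)) - (W p - ((2 : ℝ) : ℂ))‖ := by congr 1; ring
        _ ≤ ‖W p - ((1 : ℝ) : ℂ)‖ + ‖W p - ((2 : ℝ) : ℂ)‖ := norm_sub_le _ _
        _ ≤ _ := add_le_add h1 h2
    rw [← Complex.ofReal_sub, Complex.norm_real] at h3
    norm_num at h3
  obtain ⟨q₀, hq₀⟩ := hnc
  -- the ball
  obtain ⟨k, hk⟩ := exists_nat_one_div_lt (show (0 : ℝ) < ε / 2 by linarith)
  set ρ : ℝ := 1 / ((k : ℝ) + 1) with hρ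
  have hρ0 : 0 < ρ := by positivity
  obtain ⟨i, hi⟩ := (TopologicalSpace.denseRange_denseSeq C2).exists_dist_lt p
    (show 0 < ρ / 2 by linarith)
  obtain ⟨q₁, q₂, b₁, b₂, w₁, w₂⟩ := c7_both W hL.diff q₀ p hq₀ hp (ρ / 2) (by linarith)
  -- a large stage
  obtain ⟨m₀, hm₀⟩ := hD.exhaust (max ‖q₁‖ ‖q₂‖)
  obtain ⟨m₁, hm₁⟩ := exists_pow_lt_of_lt_one
    (show 0 < min (‖W q₁‖ - 1) (1 - ‖W q₂‖) by exact lt_min (by linarith) (by linarith))
    (show (1 / 2 : ℝ) < 1 by norm_num)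
  set n : ℕ := Nat.pair (Nat.pair i k) (m₀ + m₁ + 1) with hn
  have hnge : m₀ + m₁ + 1 ≤ n := Nat.right_le_pair _ _
  have hun : n.unpair.1 = Nat.pair i k := by rw [hn, Nat.unpair_pair]
  have han : TopologicalSpace.denseSeq C2 n.unpair.1.unpair.1 = TopologicalSpace.denseSeq C2 i := by
    rw [hun, Nat.unpair_pair]
  have hrn : 1 / ((n.unpair.1.unpair.2 : ℝ) + 1) = ρ := by
    rw [hun, Nat.unpair_pair]
  have hnm : (1 / 2 : ℝ) ^ n ≤ (1 / 2 : ℝ) ^ m₁ :=
    pow_le_pow_of_le_one (by norm_num) (by norm_num) (by omega)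
  have e₁ := hL.near n q₁ (hm₀ n (by omega) q₁ (le_max_left _ _))
  have e₂ := hL.near n q₂ (hm₀ n (by omega) q₂ (le_max_right _ _))
  have hpos : (0 : ℝ) < (1 / 2 : ℝ) ^ n := by positivity
  have v₁ : 1 < ‖ev (Q n) q₁‖ := by
    have h1 : ‖W q₁‖ ≤ ‖W q₁ - ev (Q n) q₁‖ + ‖ev (Q n) q₁‖ := by
      have := norm_add_le (W q₁ - ev (Q n) q₁) (ev (Q n) q₁)
      rwa [sub_add_cancel] at this
    have h2 := min_le_left (‖W q₁‖ - 1) (1 - ‖W q₂‖)
    linarith
  have v₂ : ‖ev (Q n) q₂‖ < 1 := by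
    have h1 : ‖ev (Q n) q₂‖ ≤ ‖W q₂‖ + ‖W q₂ - ev (Q n) q₂‖ := by
      have := norm_sub_le (W q₂) (W q₂ - ev (Q n) q₂)
      rwa [sub_sub_cancel] at this
    have h2 := min_le_right (‖W q₁‖ - 1) (1 - ‖W q₂‖)
    linarith
  -- intermediate values
  set B : Set C2 := Metric.ball (TopologicalSpace.denseSeq C2 i) ρ with hB
  have hpi : dist p (TopologicalSpace.denseSeq C2 i) < ρ / 2 := hi
  have m₁B : q₁ ∈ B := by
    rw [hB, Metric.mem_ball]
    have := dist_triangle q₁ p (TopologicalSpace.denseSeq C2 i)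
    rw [dist_eq_norm q₁ p] at this
    linarith
  have m₂B : q₂ ∈ B := by
    rw [hB, Metric.mem_ball]
    have := dist_triangle q₂ p (TopologicalSpace.denseSeq C2 i)
    rw [dist_eq_norm q₂ p] at this
    linarith
  have hpc : IsPreconnected B := (convex_ball _ _).isPreconnected
  have hcont : ContinuousOn (fun q => ‖ev (Q n) q‖) B := (c7_cont (Q n)).norm.continuousOn
  obtain ⟨q, hqB, hq1⟩ := hpc.intermediate_value m₂B m₁B hcont ⟨v₂.le, v₁.le⟩
  have hit := hS.hit n (by omega)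
  simp only [han, hrn] at hit
  obtain ⟨q', hq'B, hq'⟩ := hit ⟨q, hqB, hq1⟩
  refine ⟨n, q', ?_, ?_⟩
  · rw [c7_ev_sub, c7_ev_const, hq', sub_self]
  · rw [← dist_eq_norm]
    have h1 := dist_triangle q' (TopologicalSpace.denseSeq C2 i) p
    rw [Metric.mem_ball] at hq'B
    rw [dist_comm (TopologicalSpace.denseSeq C2 i) p] at h1
    linarith

end Pool.Agent.H35.CR
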