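import Pool.Agent.H35.CR.Ev

/-!
# Project CR: final assembly from the rows
-/

set_option autoImplicit false

open Complex Set Polynomial
open scoped ContDiff Topology

namespace Pool.Agent.H35.CR

theorem fin_logcont {W : C2 → ℂ} (hW : Differentiable ℂ W) {p : C2} (hp : W p ≠ 0) :
    ContinuousAt (fun q => Real.log ‖W q‖) p :=
  (hW.continuous.norm.continuousAt).log (norm_ne_zero_iff.2 hp)

theorem fin_GW_open {W : C2 → ℂ} (hW : Differentiable ℂ W) : IsOpen (GW W) := by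
  rw [isOpen_iff_mem_nhds]
  intro p hp
  have hc := (fin_logcont hW hp.1).abs
  have h1 : ∀ᶠ q in 𝓝 p, W q ≠ 0 := hW.continuous.continuousAt.eventually_ne hp.1
  have h2 : ∀ᶠ q in 𝓝 p, 1 / 2 < |Real.log ‖W q‖| := hc.eventually_const_lt hp.2.1
  have h3 : ∀ᶠ q in 𝓝 p, |Real.log ‖W q‖| < 2 := hc.eventually_lt_const hp.2.2
  filter_upwards [h1, h2, h3] with q a b c
  exact ⟨a, b, c⟩

theorem fin_DW_open {W : C2 → ℂ} (hW : Differentiable ℂ W) : IsOpen (DW W) := by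
  rw [isOpen_iff_mem_nhds]
  intro p hp
  have hc := (fin_logcont hW hp.1).abs
  have h1 : ∀ᶠ q in 𝓝 p, W q ≠ 0 := hW.continuous.continuousAt.eventually_ne hp.1
  have h3 : ∀ᶠ q in 𝓝 p, |Real.log ‖W q‖| < 2 := hc.eventually_lt_const hp.2
  filter_upwards [h1, h3] with q a c
  exact ⟨a, c⟩

theorem fin_closure {W : C2 → ℂ} (hW : Differentiable ℂ W) {φ : C2 → ℝ} (hφ : PhiData W φ)
    {ε : ℝ} (hε : ε < 3) : closure {p ∈ DW W | φ p < ε} ⊆ DW W := by
  have hsub : {p ∈ DW W | φ p < ε} ⊆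
      {p | Real.exp (-(7 / 4)) ≤ ‖W p‖ ∧ ‖W p‖ ≤ Real.exp (7 / 4)} := by
    rintro p ⟨hp, hlt⟩
    have h1 := hφ.ge p hp
    have h2 : Real.log ‖W p‖ ^ 2 < (7 / 4) ^ 2 := by
      refine lt_of_le_of_lt h1 (lt_trans (lt_trans hlt hε) (by norm_num))
    have h3 : |Real.log ‖W p‖| < 7 / 4 := abs_lt_of_sq_lt_sq h2 (by norm_num)
    rw [abs_lt] at h3
    have hpos : 0 < ‖W p‖ := norm_pos_iff.2 hp.1
    constructor
    · rw [← Real.le_log_iff_exp_le hpos]
      exact h3.1.le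
    · rw [← Real.log_le_iff_le_exp hpos]
      exact h3.2.le
  have hcl : IsClosed {p | Real.exp (-(7 / 4)) ≤ ‖W p‖ ∧ ‖W p‖ ≤ Real.exp (7 / 4)} := by
    have hc := hW.continuous.norm
    exact (isClosed_le continuous_const hc).inter (isClosed_le hc continuous_const)
  intro p hp
  obtain ⟨h1, h2⟩ := hcl.closure_subset_iff.2 hsub hp
  have hpos : 0 < ‖W p‖ := lt_of_lt_of_le (Real.exp_pos _) h1
  refine ⟨norm_pos_iff.1 hpos, ?_⟩
  rw [← Real.le_log_iff_exp_le hpos] at h1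
  rw [← Real.log_le_iff_le_exp hpos] at h2
  rw [abs_lt]
  constructor <;> linarith

/-- bounds for `log` at the points of the axis -/
theorem fin_axis {W : C2 → ℂ} {t : ℝ} (ht : 37 / 100 ≤ t) (ht' : t ≤ 27 / 10)
    (h : ‖W !₂[(0 : ℂ), (t : ℂ)] - t‖ ≤ 1 / 100) :
    W !₂[(0 : ℂ), (t : ℂ)] ≠ 0 ∧ t - 1 / 100 ≤ ‖W !₂[(0 : ℂ), (t : ℂ)]‖ ∧
      ‖W !₂[(0 : ℂ), (t : ℂ)]‖ ≤ t + 1 / 100 ∧
      |Real.log ‖W !₂[(0 : ℂ), (t : ℂ)]‖| ≤ 11 / 10 := by
  set z := W !₂[(0 : ℂ), (t : ℂ)] with hz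
  have h1 : ‖(t : ℂ)‖ = t := by
    rw [Complex.norm_real, Real.norm_eq_abs, abs_of_nonneg (by linarith)]
  have h2 : t - 1 / 100 ≤ ‖z‖ := by
    have := norm_sub_norm_le (t : ℂ) z
    rw [h1, norm_sub_rev] at this
    linarith
  have h3 : ‖z‖ ≤ t + 1 / 100 := by
    have := norm_sub_norm_le z (t : ℂ)
    rw [h1] at this
    linarith
  have hpos : 0 < ‖z‖ := by linarith
  refine ⟨norm_pos_iff.1 hpos, h2, h3, ?_⟩
  have he : (271 / 100 : ℝ) < Real.exp 1 := by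
    have := Real.exp_one_gt_d9
    linarith
  have he2 : (299 / 100 : ℝ) ≤ Real.exp (11 / 10) := by
    have h5 : Real.exp (11 / 10) = Real.exp 1 * Real.exp (1 / 10) := by
      rw [← Real.exp_add]
      norm_num
    have h6 : (1 / 10 : ℝ) + 1 ≤ Real.exp (1 / 10) := Real.add_one_le_exp _
    rw [h5]
    nlinarith [Real.exp_one_gt_d9]
  rw [abs_le]
  constructor
  · rw [Real.le_log_iff_exp_le hpos, Real.exp_neg]
    rw [inv_le_comm₀ (Real.exp_pos _) hpos]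
    rw [inv_le_comm₀ hpos (Real.exp_pos _)]
    have : (Real.exp (11 / 10))⁻¹ ≤ (299 / 100)⁻¹ := by
      apply inv_anti₀ (by norm_num) he2
    refine this.trans ?_
    norm_num
    linarith
  · rw [Real.log_le_iff_le_exp hpos]
    linarith

theorem spFinal_of (hD : DmProps) (hW : SpW) (hV : SpV) (hPhi : SpPhi) (hS : SpSard) (hB : SpBd)
    (hC : SpCore) : SpFinal := by
  obtain ⟨W, F, w, hw⟩ := hW
  have hWc : Continuous W := hw.diff.continuous
  obtain ⟨V, hV1, hV2, hV3⟩ := hV C2 (GW W) Dm w (fin_GW_open hw.diff) hD.isOpen hD.subset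
    (fun p => by
      obtain ⟨m, hm⟩ := hD.exhaust ‖p‖
      exact ⟨m, hm m le_rfl p le_rfl⟩) hD.bounded hw.smooth hw.levi_nonneg hw.upper hw.lower hw.deep
  obtain ⟨φ, hφ⟩ := hPhi W V hw.diff hV1 hV2 hV3
  -- a regular value
  have hDo : IsOpen (DW W) := fin_DW_open hw.diff
  have hsard := hS C2 φ (DW W) hDo hφ.psh.smooth
  obtain ⟨ε, hε, hreg⟩ : ∃ ε ∈ Ioo (2 : ℝ) 3, ε ∉ φ '' {x ∈ DW W | fderiv ℝ φ x = 0} := by
    by_contra hcon
    push Not at hcon
    have h1 : MeasureTheory.volume (Ioo (2 : ℝ) 3) ≤ 0 := by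
      rw [← hsard]
      exact MeasureTheory.measure_mono hcon
    rw [Real.volume_Ioo] at h1
    norm_num at h1
  have hreg' : ∀ p ∈ DW W, φ p = ε → fderiv ℝ φ p ≠ 0 := by
    intro p hp hpe h0
    exact hreg ⟨p, ⟨hp, h0⟩, hpe⟩
  -- the sublevel set
  set S : Set C2 := {p ∈ DW W | φ p < ε} with hSdef
  have hSo : IsOpen S := by
    have h1 : ContinuousOn φ (DW W) := hφ.psh.smooth.continuousOn
    have := h1.isOpen_inter_preimage hDo isOpen_Iio (t := Iio ε)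
    exact this
  -- points on the axis
  have hax : ∀ t : ℝ, 37 / 100 ≤ t → t ≤ 27 / 10 → (!₂[(0 : ℂ), (t : ℂ)] : C2) ∈ S := by
    intro t h1 h2
    obtain ⟨a, b, c, d⟩ := fin_axis h1 h2 (hw.axis t (by rw [abs_le]; constructor <;> linarith))
    have hmem : (!₂[(0 : ℂ), (t : ℂ)] : C2) ∈ DW W := ⟨a, by linarith⟩
    refine ⟨hmem, ?_⟩
    have h3 := hφ.le _ hmem
    have h4 : Real.log ‖W !₂[(0 : ℂ), (t : ℂ)]‖ ^ 2 ≤ (11 / 10) ^ 2 := by
      rw [← sq_abs]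
      exact pow_le_pow_left₀ (abs_nonneg _) d 2
    have h5 : max (Real.log ‖W !₂[(0 : ℂ), (t : ℂ)]‖ ^ 2)
        (2 * Real.log ‖W !₂[(0 : ℂ), (t : ℂ)]‖ ^ 2 - 3 / 4) ≤ 17 / 10 := by
      apply max_le <;> linarith
    have := hε.1
    linarith
  set q : C2 := !₂[(0 : ℂ), ((1 : ℝ) : ℂ)] with hq
  have hqS : q ∈ S := hax 1 (by norm_num) (by norm_num)
  set Ω : Set C2 := connectedComponentIn S q with hΩ
  have hΩo : IsOpen Ω := hSo.connectedComponentIn
  have hΩS : Ω ⊆ S := connectedComponentIn_subset S q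
  have hbd := hB C2 (DW W) φ ε hDo hφ.psh.smooth hreg' (fin_closure hw.diff hφ hε.2) q hqS.1 hqS.2
  -- the segment is in the component
  have hseg : ∀ t : ℝ, 37 / 100 ≤ t → t ≤ 27 / 10 → (!₂[(0 : ℂ), (t : ℂ)] : C2) ∈ Ω := by
    intro t h1 h2
    have hpre : IsPreconnected ((fun t : ℝ => (!₂[(0 : ℂ), (t : ℂ)] : C2)) ''
        Icc (37 / 100) (27 / 10)) := by
      apply isPreconnected_Icc.image
      apply Continuous.continuousOn
      have : Continuous (fun t : ℝ => (![(0 : ℂ), (t : ℂ)] : Fin 2 → ℂ)) := by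
        refine continuous_pi fun i => ?_
        fin_cases i
        · exact continuous_const
        · exact Complex.continuous_ofReal
      exact (PiLp.continuous_toLp 2 _).comp this
    refine hpre.subset_connectedComponentIn (x := q) ⟨1, ⟨by norm_num, by norm_num⟩, rfl⟩ ?_
      ⟨t, ⟨h1, h2⟩, rfl⟩
    rintro _ ⟨s, hs, rfl⟩
    exact hax s hs.1 hs.2
  have hφleε : ∀ p ∈ Ω, φ p ≤ ε := fun p hp => (hΩS hp).2.le
  have hpshΩ : SmoothPsh φ Ω :=
    ⟨hφ.psh.smooth.mono fun p hp => (hΩS hp).1, fun z hz v => hφ.psh.levi_nonneg z (hΩS hz).1 v⟩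
  refine ⟨Ω, ⟨hΩo, ?_, ?_⟩, ?_⟩
  · exact isConnected_connectedComponentIn_iff.2 hqS
  · intro p hp
    obtain ⟨hpD, hpe, U, hU, hpU, hUD, hUiff⟩ := hbd p hp
    have hbig : ∀ z ∈ DW W, 2 < φ z → 9 / 10 < |Real.log ‖W z‖| := by
      intro z hz h2
      by_contra hcon
      push Not at hcon
      have h3 := hφ.le z hz
      have h4 : Real.log ‖W z‖ ^ 2 ≤ (9 / 10) ^ 2 := by
        rw [← sq_abs]
        exact pow_le_pow_left₀ (abs_nonneg _) hcon 2
      have h5 : max (Real.log ‖W z‖ ^ 2) (2 * Real.log ‖W z‖ ^ 2 - 3 / 4) ≤ 9 / 10 := by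
        apply max_le <;> linarith
      linarith
    set U' : Set C2 := {z | z ∈ U ∧ 2 < φ z} with hU'
    have hU'o : IsOpen U' := by
      have h1 : ContinuousOn φ U := hφ.psh.smooth.continuousOn.mono hUD
      exact h1.isOpen_inter_preimage hU isOpen_Ioi (t := Ioi 2)
    refine ⟨U', fun z => φ z - ε, hU'o, ⟨hpU, by rw [hpe]; exact hε.1⟩, ?_, ?_, ?_, ?_⟩
    · exact (hφ.psh.smooth.mono fun z hz => hUD hz.1).sub contDiffOn_const
    · intro z hz v hv
      have h1 : StrictAt φ z := hφ.strict z (hUD hz.1) (hbig z (hUD hz.1) hz.2)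
      have h2 : levi (fun z => φ z - ε) z v = levi φ z v := by
        unfold levi
        have : fderiv ℝ (fun z => φ z - ε) = fderiv ℝ φ := by
          funext x
          rw [fderiv_sub_const]
        rw [this]
      rw [h2]
      exact h1 v hv
    · intro z hz
      rw [hUiff z hz.1, sub_neg]
    · rintro z ⟨hz, hz'⟩
      obtain ⟨a, b, -⟩ := hbd z hz
      rw [fderiv_sub_const]
      exact hreg' z a b
  · intro hpre
    have hcore : ∀ p ∈ Ω, ‖W p‖ = 1 → p ∈ core Ω :=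
      hC W F w φ ε q hw hφ hε.1 hε.2 hqS.1 hqS.2
    have hA : IsOpen {p | ‖W p‖ < 1} := isOpen_lt hWc.norm continuous_const
    have hB' : IsOpen {p | 1 < ‖W p‖} := isOpen_lt continuous_const hWc.norm
    have hnot : ∀ p ∈ Ω, 9 / 10 < |Real.log ‖W p‖| → p ∈ Ω \ core Ω := by
      intro p hp h9
      refine ⟨hp, fun hc => ?_⟩
      exact hc.2 φ hpshΩ ⟨ε, hφleε⟩ (hφ.strict p (hΩS hp).1 h9)
    have he : (27 / 10 : ℝ) < Real.exp 1 := by
      have := Real.exp_one_gt_d9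
      linarith
    -- small point
    have hs : (!₂[(0 : ℂ), ((37 / 100 : ℝ) : ℂ)] : C2) ∈ Ω := hseg _ le_rfl (by norm_num)
    have hb : (!₂[(0 : ℂ), ((27 / 10 : ℝ) : ℂ)] : C2) ∈ Ω := hseg _ (by norm_num) le_rfl
    obtain ⟨a1, b1, c1, d1⟩ := fin_axis (W := W) (t := 37 / 100) le_rfl (by norm_num)
      (hw.axis _ (by rw [abs_le]; constructor <;> norm_num))
    obtain ⟨a2, b2, c2, d2⟩ := fin_axis (W := W) (t := 27 / 10) (by norm_num) le_rfl
      (hw.axis _ (by rw [abs_le]; constructor <;> norm_num))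
    have hexp9 : Real.exp (9 / 10) < 5 / 2 := by
      have h5 : Real.exp (9 / 10) = Real.exp 1 * Real.exp (-(1 / 10)) := by
        rw [← Real.exp_add]
        norm_num
      have h6 : (1 / 10 : ℝ) + 1 ≤ Real.exp (1 / 10) := Real.add_one_le_exp _
      have h7 : Real.exp (-(1 / 10)) ≤ 10 / 11 := by
        rw [Real.exp_neg]
        have : (Real.exp (1 / 10))⁻¹ ≤ (11 / 10)⁻¹ := by
          apply inv_anti₀ (by norm_num)
          linarith
        refine this.trans ?_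
        norm_num
      rw [h5]
      nlinarith [Real.exp_one_lt_d9, Real.exp_pos 1, Real.exp_pos (-(1 / 10))]
    have hs9 : 9 / 10 < |Real.log ‖W !₂[(0 : ℂ), ((37 / 100 : ℝ) : ℂ)]‖| := by
      rw [lt_abs]
      right
      have hpos : 0 < ‖W !₂[(0 : ℂ), ((37 / 100 : ℝ) : ℂ)]‖ := norm_pos_iff.2 a1
      rw [lt_neg, Real.log_lt_iff_lt_exp hpos, Real.exp_neg]
      have : (5 / 2 : ℝ)⁻¹ < (Real.exp (9 / 10))⁻¹ :=
        inv_strictAnti₀ (Real.exp_pos _) hexp9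
      refine lt_of_le_of_lt c1 (lt_of_lt_of_le ?_ this.le)
      norm_num
    have hb9 : 9 / 10 < |Real.log ‖W !₂[(0 : ℂ), ((27 / 10 : ℝ) : ℂ)]‖| := by
      rw [lt_abs]
      left
      have hpos : 0 < ‖W !₂[(0 : ℂ), ((27 / 10 : ℝ) : ℂ)]‖ := norm_pos_iff.2 a2
      rw [Real.lt_log_iff_exp_lt hpos]
      linarith
    obtain ⟨z, -, hz1, hz2⟩ := hpre _ _ hA hB'
      (fun p hp => by
        rcases lt_trichotomy ‖W p‖ 1 with h | h | h
        · exact Or.inl h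
        · exact absurd (hcore p hp.1 h) hp.2
        · exact Or.inr h)
      ⟨_, hnot _ hs hs9, by
        change ‖W !₂[(0 : ℂ), ((37 / 100 : ℝ) : ℂ)]‖ < 1
        linarith⟩
      ⟨_, hnot _ hb hb9, by
        change 1 < ‖W !₂[(0 : ℂ), ((27 / 10 : ℝ) : ℂ)]‖
        linarith⟩
    have h1 : ‖W z‖ < 1 := hz1
    have h2 : 1 < ‖W z‖ := hz2
    linarith

end Pool.Agent.H35.CR
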