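import Pool.Agent.H35.CR.Ev

/-!
# Project CR, row C2: the invariants are preserved
-/

set_option autoImplicit false

open Complex Set Polynomial
open scoped ContDiff Topology

namespace Pool.Agent.H35.CR

theorem c2_zc_monic (m : ℕ) : (zc m).Monic ∧ (zc m).natDegree = 1 := by
  unfold zc
  split_ifs
  · exact ⟨Polynomial.monic_X_add_C _, Polynomial.natDegree_X_add_C _⟩
  · exact ⟨Polynomial.monic_X_sub_C _, Polynomial.natDegree_X_sub_C _⟩

theorem c2_quarter (n : ℕ) : ((1 / 4 : ℂ) ^ n) ≠ 0 := pow_ne_zero _ (by norm_num)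

theorem c2_base (n : ℕ) :
    (Polynomial.C (Polynomial.C ((1 / 4 : ℂ) ^ n)) * zc n).leadingCoeff =
      Polynomial.C ((1 / 4 : ℂ) ^ n) ∧
    (Polynomial.C (Polynomial.C ((1 / 4 : ℂ) ^ n)) * zc n).natDegree = 1 := by
  have h0 : (Polynomial.C ((1 / 4 : ℂ) ^ n)) ≠ 0 := by
    rw [Ne, Polynomial.C_eq_zero]
    exact c2_quarter n
  constructor
  · rw [Polynomial.leadingCoeff_mul, (c2_zc_monic n).1.leadingCoeff, mul_one,
      Polynomial.leadingCoeff_C]
  · rw [Polynomial.natDegree_C_mul h0, (c2_zc_monic n).2]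

theorem c2_hP {T : PP} (hT : Nice T) (n N : ℕ) :
    (∃ c : ℂ, c ≠ 0 ∧ (hP T n N).leadingCoeff = Polynomial.C c) ∧
      (hP T n N).natDegree = T.natDegree + N := by
  obtain ⟨c, hc, hcl, hd⟩ := hT
  have hT0 : T ≠ 0 := by
    rintro rfl
    simp at hd
  obtain ⟨h1, h2⟩ := c2_base n
  have hb0 : (Polynomial.C (Polynomial.C ((1 / 4 : ℂ) ^ n)) * zc n) ≠ 0 := by
    intro h
    rw [h] at h2
    simp at h2
  constructor
  · refine ⟨c * ((1 / 4 : ℂ) ^ n) ^ N, mul_ne_zero hc (pow_ne_zero _ (c2_quarter n)), ?_⟩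
    rw [hP, Polynomial.leadingCoeff_mul, Polynomial.leadingCoeff_pow, h1, hcl, ← Polynomial.C_pow,
      ← Polynomial.C_mul]
  · rw [hP, Polynomial.natDegree_mul hT0 (pow_ne_zero _ hb0), Polynomial.natDegree_pow, h2, mul_one]

theorem c2_deg {Q T : PP} (h : Inv Q T) {n N : ℕ} (hN : 2 ≤ N) :
    Q.degree < (hP T n N).degree := by
  obtain ⟨-, h2⟩ := c2_hP h.niceT n N
  apply Polynomial.degree_lt_degree
  rw [h2]
  have := h.deg
  omega

theorem c2_niceQ {Q T : PP} (h : Inv Q T) {n N : ℕ} (hN : 2 ≤ N) :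
    Nice (Q + hP T n N) ∧ (Q + hP T n N).natDegree = T.natDegree + N := by
  obtain ⟨⟨c, hc, hcl⟩, h2⟩ := c2_hP h.niceT n N
  have hlt := c2_deg h (n := n) hN
  have hd : (Q + hP T n N).natDegree = T.natDegree + N := by
    rw [Polynomial.natDegree_add_eq_right_of_degree_lt hlt, h2]
  refine ⟨⟨c, hc, ?_, by rw [hd]; omega⟩, hd⟩
  rw [Polynomial.leadingCoeff_add_of_degree_lt hlt, hcl]

theorem c2_sub {Q : PP} (h : Nice Q) (c : ℂ) :
    Nice (Q - Polynomial.C (Polynomial.C c)) ∧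
      (Q - Polynomial.C (Polynomial.C c)).natDegree = Q.natDegree := by
  obtain ⟨a, ha, hal, hd⟩ := h
  have hlt : (Polynomial.C (Polynomial.C c) : PP).degree < Q.degree := by
    apply Polynomial.degree_lt_degree
    rw [Polynomial.natDegree_C]
    omega
  have hnd : (Q - Polynomial.C (Polynomial.C c)).natDegree = Q.natDegree :=
    Polynomial.natDegree_sub_C
  refine ⟨⟨a, ha, ?_, by rw [hnd]; exact hd⟩, hnd⟩
  rw [Polynomial.leadingCoeff_sub_of_degree_lt hlt, hal]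

theorem c2_mul {F G : PP} (hF : Nice F) (hG : Nice G) :
    Nice (F * G) ∧ (F * G).natDegree = F.natDegree + G.natDegree := by
  obtain ⟨a, ha, hal, hd⟩ := hF
  obtain ⟨b, hb, hbl, he⟩ := hG
  have hF0 : F ≠ 0 := by
    rintro rfl
    simp at hd
  have hG0 : G ≠ 0 := by
    rintro rfl
    simp at he
  have hnd : (F * G).natDegree = F.natDegree + G.natDegree := Polynomial.natDegree_mul hF0 hG0
  refine ⟨⟨a * b, mul_ne_zero ha hb, ?_, by rw [hnd]; omega⟩, hnd⟩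
  rw [Polynomial.leadingCoeff_mul, hal, hbl, ← Polynomial.C_mul]

theorem spInv : SpInv := by
  intro Q T n N c h hN hc
  obtain ⟨h1, h2⟩ := c2_niceQ h (n := n) hN
  obtain ⟨h3, h4⟩ := c2_sub h1 c
  obtain ⟨h5, h6⟩ := c2_mul h.niceT h3
  refine ⟨h1, h5, by rw [h6, h4]; omega, ?_⟩
  intro R η hη
  -- bound for `f_n ^ N`
  obtain ⟨C, hC⟩ : ∃ C : ℝ, ∀ p : C2, ‖p‖ ≤ R → ‖fm n p ^ N‖ ≤ C := by
    have hcpt : IsCompact (Metric.closedBall (0 : C2) R) := isCompact_closedBall 0 R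
    have hcont : Continuous fun p : C2 => fm n p ^ N := (fm_continuous n).pow N
    obtain ⟨C, hC⟩ := hcpt.exists_bound_of_continuousOn hcont.continuousOn
    exact ⟨C, fun p hp => hC p (by simpa using hp)⟩
  set C' : ℝ := max C 0 with hC'
  have hC0 : 0 ≤ C' := le_max_right _ _
  have hC1 : ∀ p : C2, ‖p‖ ≤ R → ‖fm n p ^ N‖ ≤ C' := fun p hp => (hC p hp).trans (le_max_left _ _)
  obtain ⟨κ₀, hκ₀, hsm⟩ := h.small R (η / 2) (by linarith)
  set κ₁ : ℝ := min κ₀ (min (η / (2 * (C' + 1))) η) with hκ₁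
  have hκ₁0 : 0 < κ₁ := by
    refine lt_min hκ₀ (lt_min (by positivity) hη)
  refine ⟨κ₁ * κ₁, mul_pos hκ₁0 hκ₁0, ?_⟩
  intro p hp hlt
  rw [ev_mul, norm_mul] at hlt
  have hQ' : ev (Q + hP T n N) p = ev Q p + ev T p * fm n p ^ N := by
    rw [ev_add, ev_hP, hh]
  by_cases hT : ‖ev T p‖ < κ₁
  · have h7 := hsm p hp (lt_of_lt_of_le hT (min_le_left _ _))
    have h8 : ‖ev T p * fm n p ^ N‖ < η / 2 := by
      rw [norm_mul]
      have h9 : κ₁ ≤ η / (2 * (C' + 1)) := (min_le_right _ _).trans (min_le_left _ _)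
      calc ‖ev T p‖ * ‖fm n p ^ N‖ ≤ ‖ev T p‖ * C' :=
            mul_le_mul_of_nonneg_left (hC1 p hp) (norm_nonneg _)
        _ ≤ ‖ev T p‖ * (C' + 1) := mul_le_mul_of_nonneg_left (by linarith) (norm_nonneg _)
        _ < κ₁ * (C' + 1) := mul_lt_mul_of_pos_right hT (by linarith)
        _ ≤ η / (2 * (C' + 1)) * (C' + 1) := mul_le_mul_of_nonneg_right h9 (by linarith)
        _ = η / 2 := by
            field_simp
    rw [hQ']
    have h10 : |‖ev Q p + ev T p * fm n p ^ N‖ - ‖ev Q p‖| ≤ ‖ev T p * fm n p ^ N‖ := by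
      have := abs_norm_sub_norm_le (ev Q p + ev T p * fm n p ^ N) (ev Q p)
      rwa [add_sub_cancel_left] at this
    have h11 : ‖ev Q p + ev T p * fm n p ^ N‖ - 1 =
        (‖ev Q p + ev T p * fm n p ^ N‖ - ‖ev Q p‖) + (‖ev Q p‖ - 1) := by ring
    rw [h11]
    refine lt_of_le_of_lt (abs_add_le _ _) ?_
    linarith
  · rw [not_lt] at hT
    have h7 : ‖ev (Q + hP T n N - Polynomial.C (Polynomial.C c)) p‖ < κ₁ := by
      by_contra hcon
      rw [not_lt] at hcon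
      have := mul_le_mul hT hcon hκ₁0.le (norm_nonneg _)
      linarith
    rw [ev_sub, ev_CC] at h7
    have h8 : κ₁ ≤ η := (min_le_right _ _).trans (min_le_right _ _)
    have h9 := abs_norm_sub_norm_le (ev (Q + hP T n N) p) c
    rw [hc] at h9
    linarith

end Pool.Agent.H35.CR
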