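import Pool.Agent.H35.CR.Spec

/-!
# Row L1: elementary calculus of the Levi form
-/

set_option autoImplicit false

open Complex Set
open scoped ContDiff Topology

namespace Pool.Agent.H35.CR

section L1

variable {E : Type} [NormedAddCommGroup E] [NormedSpace ℂ E]

theorem l1_diff_ev {f : E → ℝ} {z : E} (hf : ContDiffAt ℝ 2 f z) :
    ∀ᶠ w in 𝓝 z, DifferentiableAt ℝ f w := by
  filter_upwards [hf.eventually (by simp)] with w hw
  exact hw.differentiableAt (by simp)

theorem l1_fderiv_diff {f : E → ℝ} {z : E} (hf : ContDiffAt ℝ 2 f z) :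
    DifferentiableAt ℝ (fderiv ℝ f) z := by
  have h : ContDiffAt ℝ 1 (fderiv ℝ f) z := hf.fderiv_right (by norm_num)
  exact h.differentiableAt (by simp)

theorem l1_congr {f g : E → ℝ} {z : E} (v : E) (h : f =ᶠ[𝓝 z] g) : levi f z v = levi g z v := by
  have h1 : fderiv ℝ (fderiv ℝ f) z = fderiv ℝ (fderiv ℝ g) z := h.fderiv.fderiv_eq
  rw [levi, levi, h1]

theorem l1_const (c : ℝ) (z v : E) : levi (fun _ : E => c) z v = 0 := by
  have h : (fderiv ℝ (fun _ : E => c)) = fun _ => 0 := by
    funext w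
    simp
  rw [levi, h]
  simp

theorem l1_add {f g : E → ℝ} {z : E} (v : E) (hf : ContDiffAt ℝ 2 f z)
    (hg : ContDiffAt ℝ 2 g z) : levi (fun w => f w + g w) z v = levi f z v + levi g z v := by
  have h1 : fderiv ℝ (fun w => f w + g w) =ᶠ[𝓝 z] fun w => fderiv ℝ f w + fderiv ℝ g w := by
    filter_upwards [l1_diff_ev hf, l1_diff_ev hg] with w hw hw'
    exact fderiv_fun_add hw hw'
  have h2 : fderiv ℝ (fderiv ℝ (fun w => f w + g w)) z =
      fderiv ℝ (fderiv ℝ f) z + fderiv ℝ (fderiv ℝ g) z := by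
    rw [h1.fderiv_eq]
    exact fderiv_fun_add (l1_fderiv_diff hf) (l1_fderiv_diff hg)
  rw [levi, levi, levi, h2]
  simp only [_root_.add_apply]
  ring

theorem l1_const_mul {f : E → ℝ} {z : E} (c : ℝ) (v : E) (hf : ContDiffAt ℝ 2 f z) :
    levi (fun w => c * f w) z v = c * levi f z v := by
  have h1 : fderiv ℝ (fun w => c * f w) =ᶠ[𝓝 z] fun w => c • fderiv ℝ f w := by
    filter_upwards [l1_diff_ev hf] with w hw
    exact fderiv_const_mul hw c
  have h2 : fderiv ℝ (fderiv ℝ (fun w => c * f w)) z = c • fderiv ℝ (fderiv ℝ f) z := by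
    rw [h1.fderiv_eq]
    exact fderiv_fun_const_smul (l1_fderiv_diff hf) c
  rw [levi, levi, h2]
  simp only [_root_.smul_apply, smul_eq_mul]
  ring

theorem l1_comp_real {g : ℝ → ℝ} {u : E → ℝ} {z : E} (v : E) (hg : ContDiffAt ℝ 2 g (u z))
    (hu : ContDiffAt ℝ 2 u z) : levi (fun w => g (u w)) z v =
      deriv g (u z) * levi u z v +
        deriv (deriv g) (u z) * ((fderiv ℝ u z v) ^ 2 + (fderiv ℝ u z (I • v)) ^ 2) := by
  have hg1 : ∀ᶠ y in 𝓝 (u z), DifferentiableAt ℝ g y := by
    filter_upwards [hg.eventually (by simp)] with y hy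
    exact hy.differentiableAt (by simp)
  have hg2 : ∀ᶠ w in 𝓝 z, DifferentiableAt ℝ g (u w) :=
    hu.continuousAt.eventually hg1
  have h1 : fderiv ℝ (fun w => g (u w)) =ᶠ[𝓝 z] fun w => deriv g (u w) • fderiv ℝ u w := by
    filter_upwards [l1_diff_ev hu, hg2] with w hw hw'
    exact (hw'.hasDerivAt.comp_hasFDerivAt w hw.hasFDerivAt).fderiv
  have hdg : DifferentiableAt ℝ (deriv g) (u z) := by
    have h : ContDiffAt ℝ 1 (fderiv ℝ g) (u z) := hg.fderiv_right (by norm_num)
    have h' : DifferentiableAt ℝ (fderiv ℝ g) (u z) := h.differentiableAt (by simp)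
    have h'' : deriv g = fun y => fderiv ℝ g y 1 := by
      funext y
      exact (fderiv_apply_one_eq_deriv).symm
    rw [h'']
    exact h'.clm_apply (differentiableAt_const _)
  have hdu : HasFDerivAt u (fderiv ℝ u z) z := (hu.differentiableAt (by simp)).hasFDerivAt
  have h3 : HasFDerivAt (fun w => deriv g (u w)) (deriv (deriv g) (u z) • fderiv ℝ u z) z :=
    hdg.hasDerivAt.comp_hasFDerivAt z hdu
  have h4 : HasFDerivAt (fderiv ℝ u) (fderiv ℝ (fderiv ℝ u) z) z := (l1_fderiv_diff hu).hasFDerivAt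
  have h5 := h3.smul h4
  have h6 : fderiv ℝ (fderiv ℝ (fun w => g (u w))) z = _ := h1.fderiv_eq.trans h5.fderiv
  have h7 : ∀ x y : E, fderiv ℝ (fderiv ℝ (fun w => g (u w))) z x y =
      deriv g (u z) * fderiv ℝ (fderiv ℝ u) z x y +
        deriv (deriv g) (u z) * fderiv ℝ u z x * fderiv ℝ u z y := by
    intro x y
    rw [h6]
    simp
  rw [levi, levi, h7, h7]
  ring

theorem l1_snd_nonpos {u : E → ℝ} {z : E} (v : E) (hu : ContDiffAt ℝ 2 u z)
    (hmax : IsLocalMax u z) : fderiv ℝ (fderiv ℝ u) z v v ≤ 0 := by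
  by_contra hcon
  push Not at hcon
  have hline : ∀ t : ℝ, HasDerivAt (fun s : ℝ => z + s • v) v t := by
    intro t
    have := ((hasDerivAt_id t).smul_const v).const_add z
    simpa using this
  have hc0 : ContinuousAt (fun s : ℝ => z + s • v) 0 := (hline 0).continuousAt
  have hz0 : (fun s : ℝ => z + s • v) 0 = z := by simp
  have htend : Filter.Tendsto (fun s : ℝ => z + s • v) (𝓝 0) (𝓝 z) := by
    have := hc0.tendsto
    simpa using this
  have hd1 : ∀ᶠ t in 𝓝 (0 : ℝ), deriv (fun s : ℝ => u (z + s • v)) t = fderiv ℝ u (z + t • v) v := by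
    filter_upwards [htend.eventually (l1_diff_ev hu)] with t ht
    exact (ht.hasFDerivAt.comp_hasDerivAt t (hline t)).deriv
  have hd2 : deriv (deriv (fun s : ℝ => u (z + s • v))) 0 = fderiv ℝ (fderiv ℝ u) z v v := by
    have e1 : deriv (fun s : ℝ => u (z + s • v)) =ᶠ[𝓝 0] fun t => fderiv ℝ u (z + t • v) v := hd1
    rw [e1.deriv_eq]
    have h4 : HasFDerivAt (fderiv ℝ u) (fderiv ℝ (fderiv ℝ u) z) (z + (0 : ℝ) • v) := by
      simpa using (l1_fderiv_diff hu).hasFDerivAt
    have h5 : HasDerivAt (fun t : ℝ => fderiv ℝ u (z + t • v)) (fderiv ℝ (fderiv ℝ u) z v) 0 :=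
      h4.comp_hasDerivAt (0 : ℝ) (hline 0)
    have h6 := h5.clm_apply (hasDerivAt_const (0 : ℝ) v)
    have h7 := h6.deriv
    simpa using h7
  have hmax' : IsLocalMax (fun s : ℝ => u (z + s • v)) 0 := by
    have := htend.eventually hmax
    simpa [IsLocalMax, IsMaxFilter] using this
  have hcont : ContinuousAt (fun s : ℝ => u (z + s • v)) 0 := by
    have : ContinuousAt u ((fun s : ℝ => z + s • v) 0) := by
      rw [hz0]; exact hu.continuousAt
    exact ContinuousAt.comp (g := u) (f := fun s : ℝ => z + s • v) this hc0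
  have hmin : IsLocalMin (fun s : ℝ => u (z + s • v)) 0 := by
    apply isLocalMin_of_deriv_deriv_pos
    · rw [hd2]; exact hcon
    · exact hmax'.deriv_eq_zero
    · exact hcont
  have heq : (fun s : ℝ => u (z + s • v)) =ᶠ[𝓝 0] fun _ => u (z + (0 : ℝ) • v) := by
    filter_upwards [hmax', hmin] with t ht ht'
    exact le_antisymm ht ht'
  have h8 : deriv (fun s : ℝ => u (z + s • v)) =ᶠ[𝓝 0] fun _ => 0 := by
    have := heq.deriv
    simpa using this
  have h9 : deriv (deriv (fun s : ℝ => u (z + s • v))) 0 = 0 := by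
    rw [h8.deriv_eq]
    simp
  rw [hd2] at h9
  linarith

theorem l1_smul {u : E → ℝ} {z : E} (c : ℂ) (v : E) :
    levi u z (c • v) = ‖c‖ ^ 2 * levi u z v := by
  have hc : c = (c.re : ℂ) + (c.im : ℂ) * I := (re_add_im c).symm
  have h1 : c • v = c.re • v + c.im • (I • v) := by
    conv_lhs => rw [hc]
    rw [add_smul, mul_smul]
    rfl
  have h2 : I • (c • v) = c.re • (I • v) - c.im • v := by
    rw [smul_smul, mul_comm I c]
    conv_lhs => rw [hc]
    have : ((c.re : ℂ) + (c.im : ℂ) * I) * I = (c.re : ℂ) * I + ((-c.im : ℝ) : ℂ) := by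
      push_cast
      linear_combination (c.im : ℂ) * I_mul_I
    rw [this, add_smul, mul_smul, sub_eq_add_neg, ← neg_smul]
    rfl
  have h3 : ‖c‖ ^ 2 = c.re * c.re + c.im * c.im := by
    rw [← normSq_eq_norm_sq, normSq_apply]
  rw [levi, levi, h2, h1, h3]
  simp only [map_add, map_sub, map_smul, _root_.add_apply,
    _root_.sub_apply, _root_.smul_apply, smul_eq_mul]
  ring

end L1

/-- row L1 -/
theorem lc : SpLC := by
  intro E _ _
  exact
    { congr := fun v h => l1_congr v h
      const := fun c z v => l1_const c z v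
      add := fun v hf hg => l1_add v hf hg
      const_mul := fun c v hf => l1_const_mul c v hf
      comp_real := fun v hg hu => l1_comp_real v hg hu
      max_test := fun v hu hmax =>
        add_nonpos (l1_snd_nonpos v hu hmax) (l1_snd_nonpos (I • v) hu hmax)
      smul := fun c v _ => l1_smul c v }

end Pool.Agent.H35.CR
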