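import Pool.Agent.H35.CR.Spec

/-!
# Project CR, row L2: Levi form of a composition with a holomorphic map
-/

set_option autoImplicit false

open Complex Set Polynomial
open scoped ContDiff Topology

namespace Pool.Agent.H35.CR

theorem l2_second {E : Type*} [NormedAddCommGroup E] [NormedSpace ℝ E] {φ : E → ℝ} {z : E}
    (h : ContDiffAt ℝ 2 φ z) (a b : E) :
    fderiv ℝ (fderiv ℝ φ) z a b = fderiv ℝ (fun w => fderiv ℝ φ w b) z a := by
  have h1 : DifferentiableAt ℝ (fderiv ℝ φ) z :=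
    (h.fderiv_right (m := 1) (by norm_num)).differentiableAt (by norm_num)
  have h2 := (h1.hasFDerivAt.clm_apply (hasFDerivAt_const b z)).fderiv
  rw [h2]
  simp

theorem l2_second_comp {E F : Type*} [NormedAddCommGroup E] [NormedSpace ℂ E]
    [NormedAddCommGroup F] [NormedSpace ℂ F] {H : E → F} {u : F → ℝ} {z : E}
    (hH : ContDiffAt ℂ 2 H z) (hu : ContDiffAt ℝ 2 u (H z)) (a b : E) :
    fderiv ℝ (fderiv ℝ (fun w => u (H w))) z a b =
      fderiv ℝ (fderiv ℝ u) (H z) (fderiv ℂ H z a) (fderiv ℂ H z b) +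
        fderiv ℝ u (H z) (fderiv ℂ (fderiv ℂ H) z a b) := by
  have hHr : ContDiffAt ℝ 2 H z := hH.restrict_scalars ℝ
  have hc : ContDiffAt ℝ 2 (fun w => u (H w)) z := hu.comp z hHr
  rw [l2_second hc]
  -- the first derivative near `z`
  have hev : (fun w => fderiv ℝ (fun w => u (H w)) w b) =ᶠ[𝓝 z]
      fun w => fderiv ℝ u (H w) (fderiv ℂ H w b) := by
    have h1 : ∀ᶠ w in 𝓝 z, DifferentiableAt ℂ H w := by
      filter_upwards [hH.eventually (by norm_num)] with w hw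
      exact hw.differentiableAt (by norm_num)
    have h2 : ∀ᶠ w in 𝓝 z, DifferentiableAt ℝ u (H w) := by
      have h3 : ∀ᶠ y in 𝓝 (H z), DifferentiableAt ℝ u y := by
        filter_upwards [hu.eventually (by norm_num)] with w hw
        exact hw.differentiableAt (by norm_num)
      exact hH.continuousAt.eventually h3
    filter_upwards [h1, h2] with w hw1 hw2
    have h4 : HasFDerivAt (fun w => u (H w))
        ((fderiv ℝ u (H w)).comp ((fderiv ℂ H w).restrictScalars ℝ)) w :=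
      hw2.hasFDerivAt.comp w (hw1.hasFDerivAt.restrictScalars ℝ)
    rw [h4.fderiv]
    rfl
  rw [hev.fderiv_eq]
  have hd1 : DifferentiableAt ℝ (fderiv ℝ u) (H z) :=
    (hu.fderiv_right (m := 1) (by norm_num)).differentiableAt (by norm_num)
  have hd2 : DifferentiableAt ℂ (fderiv ℂ H) z :=
    (hH.fderiv_right (m := 1) (by norm_num)).differentiableAt (by norm_num)
  have hd3 : DifferentiableAt ℂ H z := hH.differentiableAt (by norm_num)
  have h5 : HasFDerivAt (fun w => fderiv ℝ u (H w))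
      ((fderiv ℝ (fderiv ℝ u) (H z)).comp ((fderiv ℂ H z).restrictScalars ℝ)) z :=
    hd1.hasFDerivAt.comp z (hd3.hasFDerivAt.restrictScalars ℝ)
  have h6 := (hd2.hasFDerivAt.clm_apply (hasFDerivAt_const b z)).restrictScalars ℝ
  have h7 := (h5.clm_apply h6).fderiv
  rw [h7]
  simp
  ring

theorem spComp : SpComp := by
  intro E F _ _ _ _ H u z v hH hu
  unfold levi
  rw [l2_second_comp hH hu, l2_second_comp hH hu]
  have h0 : fderiv ℂ H z (I • v) = I • fderiv ℂ H z v := (fderiv ℂ H z).map_smul I v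
  have h1 : (fderiv ℂ (fderiv ℂ H) z) (I • v) (I • v) = -(fderiv ℂ (fderiv ℂ H) z v v) := by
    have h2 : (fderiv ℂ (fderiv ℂ H) z) (I • v) = I • (fderiv ℂ (fderiv ℂ H) z) v :=
      (fderiv ℂ (fderiv ℂ H) z).map_smul I v
    have h3 : ∀ L : E →L[ℂ] F, (I • L) (I • v) = -(L v) := by
      intro L
      show I • L (I • v) = -(L v)
      rw [L.map_smul, smul_smul, I_mul_I, neg_one_smul]
    rw [h2, h3]
  rw [h0, h1, map_neg]
  ring

/-- the first derivative of `k log (|w|² + c)` -/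
theorem l2_log_fderiv (k c : ℝ) {w : ℂ} (hw : 0 < ‖w‖ ^ 2 + c) (b : ℂ) :
    fderiv ℝ (fun w : ℂ => k * Real.log (‖w‖ ^ 2 + c)) w b =
      k * (2 * (w.re * b.re + w.im * b.im) / (‖w‖ ^ 2 + c)) := by
  have h1 : HasFDerivAt (fun w : ℂ => ‖w‖ ^ 2) (2 • (innerSL ℝ w)) w := by
    have := (hasFDerivAt_id (𝕜 := ℝ) w).norm_sq
    simpa using this
  have h2 := ((h1.add_const c).log hw.ne').const_mul k
  rw [h2.fderiv]
  have h3 : inner ℝ w b = w.re * b.re + w.im * b.im := by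
    rw [Complex.inner]
    simp [Complex.mul_re]
    ring
  simp only [smul_apply, innerSL_apply_apply, h3, smul_eq_mul, nsmul_eq_mul]
  push_cast
  field_simp

theorem l2_contDiffAt_log (k c : ℝ) {w : ℂ} (hw : 0 < ‖w‖ ^ 2 + c) :
    ContDiffAt ℝ 2 (fun w : ℂ => k * Real.log (‖w‖ ^ 2 + c)) w := by
  refine contDiffAt_const.mul (ContDiffAt.log ?_ hw.ne')
  exact (contDiff_norm_sq ℝ).contDiffAt.add contDiffAt_const

theorem l2_log_second (k c : ℝ) {w : ℂ} (hw : 0 < ‖w‖ ^ 2 + c) (a b : ℂ) :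
    fderiv ℝ (fderiv ℝ (fun w : ℂ => k * Real.log (‖w‖ ^ 2 + c))) w a b =
      k * ((2 * (a.re * b.re + a.im * b.im) * (‖w‖ ^ 2 + c) -
        (2 * (w.re * b.re + w.im * b.im)) * (2 * (w.re * a.re + w.im * a.im))) /
          (‖w‖ ^ 2 + c) ^ 2) := by
  rw [l2_second (l2_contDiffAt_log k c hw)]
  have hcont : Continuous (fun w : ℂ => ‖w‖ ^ 2 + c) := by fun_prop
  have hev : (fun w : ℂ => fderiv ℝ (fun w : ℂ => k * Real.log (‖w‖ ^ 2 + c)) w b) =ᶠ[𝓝 w]
      fun w : ℂ => k * ((2 * (w.re * b.re + w.im * b.im)) * (‖w‖ ^ 2 + c)⁻¹) := by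
    filter_upwards [hcont.continuousAt.eventually (lt_mem_nhds hw)] with x hx
    exact l2_log_fderiv k c hx b
  rw [hev.fderiv_eq]
  have h1 : HasFDerivAt (fun w : ℂ => ‖w‖ ^ 2) (2 • (innerSL ℝ w)) w := by
    have := (hasFDerivAt_id (𝕜 := ℝ) w).norm_sq
    simpa using this
  have h3 : inner ℝ w a = w.re * a.re + w.im * a.im := by
    rw [Complex.inner]
    simp [Complex.mul_re]
    ring
  have hre : HasFDerivAt (fun w : ℂ => w.re) (Complex.reCLM) w := Complex.reCLM.hasFDerivAt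
  have him : HasFDerivAt (fun w : ℂ => w.im) (Complex.imCLM) w := Complex.imCLM.hasFDerivAt
  have hnum : HasFDerivAt (fun w : ℂ => 2 * (w.re * b.re + w.im * b.im))
      ((2 : ℝ) • (b.re • Complex.reCLM + b.im • Complex.imCLM)) w :=
    ((hre.mul_const b.re).add (him.mul_const b.im)).const_mul 2
  have hinv : HasFDerivAt (fun w : ℂ => (‖w‖ ^ 2 + c)⁻¹)
      ((-((‖w‖ ^ 2 + c) ^ 2)⁻¹) • (2 • (innerSL ℝ w))) w :=
    (hasDerivAt_inv hw.ne').comp_hasFDerivAt w (h1.add_const c)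
  have h4 := (hnum.mul hinv).const_mul k
  have h5 := h4.fderiv
  refine (congrArg (fun L : ℂ →L[ℝ] ℝ => L a) h5).trans ?_
  simp only [smul_apply, add_apply,
    innerSL_apply_apply, h3,
    smul_eq_mul, nsmul_eq_mul, Complex.reCLM_apply, Complex.imCLM_apply]
  push_cast
  field_simp
  ring

theorem l2_levi_log (k c : ℝ) {w : ℂ} (hw : 0 < ‖w‖ ^ 2 + c) (v : ℂ) :
    levi (fun w : ℂ => k * Real.log (‖w‖ ^ 2 + c)) w v =
      k * (4 * c * ‖v‖ ^ 2 / (‖w‖ ^ 2 + c) ^ 2) := by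
  unfold levi
  rw [l2_log_second k c hw, l2_log_second k c hw]
  have hw2 : ‖w‖ ^ 2 = w.re ^ 2 + w.im ^ 2 := by
    rw [← Complex.normSq_eq_norm_sq, Complex.normSq_apply]
    ring
  have hv2 : ‖v‖ ^ 2 = v.re ^ 2 + v.im ^ 2 := by
    rw [← Complex.normSq_eq_norm_sq, Complex.normSq_apply]
    ring
  have h1 : (I • v).re = -v.im := by simp
  have h2 : (I • v).im = v.re := by simp
  rw [h1, h2, hv2]
  rw [hw2] at hw ⊢
  field_simp
  ring

theorem spLogC : SpLogC := by
  intro E _ _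
  constructor
  · intro h c z v hh hc
    have hw : 0 < ‖h z‖ ^ 2 + c := by positivity
    have h1 := spComp E ℂ h (fun w : ℂ => 1 * Real.log (‖w‖ ^ 2 + c)) z v hh
      (l2_contDiffAt_log 1 c hw)
    simp only [one_mul] at h1
    have h2 := l2_levi_log 1 c hw (fderiv ℂ h z v)
    simp only [one_mul] at h2
    rw [h1, h2]
    positivity
  · intro h z v hh hz
    have hw : 0 < ‖h z‖ ^ 2 + 0 := by
      have := norm_pos_iff.mpr hz
      positivity
    have h1 := spComp E ℂ h (fun w : ℂ => 1 / 2 * Real.log (‖w‖ ^ 2 + 0)) z v hh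
      (l2_contDiffAt_log (1 / 2) 0 hw)
    have h2 := l2_levi_log (1 / 2) 0 hw (fderiv ℂ h z v)
    have h3 : (fun w => Real.log ‖h w‖) = fun w => 1 / 2 * Real.log (‖h w‖ ^ 2 + 0) := by
      funext w
      rw [add_zero, Real.log_pow]
      push_cast
      ring
    rw [h3, h1, h2]
    ring

end Pool.Agent.H35.CR
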