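import Pool.Agent.H35.CR.Spec

/-!
# Project CR, row L3: strictness is an open condition; the square of the norm
-/

set_option autoImplicit false

open Complex Set
open scoped ContDiff Topology

namespace Pool.Agent.H35.CR

theorem l3_levi_smul {E : Type} [NormedAddCommGroup E] [NormedSpace ℂ E] (u : E → ℝ) (w v : E)
    (c : ℝ) : levi u w (c • v) = c ^ 2 * levi u w v := by
  unfold levi
  rw [smul_comm I c v]
  simp only [map_smul, smul_apply, smul_eq_mul]
  ring

theorem l3_cont {E : Type} [NormedAddCommGroup E] [NormedSpace ℂ E] (u : E → ℝ) (z : E)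
    (hu : ContDiffAt ℝ 2 u z) : ContinuousAt (fderiv ℝ (fderiv ℝ u)) z := by
  have h1 : ContDiffAt ℝ 1 (fderiv ℝ u) z := hu.fderiv_right (m := 1) (by norm_num)
  have h2 : ContDiffAt ℝ 0 (fderiv ℝ (fderiv ℝ u)) z := h1.fderiv_right (m := 0) (by norm_num)
  exact h2.continuousAt

theorem spOpen : SpOpen := by
  intro E _ _ _ u z hu hs
  have hfin : FiniteDimensional ℝ E := FiniteDimensional.complexToReal E
  have hprop : ProperSpace E := FiniteDimensional.proper ℝ E
  have hB := l3_cont u z hu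
  have hcS : IsCompact (Metric.sphere (0 : E) 1) := isCompact_sphere 0 1
  obtain ⟨m, hm, hmS⟩ : ∃ m : ℝ, 0 < m ∧ ∀ v ∈ Metric.sphere (0 : E) 1, m ≤ levi u z v := by
    rcases (Metric.sphere (0 : E) 1).eq_empty_or_nonempty with h | h
    · exact ⟨1, one_pos, by rw [h]; intro v hv; exact absurd hv (Set.notMem_empty v)⟩
    · have hc : ContinuousOn (fun v => levi u z v) (Metric.sphere (0 : E) 1) := by
        apply Continuous.continuousOn
        unfold levi
        fun_prop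
      obtain ⟨v0, hv0, hmin⟩ := hcS.exists_isMinOn h hc
      refine ⟨levi u z v0, hs v0 ?_, fun v hv => hmin hv⟩
      intro h0
      rw [h0] at hv0
      simp at hv0
  obtain ⟨δ, hδ, hd⟩ := (Metric.continuousAt_iff (α := E) (β := E →L[ℝ] E →L[ℝ] ℝ)
    (f := fderiv ℝ (fderiv ℝ u)) (a := z)).1 hB (m / 2) (by positivity)
  filter_upwards [Metric.ball_mem_nhds z hδ] with w hw
  have hw1 : ‖fderiv ℝ (fderiv ℝ u) w - fderiv ℝ (fderiv ℝ u) z‖ < m / 2 := by
    have h0 := hd hw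
    exact (dist_eq_norm (fderiv ℝ (fderiv ℝ u) w) (fderiv ℝ (fderiv ℝ u) z)).symm.trans_lt h0
  have key : ∀ v ∈ Metric.sphere (0 : E) 1, 0 < levi u w v := by
    intro v hv
    have hv1 : ‖v‖ = 1 := by simpa using hv
    have hv2 : ‖I • v‖ = 1 := by rw [norm_smul, Complex.norm_I, one_mul, hv1]
    have e1 : ∀ x : E, ‖x‖ = 1 → |fderiv ℝ (fderiv ℝ u) w x x - fderiv ℝ (fderiv ℝ u) z x x|
        < m / 2 := by
      intro x hx
      have h1 := (fderiv ℝ (fderiv ℝ u) w - fderiv ℝ (fderiv ℝ u) z).le_opNorm₂ x x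
      rw [hx, mul_one, mul_one] at h1
      exact lt_of_le_of_lt h1 hw1
    have h1 := e1 v hv1
    have h2 := e1 (I • v) hv2
    have h3 := hmS v hv
    unfold levi at h3 ⊢
    rw [abs_lt] at h1 h2
    linarith [h1.1, h2.1]
  intro v hv
  have hn : 0 < ‖v‖ := norm_pos_iff.2 hv
  have h1 : v = ‖v‖ • (‖v‖⁻¹ • v) := by
    rw [smul_smul, mul_inv_cancel₀ hn.ne', one_smul]
  rw [h1, l3_levi_smul]
  apply mul_pos (by positivity)
  apply key
  simp [norm_smul, hn.ne']

theorem spNormSq : SpNormSq := by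
  intro E _ _ z v
  refine ⟨(contDiff_norm_sq ℂ).contDiffAt, ?_⟩
  let _ : InnerProductSpace ℝ E := InnerProductSpace.complexToReal
  have h1 : fderiv ℝ (fun w : E => ‖w‖ ^ 2) = fun w => (2 : ℝ) • innerSL ℝ w := by
    funext w
    exact (hasStrictFDerivAt_norm_sq w).hasFDerivAt.fderiv.trans (by
      ext x; simp [two_smul])
  have h2 : ∀ x : E, fderiv ℝ (fderiv ℝ (fun w : E => ‖w‖ ^ 2)) z x x = 2 * ‖x‖ ^ 2 := by
    intro x
    rw [h1]
    have h3 : HasFDerivAt (fun w : E => (2 : ℝ) • innerSL ℝ w)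
        ((2 : ℝ) • (innerSL ℝ : E →L[ℝ] E →L[ℝ] ℝ)) z :=
      ((innerSL ℝ : E →L[ℝ] E →L[ℝ] ℝ).hasFDerivAt).const_smul (2 : ℝ)
    rw [h3.fderiv]
    simp only [smul_apply, smul_eq_mul]
    rw [innerSL_apply_apply, real_inner_self_eq_norm_sq]
  unfold levi
  rw [h2, h2, norm_smul, Complex.norm_I, one_mul]
  ring

end Pool.Agent.H35.CR
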