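import Pool.Agent.H35.CR.Spec

/-!
# Project CR (MP_d5c4e7_an): row C8, assembly of part C
-/

set_option autoImplicit false

open Complex Set Polynomial
open scoped ContDiff Topology

namespace Pool.Agent.H35.CR

theorem c8_ev_sub (F G : PP) (p : C2) : ev (F - G) p = ev F p - ev G p := by
  simp [ev, sp]

theorem c8_ev_mul (F G : PP) (p : C2) : ev (F * G) p = ev F p * ev G p := by
  simp [ev, sp]

theorem c8_ev_pow (F : PP) (n : ℕ) (p : C2) : ev (F ^ n) p = ev F p ^ n := by
  simp [ev, sp]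

theorem c8_ev_CC (c : ℂ) (p : C2) : ev (Polynomial.C (Polynomial.C c)) p = c := by
  simp [ev, sp]

theorem c8_ev_X (p : C2) : ev Polynomial.X p = p 1 := by
  simp [ev, sp]

theorem c8_nice_sub {Q : PP} (c : ℂ) (h : Nice Q) :
    Nice (Q - Polynomial.C (Polynomial.C c)) := by
  obtain ⟨d, hd, hl, hn⟩ := h
  refine ⟨d, hd, ?_, ?_⟩
  · rw [← hl]
    apply Polynomial.leadingCoeff_sub_of_degree_lt
    have h1 : (Polynomial.C (Polynomial.C c) : PP).degree ≤ 0 := Polynomial.degree_C_le
    have h2 : (0 : WithBot ℕ) < Q.degree := Polynomial.natDegree_pos_iff_degree_pos.mp hn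
    exact lt_of_le_of_lt h1 h2
  · rw [Polynomial.natDegree_sub_C]
    exact hn

/-- evaluation of a polynomial with coefficients in `ℂ[x]` is smooth -/
theorem c8_ev_contDiff (F : PP) : ContDiff ℂ ∞ (fun p : C2 => ev F p) := by
  induction F using Polynomial.induction_on' with
  | add F G hF hG =>
    have : (fun p : C2 => ev (F + G) p) = fun p => ev F p + ev G p := by
      funext p; simp [ev, sp]
    rw [this]
    exact hF.add hG
  | monomial n a =>
    have : (fun p : C2 => ev (Polynomial.monomial n a) p) =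
        fun p => a.eval (p 0) * (p 1) ^ n := by
      funext p; simp [ev, sp]
    rw [this]
    have h0 : ContDiff ℂ ∞ (fun p : C2 => p 0) := by fun_prop
    have h1 : ContDiff ℂ ∞ (fun p : C2 => p 1) := by fun_prop
    have ha : ContDiff ℂ ∞ (fun x : ℂ => a.eval x) := by
      exact a.differentiable.contDiff
    exact (ha.comp h0).mul (h1.pow n)

theorem c8_hh_contDiff (T : PP) (n N : ℕ) : ContDiff ℂ ∞ (hh T n N) := by
  have h1 := c8_ev_contDiff T
  have h2 : ContDiff ℂ ∞ (fun p : C2 => fm n p) := by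
    have := c8_ev_contDiff (zc n)
    unfold fm
    exact this.div_const _
  exact h1.mul (h2.pow N)

theorem c8_wn_aux (T : PP) (n N : ℕ) (z : C2) :
    ContDiffAt ℝ ∞ (fun p => Real.log (‖hh T n N p‖ ^ 2 + (1 / 16) ^ N / 2)) z := by
  have h1 : ContDiffAt ℝ ∞ (hh T n N) z := (c8_hh_contDiff T n N).contDiffAt.restrict_scalars ℝ
  have h2 : ContDiffAt ℝ ∞ (fun p => ‖hh T n N p‖ ^ 2 + (1 / 16 : ℝ) ^ N / 2) z :=
    (h1.norm_sq ℂ).add contDiffAt_const
  exact h2.log (by positivity)

theorem spW (hD : DmProps) (hS : SpSeqs) (hL : SpLim) (hW : SpWn) (hDe : SpDense)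
    (hG : SpLogC) (hC : SpLC) : SpW := by
  obtain ⟨a, r, hr, hdense⟩ := hDe
  obtain ⟨Q, T, N, c, hseq⟩ := hS a r hr
  obtain ⟨W, hlim⟩ := hL a r Q T N c hseq
  obtain ⟨hu, hl, hd⟩ := hW a r Q T N c W hseq hlim
  refine ⟨W, fun n => Q n - Polynomial.C (Polynomial.C (c n)), wn T N, ?_⟩
  refine
    { diff := hlim.diff
      nice := fun n => c8_nice_sub (c n) (hseq.niceQ n)
      sep := hseq.sep
      unit := ?_
      dense := hdense Q T N c W hseq hlim
      axis := ?_
      smooth := ?_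
      levi_nonneg := ?_
      upper := hu
      lower := hl
      deep := hd }
  · intro n p hp
    obtain ⟨G, hG'⟩ := hseq.T_dvd n
    have hT : ev (T n) p = 0 := by
      rw [hG', c8_ev_mul, hp, zero_mul]
    rw [hlim.eq n p hT]
    rw [c8_ev_sub, c8_ev_CC, sub_eq_zero] at hp
    rw [hp]
    exact hseq.c_norm n
  · intro t ht
    have h := hlim.near 0 _ (hD.axis t ht)
    rw [hseq.zero, c8_ev_X] at h
    simpa using h
  · intro m z
    exact (c8_wn_aux (T (m - 1)) m (N m) z).const_smul (1 / (2 * N m) : ℝ)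
  · intro m z v
    have h1 := (c8_wn_aux (T (m - 1)) m (N m) z).of_le (show (2 : WithTop ℕ∞) ≤ ∞ by norm_cast)
    have h2 := (hC C2).const_mul (1 / (2 * N m) : ℝ) v h1
    have h3 : levi (wn T N m) z v = 1 / (2 * N m) *
        levi (fun p => Real.log (‖hh (T (m - 1)) m (N m) p‖ ^ 2 + (1 / 16) ^ (N m) / 2)) z v := h2
    rw [h3]
    refine mul_nonneg (by positivity) ?_
    exact (hG C2).log_sq (hh (T (m - 1)) m (N m)) ((1 / 16) ^ (N m) / 2) z v
      ((c8_hh_contDiff _ _ _).contDiffAt.of_le (by norm_cast)) (by positivity)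

end Pool.Agent.H35.CR
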