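import Pool.Agent.H35.CR.Spec
import Pool.Agent.H35.CR.WW

/-!
# Project CR (MP_d5c4e7_an): row C5, the limit function
-/

set_option autoImplicit false

open Complex Set Polynomial
open scoped ContDiff Topology

namespace Pool.Agent.H35.CR

theorem c5_ev_add (F G : PP) (p : C2) : ev (F + G) p = ev F p + ev G p := by
  simp [ev, sp]

theorem c5_ev_hP (T : PP) (n N : ℕ) (p : C2) : ev (hP T n N) p = hh T n N p := by
  unfold hP hh fm
  rw [c8_ev_mul, c8_ev_pow, c8_ev_mul, c8_ev_CC]
  congr 2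
  rw [one_div, inv_pow]
  ring

section

variable {a : ℕ → C2} {r : ℕ → ℝ} {Q T : ℕ → PP} {N : ℕ → ℕ} {c : ℕ → ℂ}

theorem c5_Q (h : Seqs a r Q T N c) (k : ℕ) (p : C2) :
    ev (Q k) p = ev (Q 0) p + ∑ n ∈ Finset.range k, hh (T n) (n + 1) (N (n + 1)) p := by
  induction k with
  | zero => simp
  | succ k ih =>
    rw [h.succ k, c5_ev_add, c5_ev_hP, Finset.sum_range_succ, ih]
    ring

theorem c5_mono (hD : DmProps) (k n : ℕ) : Dm k ⊆ Dm (n + k) := by
  induction n with
  | zero => simp
  | succ n ih =>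
    have := hD.subset (n + k)
    have h2 : n + 1 + k = n + k + 1 := by ring
    rw [h2]
    exact ih.trans this

theorem c5_bound (hD : DmProps) (h : Seqs a r Q T N c) (k n : ℕ) (p : C2) (hp : p ∈ Dm k) :
    ‖hh (T (n + k)) (n + k + 1) (N (n + k + 1)) p‖ ≤ (1 / 2) ^ (n + k + 1) / 100 := by
  have h1 := (h.est (n + k)).small p
  rw [Nat.add_sub_cancel] at h1
  exact h1 (c5_mono hD k n hp)

theorem c5_geom (k : ℕ) : HasSum (fun n : ℕ => (1 / 2 : ℝ) ^ (n + k + 1) / 100)
    ((1 / 2) ^ k / 100) := by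
  have h := (hasSum_geometric_two).mul_left ((1 / 2 : ℝ) ^ (k + 1) / 100)
  have e1 : (1 / 2 : ℝ) ^ (k + 1) / 100 * 2 = (1 / 2) ^ k / 100 := by
    rw [pow_succ]; ring
  rw [e1] at h
  refine h.congr_fun ?_
  intro n
  rw [show n + k + 1 = n + (k + 1) by ring, pow_add (1 / 2 : ℝ) n (k + 1)]
  ring

theorem c5_summable (hD : DmProps) (h : Seqs a r Q T N c) (p : C2) :
    Summable (fun n => hh (T n) (n + 1) (N (n + 1)) p) := by
  obtain ⟨k, hk⟩ := hD.exhaust ‖p‖
  have hp : p ∈ Dm k := hk k le_rfl p le_rfl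
  rw [← summable_nat_add_iff k]
  exact Summable.of_norm_bounded (c5_geom k).summable (fun n => c5_bound hD h k n p hp)

theorem c5_W (hD : DmProps) (h : Seqs a r Q T N c) (k : ℕ) (p : C2) :
    ev (Q 0) p + ∑' n, hh (T n) (n + 1) (N (n + 1)) p =
      ev (Q k) p + ∑' n, hh (T (n + k)) (n + k + 1) (N (n + k + 1)) p := by
  rw [c5_Q h k p, ← (c5_summable hD h p).sum_add_tsum_nat_add k]
  ring

end

theorem spLim (hD : DmProps) : SpLim := by
  intro a r Q T N c h
  refine ⟨fun p => ev (Q 0) p + ∑' n, hh (T n) (n + 1) (N (n + 1)) p, ?_, ?_, ?_⟩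
  · intro p
    obtain ⟨k, hk⟩ := hD.exhaust (‖p‖ + 1)
    have hs : ∀ x ∈ Metric.ball (0 : C2) (‖p‖ + 1), x ∈ Dm k := by
      intro x hx
      refine hk k le_rfl x ?_
      rw [mem_ball_zero_iff] at hx
      exact hx.le
    have hpb : p ∈ Metric.ball (0 : C2) (‖p‖ + 1) := by
      rw [mem_ball_zero_iff]; linarith
    have hder : ∀ (n : ℕ) (x : C2), x ∈ Metric.ball (0 : C2) (‖p‖ + 1) →
        HasFDerivAt (hh (T (n + k)) (n + k + 1) (N (n + k + 1)))
          (fderiv ℂ (hh (T (n + k)) (n + k + 1) (N (n + k + 1))) x) x := by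
      intro n x _
      exact ((c8_hh_contDiff (T (n + k)) (n + k + 1) (N (n + k + 1))).differentiable
        (by simp)).differentiableAt.hasFDerivAt
    have hbd : ∀ (n : ℕ) (x : C2), x ∈ Metric.ball (0 : C2) (‖p‖ + 1) →
        ‖fderiv ℂ (hh (T (n + k)) (n + k + 1) (N (n + k + 1))) x‖ ≤ (1 / 2 : ℝ) ^ (n + k + 1) := by
      intro n x hx
      have h1 := (h.est (n + k)).deriv x
      rw [Nat.add_sub_cancel] at h1
      exact h1 (c5_mono hD k n (hs x hx))
    have hu : Summable (fun n : ℕ => (1 / 2 : ℝ) ^ (n + k + 1)) := by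
      have := (c5_geom k).summable.mul_right 100
      refine this.congr ?_
      intro n
      ring
    have hs0 : Summable (fun n : ℕ => hh (T (n + k)) (n + k + 1) (N (n + k + 1)) p) := by
      have := c5_summable hD h p
      exact (summable_nat_add_iff k).mpr this
    have key := hasFDerivAt_tsum_of_isPreconnected hu Metric.isOpen_ball
      (convex_ball (0 : C2) (‖p‖ + 1)).isPreconnected hder hbd hpb hs0 hpb
    have hfun : (fun q => ev (Q 0) q + ∑' n, hh (T n) (n + 1) (N (n + 1)) q) =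
        fun q => ev (Q k) q + ∑' n, hh (T (n + k)) (n + k + 1) (N (n + k + 1)) q := by
      funext q
      exact c5_W hD h k q
    rw [hfun]
    exact (((c8_ev_contDiff (Q k)).differentiable (by simp)).differentiableAt).add
      key.differentiableAt
  · intro n p hp
    rw [c5_W hD h n p, add_sub_cancel_left]
    exact tsum_of_norm_bounded (c5_geom n) (fun i => c5_bound hD h n i p hp)
  · intro n p hp
    rw [c5_W hD h n p]
    have hz : ∀ i, hh (T (i + n)) (i + n + 1) (N (i + n + 1)) p = 0 := by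
      intro i
      have hdvd : T n ∣ T (i + n) := by
        induction i with
        | zero => simp
        | succ i ih =>
          have h2 : i + 1 + n = i + n + 1 := by ring
          rw [h2]
          exact ih.trans (h.T_dvd' (i + n))
      obtain ⟨G, hG⟩ := hdvd
      have : ev (T (i + n)) p = 0 := by rw [hG, c8_ev_mul, hp, zero_mul]
      unfold hh
      rw [this, zero_mul]
    simp [hz]

end Pool.Agent.H35.CR
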