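import Pool.Agent.H35.CR.Spec

/-!
# Project CR, row B2: subharmonic functions on the plane minus a finite set, bounded above
-/

set_option autoImplicit false

open Complex Set
open scoped ContDiff Topology

namespace Pool.Agent.H35.CR

/-- the square of the distance from a point -/
noncomputable def b2_q (a : ℂ) (w : ℂ) : ℝ := ‖w + a‖ ^ 2

theorem b2_q_contDiff (a : ℂ) {n : WithTop ℕ∞} : ContDiff ℝ n (b2_q a) := by
  unfold b2_q
  exact (contDiff_norm_sq ℝ).comp (contDiff_id.add contDiff_const)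

theorem b2_q_fderiv (a : ℂ) : fderiv ℝ (b2_q a) = fun w => (2 : ℝ) • innerSL ℝ (w + a) := by
  have h1 : ∀ w : ℂ, fderiv ℝ (fun w : ℂ => ‖w‖ ^ 2) w = (2 : ℝ) • innerSL ℝ w := by
    intro w
    exact (hasStrictFDerivAt_norm_sq w).hasFDerivAt.fderiv.trans (by
      ext x
      simp [two_smul])
  funext w
  have h2 : fderiv ℝ (b2_q a) w = fderiv ℝ (fun w : ℂ => ‖w‖ ^ 2) (w + a) :=
    fderiv_comp_add_right (f := fun w : ℂ => ‖w‖ ^ 2) a
  rw [h2, h1]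

theorem b2_q_fderiv2 (a z v : ℂ) : fderiv ℝ (fderiv ℝ (b2_q a)) z v v = 2 * ‖v‖ ^ 2 := by
  rw [b2_q_fderiv]
  have h3 : HasFDerivAt (fun w : ℂ => (2 : ℝ) • innerSL ℝ (w + a))
      ((2 : ℝ) • (innerSL ℝ : ℂ →L[ℝ] ℂ →L[ℝ] ℝ)) z := by
    have h4 : HasFDerivAt (fun w : ℂ => innerSL ℝ (w + a))
        (innerSL ℝ : ℂ →L[ℝ] ℂ →L[ℝ] ℝ) z := by
      have h5 : HasFDerivAt (fun w : ℂ => w + a) (ContinuousLinearMap.id ℝ ℂ) z :=
        (hasFDerivAt_id z).add_const a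
      have h6 := ((innerSL ℝ : ℂ →L[ℝ] ℂ →L[ℝ] ℝ).hasFDerivAt (x := z + a)).comp z h5
      exact h6
    exact h4.const_smul (2 : ℝ)
  rw [h3.fderiv]
  show (2 : ℝ) • (innerSL ℝ v v) = _
  rw [smul_eq_mul, innerSL_apply_apply, real_inner_self_eq_norm_sq]

theorem b2_q_levi (a z : ℂ) : levi (b2_q a) z 1 = 4 := by
  unfold levi
  rw [b2_q_fderiv2, b2_q_fderiv2, norm_smul, Complex.norm_I, norm_one]
  norm_num

theorem b2_q_grad (a z : ℂ) : (fderiv ℝ (b2_q a) z 1) ^ 2 +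
    (fderiv ℝ (b2_q a) z (I • (1 : ℂ))) ^ 2 = 4 * b2_q a z := by
  rw [b2_q_fderiv]
  show ((2 : ℝ) • (innerSL ℝ (z + a) 1)) ^ 2 + ((2 : ℝ) • (innerSL ℝ (z + a) (I • (1 : ℂ)))) ^ 2 = _
  rw [innerSL_apply_apply, innerSL_apply_apply, Complex.inner, Complex.inner, b2_q,
    ← Complex.normSq_eq_norm_sq, Complex.normSq_apply]
  simp
  ring

/-- the Levi form of a function of `‖w + a‖²` -/
theorem b2_levi_comp (hL : LC ℂ) (g : ℝ → ℝ) (a z : ℂ) (hg : ContDiffAt ℝ 2 g (b2_q a z)) :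
    levi (fun w => g (b2_q a w)) z 1 =
      4 * deriv g (b2_q a z) + 4 * b2_q a z * deriv (deriv g) (b2_q a z) := by
  rw [hL.comp_real 1 hg (b2_q_contDiff a).contDiffAt, b2_q_levi, b2_q_grad]
  ring

/-- logarithm of the square of the distance -/
noncomputable def b2_lg (z : ℂ) (x : ℂ) : ℝ := Real.log (b2_q (-z) x)

theorem b2_q_pos {z x : ℂ} (h : x ≠ z) : 0 < b2_q (-z) x := by
  unfold b2_q
  have : x + -z ≠ 0 := by
    intro h1
    exact h (by linear_combination h1)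
  exact pow_pos (norm_pos_iff.2 this) 2

theorem b2_lg_contDiff {z x : ℂ} (h : x ≠ z) : ContDiffAt ℝ 2 (b2_lg z) x :=
  (b2_q_contDiff (-z)).contDiffAt.log (b2_q_pos h).ne'

theorem b2_lg_levi (hL : LC ℂ) {z x : ℂ} (h : x ≠ z) : levi (b2_lg z) x 1 = 0 := by
  have hp := b2_q_pos h
  have h1 := b2_levi_comp hL Real.log (-z) x (Real.contDiffAt_log.2 hp.ne')
  have h2 : levi (b2_lg z) x 1 = levi (fun w => Real.log (b2_q (-z) w)) x 1 := rfl
  rw [h2, h1, Real.deriv_log', deriv_inv]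
  field_simp
  ring

/-- `log (1 + |x|²)` -/
noncomputable def b2_L (x : ℂ) : ℝ := Real.log (1 + b2_q 0 x)

theorem b2_q_nonneg (a x : ℂ) : 0 ≤ b2_q a x := by unfold b2_q; positivity

theorem b2_L_contDiff (x : ℂ) : ContDiffAt ℝ 2 b2_L x := by
  have h := b2_q_nonneg 0 x
  exact (contDiffAt_const.add (b2_q_contDiff 0).contDiffAt).log (by positivity)

theorem b2_L_nonneg (x : ℂ) : 0 ≤ b2_L x :=
  Real.log_nonneg (by linarith [b2_q_nonneg 0 x])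

theorem b2_L_levi (hL : LC ℂ) (x : ℂ) : 0 < levi b2_L x 1 := by
  have hp := b2_q_nonneg 0 x
  set g : ℝ → ℝ := fun s => Real.log (1 + s) with hg
  have hd : deriv g = fun s => (1 + s)⁻¹ := by
    funext s
    rw [hg, deriv_comp_const_add (f := Real.log) 1 s, Real.deriv_log]
  have hdd : deriv (deriv g) = fun s => -((1 + s) ^ 2)⁻¹ := by
    rw [hd]
    funext s
    rw [deriv_comp_const_add (f := fun t : ℝ => t⁻¹) 1 s, deriv_inv]
  have hgc : ContDiffAt ℝ 2 g (b2_q 0 x) :=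
    (contDiffAt_const.add contDiffAt_id).log (by
      show 1 + b2_q 0 x ≠ 0
      positivity)
  have h1 := b2_levi_comp hL g 0 x hgc
  have h2 : levi b2_L x 1 = levi (fun w => g (b2_q 0 w)) x 1 := rfl
  rw [h2, h1, hdd, hd]
  have h3 : 4 * (1 + b2_q 0 x)⁻¹ + 4 * b2_q 0 x * -((1 + b2_q 0 x) ^ 2)⁻¹ =
      4 / (1 + b2_q 0 x) ^ 2 := by
    have : 1 + b2_q 0 x ≠ 0 := by positivity
    field_simp
    ring
  show 0 < 4 * (1 + b2_q 0 x)⁻¹ + 4 * b2_q 0 x * -((1 + b2_q 0 x) ^ 2)⁻¹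
  rw [h3]
  positivity

/-- sums of logarithms -/
theorem b2_sum (hL : LC ℂ) (s : Finset ℂ) (x : ℂ) (hx : x ∉ s) :
    ContDiffAt ℝ 2 (fun w => ∑ z ∈ s, b2_lg z w) x ∧
      levi (fun w => ∑ z ∈ s, b2_lg z w) x 1 = 0 := by
  classical
  induction s using Finset.induction_on with
  | empty =>
    refine ⟨by simpa using contDiffAt_const, ?_⟩
    simpa using hL.const 0 x 1
  | insert a s ha ih =>
    have hxa : x ≠ a := fun h => hx (by rw [h]; exact Finset.mem_insert_self a s)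
    have hxs : x ∉ s := fun h => hx (Finset.mem_insert_of_mem h)
    obtain ⟨h1, h2⟩ := ih hxs
    have e : (fun w => ∑ z ∈ insert a s, b2_lg z w) =
        fun w => b2_lg a w + (fun w => ∑ z ∈ s, b2_lg z w) w := by
      funext w
      rw [Finset.sum_insert ha]
    rw [e]
    refine ⟨(b2_lg_contDiff hxa).add h1, ?_⟩
    rw [hL.add 1 (b2_lg_contDiff hxa) h1, b2_lg_levi hL hxa, h2, add_zero]

/-- upper bound of a logarithm -/
theorem b2_lg_le {z x : ℂ} (h : x ≠ z) :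
    b2_lg z x ≤ Real.log (2 * (1 + ‖z‖ ^ 2)) + b2_L x := by
  unfold b2_lg b2_L
  rw [← Real.log_mul (by positivity) (by have := b2_q_nonneg 0 x; positivity)]
  refine Real.log_le_log (b2_q_pos h) ?_
  unfold b2_q
  have h1 : ‖x + -z‖ ≤ ‖x‖ + ‖z‖ := by
    calc ‖x + -z‖ ≤ ‖x‖ + ‖-z‖ := norm_add_le _ _
      _ = ‖x‖ + ‖z‖ := by rw [norm_neg]
  have h2 : ‖x + -z‖ ^ 2 ≤ (‖x‖ + ‖z‖) ^ 2 := pow_le_pow_left₀ (norm_nonneg _) h1 2
  rw [add_zero]
  nlinarith [sq_nonneg (‖x‖ - ‖z‖), sq_nonneg (‖x‖ * ‖z‖), norm_nonneg x, norm_nonneg z]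

/-- lower bound of a logarithm -/
theorem b2_lg_ge {x₁ x : ℂ} {r : ℝ} (hr : 0 < r) (h : r ≤ ‖x + -x₁‖) :
    b2_L x - Real.log (2 + (1 + 2 * ‖x₁‖ ^ 2) / r ^ 2) ≤ b2_lg x₁ x := by
  unfold b2_lg b2_L
  have hC : 0 < 2 + (1 + 2 * ‖x₁‖ ^ 2) / r ^ 2 := by positivity
  have hq : 0 < b2_q (-x₁) x := by
    unfold b2_q
    exact pow_pos (lt_of_lt_of_le hr h) 2
  rw [sub_le_iff_le_add, ← Real.log_mul hq.ne' hC.ne']
  refine Real.log_le_log (by have := b2_q_nonneg 0 x; positivity) ?_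
  unfold b2_q
  rw [add_zero]
  have h1 : ‖x‖ ≤ ‖x + -x₁‖ + ‖x₁‖ := by
    calc ‖x‖ = ‖(x + -x₁) + x₁‖ := by congr 1; ring
      _ ≤ _ := norm_add_le _ _
  set t := ‖x + -x₁‖ with ht
  have h2 : ‖x‖ ^ 2 ≤ (t + ‖x₁‖) ^ 2 := pow_le_pow_left₀ (norm_nonneg _) h1 2
  have h3 : r ^ 2 ≤ t ^ 2 := pow_le_pow_left₀ hr.le h 2
  have h4 : (1 + 2 * ‖x₁‖ ^ 2) ≤ t ^ 2 * ((1 + 2 * ‖x₁‖ ^ 2) / r ^ 2) := by
    rw [← mul_div_assoc, le_div_iff₀ (by positivity)]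
    nlinarith [mul_le_mul_of_nonneg_left h3 (show (0:ℝ) ≤ 1 + 2 * ‖x₁‖ ^ 2 by positivity)]
  nlinarith [sq_nonneg (t - ‖x₁‖)]

/-- the comparison inequality -/
theorem b2_comp (hL : LC ℂ) {Z : Set ℂ} {U : ℂ → ℝ} {M : ℝ} (hZ : Z.Finite)
    (hU : ∀ x ∉ Z, ContDiffAt ℝ 2 U x) (hl : ∀ x ∉ Z, 0 ≤ levi U x 1) (hM : ∀ x ∉ Z, U x ≤ M)
    {x₁ x₀ : ℂ} {r m C ε : ℝ} (hr : 0 < r) (hx₀ : x₀ ∉ Z) (hx₀r : r ≤ ‖x₀ + -x₁‖)
    (hm : ∀ x ∉ Z, ‖x + -x₁‖ = r → U x ≤ m)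
    (hC : ∀ x ∉ Z, ‖x + -x₁‖ = r → ∑ z ∈ hZ.toFinset, b2_lg z x + b2_L x ≤ C) (hε : 0 < ε) :
    U x₀ ≤ m + ε * ((b2_lg x₁ x₀ - Real.log (r ^ 2)) + (C -
      (∑ z ∈ hZ.toFinset, b2_lg z x₀ + b2_L x₀)) / (hZ.toFinset.card + 2)) := by
  classical
  set s := hZ.toFinset with hs
  have hmem : ∀ x, x ∈ s ↔ x ∈ Z := fun x => hZ.mem_toFinset
  set k : ℝ := (s.card : ℝ) with hk
  have hk0 : 0 ≤ k := Nat.cast_nonneg _
  set ε' : ℝ := ε / (k + 2) with hε'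
  have hε'0 : 0 < ε' := by positivity
  have hεk : ε' * (k + 2) = ε := by rw [hε']; field_simp
  set H : ℂ → ℝ := fun x => ∑ z ∈ s, b2_lg z x + b2_L x with hH
  set Φ : ℂ → ℝ := fun x => U x + ((-ε) * b2_lg x₁ x + ε' * H x) with hΦ
  by_contra hcon
  rw [not_le] at hcon
  -- the value at the point
  have ht : m - ε * Real.log (r ^ 2) + ε' * C < Φ x₀ := by
    have e : ε * ((b2_lg x₁ x₀ - Real.log (r ^ 2)) + (C - H x₀) / (k + 2)) =
        ε * (b2_lg x₁ x₀ - Real.log (r ^ 2)) + ε' * (C - H x₀) := by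
      rw [hε']; field_simp
    have hcon' : m + (ε * (b2_lg x₁ x₀ - Real.log (r ^ 2)) + ε' * (C - H x₀)) < U x₀ := by
      rw [← e]; exact hcon
    show _ < U x₀ + ((-ε) * b2_lg x₁ x₀ + ε' * H x₀)
    nlinarith [hcon']
  set t := Φ x₀ with htdef
  -- constants
  set C₁ : ℝ := Real.log (2 + (1 + 2 * ‖x₁‖ ^ 2) / r ^ 2) with hC₁
  set Cz : ℂ → ℝ := fun z => Real.log (2 * (1 + ‖z‖ ^ 2)) with hCz
  have hCz0 : ∀ z, 0 ≤ Cz z := fun z => Real.log_nonneg (by nlinarith [sq_nonneg ‖z‖])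
  set M' : ℝ := M + ε * C₁ + ε' * ∑ z ∈ s, Cz z with hM'
  -- upper bounds in the region
  have hup : ∀ x ∉ Z, r ≤ ‖x + -x₁‖ → Φ x ≤ M' - ε' * b2_L x := by
    intro x hx hxr
    have h1 : ∑ z ∈ s, b2_lg z x ≤ ∑ z ∈ s, (Cz z + b2_L x) :=
      Finset.sum_le_sum fun z hz => b2_lg_le fun h => hx (h ▸ (hmem z).1 hz)
    rw [Finset.sum_add_distrib, Finset.sum_const, nsmul_eq_mul] at h1
    have h2 := b2_lg_ge (x₁ := x₁) hr hxr
    have h3 := hM x hx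
    have h4 : ε * b2_L x - ε * C₁ ≤ ε * b2_lg x₁ x := by
      rw [← mul_sub]; exact mul_le_mul_of_nonneg_left h2 hε.le
    have h5 : ε' * H x ≤ ε' * (∑ z ∈ s, Cz z + k * b2_L x + b2_L x) :=
      mul_le_mul_of_nonneg_left (by show _ + _ ≤ _; linarith) hε'0.le
    show U x + ((-ε) * b2_lg x₁ x + ε' * H x) ≤ _
    have h6 : ε * b2_L x = ε' * (k + 2) * b2_L x := by rw [hεk]
    rw [hM']
    nlinarith [h3, h4, h5, h6]
  have hup2 : ∀ x ∉ Z, r ≤ ‖x + -x₁‖ → ∀ z ∈ s, Φ x ≤ M' + ε' * b2_lg z x := by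
    intro x hx hxr z₀ hz₀
    have h1 : ∑ z ∈ s.erase z₀, b2_lg z x ≤ ∑ z ∈ s.erase z₀, (Cz z + b2_L x) :=
      Finset.sum_le_sum fun z hz =>
        b2_lg_le fun h => hx (h ▸ (hmem z).1 (Finset.mem_of_mem_erase hz))
    have h1' : ∑ z ∈ s, b2_lg z x ≤ b2_lg z₀ x + ∑ z ∈ s.erase z₀, (Cz z + b2_L x) := by
      rw [← Finset.add_sum_erase s _ hz₀]
      linarith
    have h1'' : ∑ z ∈ s.erase z₀, (Cz z + b2_L x) ≤ ∑ z ∈ s, (Cz z + b2_L x) :=
      Finset.sum_le_sum_of_subset_of_nonneg (Finset.erase_subset _ _) fun z _ _ =>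
        add_nonneg (hCz0 z) (b2_L_nonneg x)
    have hs2 : ∑ z ∈ s, (Cz z + b2_L x) = ∑ z ∈ s, Cz z + k * b2_L x := by
      rw [Finset.sum_add_distrib, Finset.sum_const, nsmul_eq_mul]
    rw [hs2] at h1''
    have h2 := b2_lg_ge (x₁ := x₁) hr hxr
    have h3 := hM x hx
    have h4 : ε * b2_L x - ε * C₁ ≤ ε * b2_lg x₁ x := by
      rw [← mul_sub]; exact mul_le_mul_of_nonneg_left h2 hε.le
    have h5 : ε' * H x ≤ ε' * (b2_lg z₀ x + (∑ z ∈ s, Cz z + k * b2_L x) + b2_L x) :=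
      mul_le_mul_of_nonneg_left (by show _ + _ ≤ _; linarith) hε'0.le
    have h7 := mul_nonneg hε'0.le (b2_L_nonneg x)
    show U x + ((-ε) * b2_lg x₁ x + ε' * H x) ≤ _
    have h6 : ε * b2_L x = ε' * (k + 2) * b2_L x := by rw [hεk]
    rw [hM']
    nlinarith [h3, h4, h5, h6, h7]
  -- the compact set
  set K : Set ℂ := {x | r ≤ ‖x + -x₁‖ ∧ ‖x‖ ^ 2 ≤ Real.exp ((M' - t) / ε') ∧
    ∀ z ∈ s, Real.exp ((t - M') / ε') ≤ ‖x + -z‖ ^ 2} with hK
  have hKZ : ∀ x ∈ K, x ∉ Z := by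
    intro x hx hxZ
    have h1 := hx.2.2 x ((hmem x).2 hxZ)
    rw [add_neg_cancel, norm_zero] at h1
    have h2 := Real.exp_pos ((t - M') / ε')
    norm_num at h1
    linarith
  have hKc : IsCompact K := by
    refine Metric.isCompact_of_isClosed_isBounded ?_ ?_
    · have e : K = {x | r ≤ ‖x + -x₁‖} ∩ ({x | ‖x‖ ^ 2 ≤ Real.exp ((M' - t) / ε')} ∩
          ⋂ z ∈ s, {x | Real.exp ((t - M') / ε') ≤ ‖x + -z‖ ^ 2}) := by
        ext x
        simp only [hK, mem_ofPred_eq, mem_inter_iff, mem_iInter]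
      rw [e]
      refine (isClosed_le (by fun_prop) (by fun_prop)).inter
        ((isClosed_le (by fun_prop) (by fun_prop)).inter ?_)
      exact isClosed_biInter fun z _ => isClosed_le (by fun_prop) (by fun_prop)
    · refine (Metric.isBounded_closedBall (x := (0 : ℂ))
        (r := Real.sqrt (Real.exp ((M' - t) / ε')))).subset fun x hx => ?_
      rw [mem_closedBall_zero_iff]
      exact Real.le_sqrt_of_sq_le hx.2.1
  have hKin : ∀ x ∉ Z, r ≤ ‖x + -x₁‖ → t ≤ Φ x → x ∈ K := by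
    intro x hx hxr htx
    have h1 := htx.trans (hup x hx hxr)
    refine ⟨hxr, ?_, ?_⟩
    · have h2 : b2_L x ≤ (M' - t) / ε' := by
        rw [le_div_iff₀ hε'0]; linarith
      have h3 : 1 + b2_q 0 x ≤ Real.exp ((M' - t) / ε') := by
        have hp : 0 < 1 + b2_q 0 x := by have := b2_q_nonneg 0 x; positivity
        rw [← Real.exp_log hp]
        exact Real.exp_le_exp.2 h2
      unfold b2_q at h3
      rw [add_zero] at h3
      linarith
    · intro z hz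
      have h2 := htx.trans (hup2 x hx hxr z hz)
      have h3 : (t - M') / ε' ≤ b2_lg z x := by
        rw [div_le_iff₀ hε'0]; linarith
      have hxz : x ≠ z := fun h => hx (h ▸ (hmem z).1 hz)
      have h4 : Real.exp ((t - M') / ε') ≤ b2_q (-z) x := by
        rw [← Real.exp_log (b2_q_pos hxz)]
        exact Real.exp_le_exp.2 h3
      exact h4
  -- regularity of the comparison function
  have hreg : ∀ x ∉ Z, x ≠ x₁ → ContDiffAt ℝ 2 Φ x ∧ 0 < levi Φ x 1 := by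
    intro x hx hx1
    have hxs : x ∉ s := fun h => hx ((hmem x).1 h)
    obtain ⟨c1, c2⟩ := b2_sum hL s x hxs
    have c3 : ContDiffAt ℝ 2 H x := c1.add (b2_L_contDiff x)
    have c4 : levi H x 1 = levi b2_L x 1 := by
      have := hL.add 1 c1 (b2_L_contDiff x)
      rw [c2, zero_add] at this
      exact this
    have c5 : ContDiffAt ℝ 2 (fun w => ε' * H w) x := contDiffAt_const.mul c3
    have c6 : ContDiffAt ℝ 2 (fun w => (-ε) * b2_lg x₁ w) x :=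
      contDiffAt_const.mul (b2_lg_contDiff hx1)
    have c7 : ContDiffAt ℝ 2 (fun w => (-ε) * b2_lg x₁ w + ε' * H w) x := c6.add c5
    refine ⟨(hU x hx).add c7, ?_⟩
    have e1 := hL.add 1 (hU x hx) c7
    have e2 := hL.add 1 c6 c5
    have e3 := hL.const_mul (-ε) 1 (b2_lg_contDiff hx1)
    have e4 := hL.const_mul ε' 1 c3
    rw [e1, e2, e3, e4, b2_lg_levi hL hx1, c4]
    have h1 := hl x hx
    have h2 := mul_pos hε'0 (b2_L_levi hL x)
    linarith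
  have hne1 : ∀ x, r ≤ ‖x + -x₁‖ → x ≠ x₁ := by
    intro x hx h
    rw [h, add_neg_cancel, norm_zero] at hx
    linarith
  have hΦc : ContinuousOn Φ K := fun x hx =>
    ((hreg x (hKZ x hx) (hne1 x hx.1)).1.continuousAt).continuousWithinAt
  obtain ⟨y, hyK, hymax⟩ := hKc.exists_isMaxOn ⟨x₀, hKin x₀ hx₀ hx₀r le_rfl⟩ hΦc
  have hty : t ≤ Φ y := hymax (hKin x₀ hx₀ hx₀r le_rfl)
  have hyZ := hKZ y hyK
  have hyr : r < ‖y + -x₁‖ := by
    refine lt_of_le_of_ne hyK.1 fun h => ?_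
    have h1 := hm y hyZ h.symm
    have h2 := hC y hyZ h.symm
    have h3 : b2_lg x₁ y = Real.log (r ^ 2) := by
      unfold b2_lg b2_q
      rw [← h]
    have h4 : Φ y ≤ m - ε * Real.log (r ^ 2) + ε' * C := by
      show U y + ((-ε) * b2_lg x₁ y + ε' * H y) ≤ _
      rw [h3]
      have := mul_le_mul_of_nonneg_left h2 hε'0.le
      linarith
    linarith
  have hloc : IsLocalMax Φ y := by
    have hopen : IsOpen ({x : ℂ | r < ‖x + -x₁‖} ∩ Zᶜ) :=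
      (isOpen_lt (by fun_prop) (by fun_prop)).inter hZ.isClosed.isOpen_compl
    filter_upwards [hopen.mem_nhds ⟨hyr, hyZ⟩] with x hx
    by_cases hxK : x ∈ K
    · exact hymax hxK
    · by_contra hlt
      rw [not_le] at hlt
      exact hxK (hKin x hx.2 (le_of_lt hx.1) (hty.trans hlt.le))
  obtain ⟨d1, d2⟩ := hreg y hyZ (hne1 y hyK.1)
  exact absurd (hL.max_test 1 d1 hloc) (not_le.2 d2)

theorem b2_le (hL : LC ℂ) {Z : Set ℂ} {U : ℂ → ℝ} {M : ℝ} (hZ : Z.Finite)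
    (hU : ∀ x ∉ Z, ContDiffAt ℝ 2 U x) (hl : ∀ x ∉ Z, 0 ≤ levi U x 1) (hM : ∀ x ∉ Z, U x ≤ M)
    {x₁ x₀ : ℂ} (hx₁ : x₁ ∉ Z) (hx₀ : x₀ ∉ Z) : U x₀ ≤ U x₁ := by
  by_cases hne : x₀ = x₁
  · rw [hne]
  refine le_of_forall_pos_le_add fun η hη => ?_
  -- choice of the radius
  have h1 : ∀ᶠ x in 𝓝 x₁, U x ≤ U x₁ + η :=
    (hU x₁ hx₁).continuousAt.eventually (ge_mem_nhds (by linarith))
  have h2 : ∀ᶠ x in 𝓝 x₁, x ∉ Z := hZ.isClosed.isOpen_compl.mem_nhds hx₁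
  obtain ⟨δ, hδ, hball⟩ := Metric.eventually_nhds_iff.1 (h1.and h2)
  have hd0 : 0 < ‖x₀ + -x₁‖ := by
    rw [norm_pos_iff]
    intro h
    exact hne (by linear_combination h)
  set r := min (δ / 2) ‖x₀ + -x₁‖ with hr
  have hr0 : 0 < r := lt_min (by positivity) hd0
  have hrδ : r < δ := lt_of_le_of_lt (min_le_left _ _) (by linarith)
  have hin : ∀ x, ‖x + -x₁‖ = r → U x ≤ U x₁ + η ∧ x ∉ Z := by
    intro x hx
    refine hball ?_
    rw [dist_eq_norm, sub_eq_add_neg, hx]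
    exact hrδ
  -- bound of the logarithms on the circle
  have hcs : IsCompact {x : ℂ | ‖x + -x₁‖ = r} := by
    have e : {x : ℂ | ‖x + -x₁‖ = r} = Metric.sphere x₁ r := by
      ext x
      rw [mem_ofPred_eq, mem_sphere_iff_norm, sub_eq_add_neg]
    rw [e]
    exact isCompact_sphere x₁ r
  have hHc : ContinuousOn (fun x => ∑ z ∈ hZ.toFinset, b2_lg z x + b2_L x)
      {x : ℂ | ‖x + -x₁‖ = r} := by
    intro x hx
    have hxs : x ∉ hZ.toFinset := fun h => (hin x hx).2 (hZ.mem_toFinset.1 h)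
    exact ((b2_sum hL hZ.toFinset x hxs).1.add (b2_L_contDiff x)).continuousAt.continuousWithinAt
  obtain ⟨C, hC⟩ := (hcs.image_of_continuousOn hHc).bddAbove
  have key : ∀ ε : ℝ, 0 < ε → U x₀ ≤ (U x₁ + η) + ε * ((b2_lg x₁ x₀ - Real.log (r ^ 2)) + (C -
      (∑ z ∈ hZ.toFinset, b2_lg z x₀ + b2_L x₀)) / (hZ.toFinset.card + 2)) := fun ε hε =>
    b2_comp hL hZ hU hl hM hr0 hx₀ (min_le_right _ _) (fun x _ hx => (hin x hx).1)
      (fun x _ hx => hC (mem_image_of_mem _ hx)) hε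
  set B := (b2_lg x₁ x₀ - Real.log (r ^ 2)) + (C -
      (∑ z ∈ hZ.toFinset, b2_lg z x₀ + b2_L x₀)) / (hZ.toFinset.card + 2) with hB
  refine le_of_forall_pos_le_add fun τ hτ => ?_
  have h5 := key (τ / (|B| + 1)) (by positivity)
  have h6 : τ / (|B| + 1) * B ≤ τ := by
    have h7 : τ / (|B| + 1) * B ≤ τ / (|B| + 1) * (|B| + 1) :=
      mul_le_mul_of_nonneg_left (by linarith [le_abs_self B]) (by positivity)
    rwa [div_mul_cancel₀ _ (by positivity)] at h7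
  linarith

/-- row B2 -/
theorem spLiou1 (hL : SpLC) : SpLiou1 := by
  intro Z U M hZ hU hl hM x hx
  have hLC := hL ℂ
  have hev : U =ᶠ[𝓝 x] fun _ => U x := by
    filter_upwards [hZ.isClosed.isOpen_compl.mem_nhds hx] with y hy
    exact le_antisymm (b2_le hLC hZ hU hl hM hx hy) (b2_le hLC hZ hU hl hM hy hx)
  rw [hLC.congr 1 hev, hLC.const]

end Pool.Agent.H35.CR
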