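import Pool.Agent.H35.CR.Spec
import Pool.Agent.KO.C.Osgood

/-!
# Project CR (MP_d5c4e7_an): row E, the function `φ`
-/

set_option autoImplicit false

open Complex Set Polynomial
open scoped ContDiff Topology

namespace Pool.Agent.H35.CR

section General

variable {E : Type} [NormedAddCommGroup E] [NormedSpace ℂ E]

/-- `t = log |W|` -/
noncomputable def e_t (W : E → ℂ) (p : E) : ℝ := Real.log ‖W p‖

/-- the function `φ` -/
noncomputable def e_phi (g : ℝ → ℝ) (W : E → ℂ) (V : E → ℝ) (p : E) : ℝ :=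
  if |e_t W p| ≤ 1 / 2 then e_t W p ^ 2
  else MM g (1 / 4) (e_t W p ^ 2) (2 * e_t W p ^ 2 - 1 + V p / 4)

/-- `{1/2 < |log|W|| < 2}` -/
def e_G (W : E → ℂ) : Set E := {p | W p ≠ 0 ∧ 1 / 2 < |Real.log ‖W p‖| ∧ |Real.log ‖W p‖| < 2}

/-- `{|log|W|| < 2}` -/
def e_D (W : E → ℂ) : Set E := {p | W p ≠ 0 ∧ |Real.log ‖W p‖| < 2}

theorem e_t_smooth {W : E → ℂ} (hW : ∀ p, ContDiffAt ℂ ∞ W p) {p : E} (hp : W p ≠ 0) :
    ContDiffAt ℝ ∞ (e_t W) p := by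
  have h1 : ContDiffAt ℝ ∞ W p := (hW p).restrict_scalars ℝ
  have h2 : ContDiffAt ℝ ∞ (fun q => ‖W q‖) p := h1.norm ℝ hp
  exact h2.log (norm_ne_zero_iff.2 hp)

theorem e_u_smooth {W : E → ℂ} (hW : ∀ p, ContDiffAt ℂ ∞ W p) {p : E} (hp : W p ≠ 0) :
    ContDiffAt ℝ ∞ (fun q => e_t W q ^ 2) p := (e_t_smooth hW hp).pow 2

theorem e_u_levi (hC : LC E) (hL : LogC E) {W : E → ℂ} (hW : ∀ p, ContDiffAt ℂ ∞ W p) {p : E}
    (hp : W p ≠ 0) (v : E) : 0 ≤ levi (fun q => e_t W q ^ 2) p v := by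
  have h1 : levi (e_t W) p v = 0 :=
    hL.log_norm W p v ((hW p).of_le (WithTop.coe_le_coe.2 (le_top : (2 : ℕ∞) ≤ ⊤))) hp
  have h2 := hC.comp_real (g := fun s : ℝ => s ^ 2) (u := e_t W) (z := p) v
    (contDiffAt_id.pow 2) ((e_t_smooth hW hp).of_le (WithTop.coe_le_coe.2 (le_top : (2 : ℕ∞) ≤ ⊤)))
  rw [h2, h1]
  have h3 : deriv (fun s : ℝ => s ^ 2) = fun s : ℝ => 2 * s := by
    funext s
    simp
  have h4 : deriv (deriv (fun s : ℝ => s ^ 2)) (e_t W p) = 2 := by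
    rw [h3]
    simp
  rw [h4, mul_zero, zero_add]
  positivity

/-- the second function -/
noncomputable def e_b (W : E → ℂ) (V : E → ℝ) (q : E) : ℝ := 2 * e_t W q ^ 2 - 1 + V q / 4

theorem e_b_smooth {W : E → ℂ} {V : E → ℝ} (hW : ∀ p, ContDiffAt ℂ ∞ W p) {p : E}
    (hp : W p ≠ 0) (hV : ContDiffAt ℝ ∞ V p) : ContDiffAt ℝ ∞ (e_b W V) p :=
  ((contDiffAt_const.mul (e_u_smooth hW hp)).sub contDiffAt_const).add (hV.div_const 4)

theorem e_b_strict (hC : LC E) (hL : LogC E) {W : E → ℂ} {V : E → ℝ}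
    (hW : ∀ p, ContDiffAt ℂ ∞ W p) {p : E} (hp : W p ≠ 0) (hV : ContDiffAt ℝ ∞ V p)
    (hs : StrictAt V p) : StrictAt (e_b W V) p := by
  intro v hv
  have h2le : (2 : WithTop ℕ∞) ≤ ∞ := WithTop.coe_le_coe.2 (le_top : (2 : ℕ∞) ≤ ⊤)
  have hu2 : ContDiffAt ℝ 2 (fun q => e_t W q ^ 2) p := (e_u_smooth hW hp).of_le h2le
  have hV2 : ContDiffAt ℝ 2 V p := hV.of_le h2le
  have e1 : e_b W V = fun q => (2 * e_t W q ^ 2 + (-1)) + (1 / 4) * V q := by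
    funext q
    simp only [e_b]
    ring
  have h1 : ContDiffAt ℝ 2 (fun q => 2 * e_t W q ^ 2) p := contDiffAt_const.mul hu2
  have h2 : ContDiffAt ℝ 2 (fun q => 2 * e_t W q ^ 2 + (-1)) p := h1.add contDiffAt_const
  have h3 : ContDiffAt ℝ 2 (fun q => (1 / 4) * V q) p := contDiffAt_const.mul hV2
  rw [e1, hC.add v h2 h3, hC.add v h1 contDiffAt_const, hC.const_mul 2 v hu2, hC.const,
    hC.const_mul (1 / 4) v hV2]
  have h4 := e_u_levi hC hL hW hp v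
  have h5 := hs v hv
  linarith

variable {g : ℝ → ℝ} {W : E → ℂ} {V : E → ℝ}

theorem e_cont (hW : ∀ p, ContDiffAt ℂ ∞ W p) {p : E} (hp : W p ≠ 0) :
    ContinuousAt (fun q => |e_t W q|) p := (e_t_smooth hW hp).continuousAt.abs

theorem e_ne (hW : ∀ p, ContDiffAt ℂ ∞ W p) {p : E} (hp : W p ≠ 0) : ∀ᶠ q in 𝓝 p, W q ≠ 0 :=
  (hW p).continuousAt.eventually_ne hp

theorem e_evA (hN : MMNum g) (hW : ∀ p, ContDiffAt ℂ ∞ W p)
    (hB : ∀ p ∈ e_G W, 0 ≤ V p ∧ V p ≤ 1) {p : E} (hp : W p ≠ 0) (ht : |e_t W p| < 7 / 10) :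
    e_phi g W V =ᶠ[𝓝 p] fun q => e_t W q ^ 2 := by
  filter_upwards [e_ne hW hp, (e_cont hW hp).eventually_lt continuousAt_const ht] with q hq1 hq2
  by_cases h : |e_t W q| ≤ 1 / 2
  · simp only [e_phi, if_pos h]
  · have h1 : (1 : ℝ) / 2 < |e_t W q| := not_le.1 h
    have hG : q ∈ e_G W := ⟨hq1, h1, by
      have : |Real.log ‖W q‖| < 7 / 10 := hq2
      linarith⟩
    obtain ⟨h2, h3⟩ := hB q hG
    simp only [e_phi, if_neg h]
    apply hN.eq_left _ _ _ (by norm_num)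
    have h4 : e_t W q ^ 2 ≤ 49 / 100 := by
      rw [← sq_abs]
      nlinarith [abs_nonneg (e_t W q)]
    nlinarith

theorem e_evB (hW : ∀ p, ContDiffAt ℂ ∞ W p) {p : E} (hp : W p ≠ 0)
    (ht : 1 / 2 < |e_t W p|) :
    e_phi g W V =ᶠ[𝓝 p] fun q => MM g (1 / 4) (e_t W q ^ 2) (e_b W V q) := by
  filter_upwards [(continuousAt_const (y := (1 : ℝ) / 2)).eventually_lt (e_cont hW hp) ht] with q hq
  simp only [e_phi, if_neg (not_le.2 hq), e_b]

theorem e_open (hW : ∀ p, ContDiffAt ℂ ∞ W p) : IsOpen (e_G W) := by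
  rw [isOpen_iff_mem_nhds]
  intro p hp
  obtain ⟨h1, h2, h3⟩ := hp
  filter_upwards [e_ne hW h1,
    (continuousAt_const (y := (1 : ℝ) / 2)).eventually_lt (e_cont hW h1) h2,
    (e_cont hW h1).eventually_lt (continuousAt_const (y := (2 : ℝ))) h3] with q a b c
  exact ⟨a, b, c⟩

theorem e_main (hC : LC E) (hL : LogC E) (hN : MMNum g) (hP : MMPsh g E)
    (hW : ∀ p, ContDiffAt ℂ ∞ W p) (hV : ContDiffOn ℝ ∞ V (e_G W))
    (hS : ∀ p ∈ e_G W, StrictAt V p) (hB : ∀ p ∈ e_G W, 0 ≤ V p ∧ V p ≤ 1) :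
    (∀ p ∈ e_D W, ContDiffAt ℝ ∞ (e_phi g W V) p) ∧
    (∀ p ∈ e_D W, ∀ v, 0 ≤ levi (e_phi g W V) p v) ∧
    (∀ p ∈ e_D W, 9 / 10 < |Real.log ‖W p‖| → StrictAt (e_phi g W V) p) ∧
    (∀ p ∈ e_D W, Real.log ‖W p‖ ^ 2 ≤ e_phi g W V p) ∧
    (∀ p ∈ e_D W, |Real.log ‖W p‖| ≤ 1 / 2 → e_phi g W V p = Real.log ‖W p‖ ^ 2) ∧
    (∀ p ∈ e_D W, e_phi g W V p ≤
      max (Real.log ‖W p‖ ^ 2) (2 * Real.log ‖W p‖ ^ 2 - 3 / 4) + 1 / 4) := by
  have hO := e_open hW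
  have h2le : (2 : WithTop ℕ∞) ≤ ∞ := WithTop.coe_le_coe.2 (le_top : (2 : ℕ∞) ≤ ⊤)
  have hVp : ∀ p ∈ e_G W, ContDiffAt ℝ ∞ V p := fun p hp => hV.contDiffAt (hO.mem_nhds hp)
  have h4 : (0 : ℝ) < 1 / 4 := by norm_num
  have hGD : ∀ p ∈ e_D W, 1 / 2 < |e_t W p| → p ∈ e_G W := fun p hp h => ⟨hp.1, h, hp.2⟩
  refine ⟨?_, ?_, ?_, ?_, ?_, ?_⟩
  · intro p hp
    rcases lt_or_ge |e_t W p| (7 / 10) with h | h
    · exact (e_u_smooth hW hp.1).congr_of_eventuallyEq (e_evA hN hW hB hp.1 h)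
    · have h1 : 1 / 2 < |e_t W p| := by linarith
      exact (hP.smooth (1 / 4) _ _ p h4 (e_u_smooth hW hp.1)
        (e_b_smooth hW hp.1 (hVp p (hGD p hp h1)))).congr_of_eventuallyEq (e_evB hW hp.1 h1)
  · intro p hp v
    rcases lt_or_ge |e_t W p| (7 / 10) with h | h
    · rw [hC.congr v (e_evA hN hW hB hp.1 h)]
      exact e_u_levi hC hL hW hp.1 v
    · have h1 : 1 / 2 < |e_t W p| := by linarith
      have hG := hGD p hp h1
      rw [hC.congr v (e_evB hW hp.1 h1)]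
      refine hP.nonneg (1 / 4) _ _ p v h4 ((e_u_smooth hW hp.1).of_le h2le)
        ((e_b_smooth hW hp.1 (hVp p hG)).of_le h2le) (e_u_levi hC hL hW hp.1 v) ?_
      by_cases hv : v = 0
      · subst hv
        simp [levi]
      · exact (e_b_strict hC hL hW hp.1 (hVp p hG) (hS p hG) v hv).le
  · intro p hp h
    have h9 : 9 / 10 < |e_t W p| := h
    have h1 : 1 / 2 < |e_t W p| := by linarith
    have hG := hGD p hp h1
    have hst : StrictAt (fun q => MM g (1 / 4) (e_t W q ^ 2) (e_b W V q)) p := by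
      refine hP.strict' (1 / 4) _ _ p h4 ((e_u_smooth hW hp.1).of_le h2le)
        ((e_b_smooth hW hp.1 (hVp p hG)).of_le h2le) (e_u_levi hC hL hW hp.1)
        (e_b_strict hC hL hW hp.1 (hVp p hG) (hS p hG)) ?_
      have h5 := (hB p hG).1
      have h6 : 81 / 100 < e_t W p ^ 2 := by
        rw [← sq_abs]
        nlinarith
      simp only [e_b]
      linarith
    intro v hv
    rw [hC.congr v (e_evB hW hp.1 h1)]
    exact hst v hv
  · intro p hp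
    by_cases h : |e_t W p| ≤ 1 / 2
    · simp only [e_phi, if_pos h]
      exact le_rfl
    · simp only [e_phi, if_neg h]
      exact hN.ge_left _ _ _ h4
  · intro p hp h
    have h' : |e_t W p| ≤ 1 / 2 := h
    simp only [e_phi, if_pos h']
    rfl
  · intro p hp
    by_cases h : |e_t W p| ≤ 1 / 2
    · simp only [e_phi, if_pos h]
      have := le_max_left (Real.log ‖W p‖ ^ 2) (2 * Real.log ‖W p‖ ^ 2 - 3 / 4)
      change Real.log ‖W p‖ ^ 2 ≤ _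
      linarith
    · have hG := hGD p hp (not_le.1 h)
      have h5 := (hB p hG).2
      simp only [e_phi, if_neg h]
      refine (hN.le_max _ _ _ h4).trans ?_
      have h6 : max (e_t W p ^ 2) (2 * e_t W p ^ 2 - 1 + V p / 4) ≤
          max (Real.log ‖W p‖ ^ 2) (2 * Real.log ‖W p‖ ^ 2 - 3 / 4) := by
        apply max_le_max le_rfl
        change 2 * Real.log ‖W p‖ ^ 2 - 1 + V p / 4 ≤ _
        linarith
      linarith

end General

theorem spPhi (hL : SpLC) (hLog : SpLogC) (hg : SpReg) (hM : SpMMNum) (hP : SpMMPsh) : SpPhi := by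
  intro W V hW hV hS hB
  obtain ⟨g, hgr⟩ := hg
  have hW' : ∀ p, ContDiffAt ℂ ∞ W p := fun p =>
    (Pool.Agent.KO.C.osgood isOpen_univ hW.differentiableOn p (mem_univ p)).contDiffAt
  obtain ⟨h1, h2, h3, h4, h5, h6⟩ := e_main (g := g) (W := W) (V := V) (hL C2) (hLog C2)
    (hM g hgr) (hP g hgr C2) hW' hV hS hB
  refine ⟨e_phi g W V, ⟨⟨?_, h2⟩, h3, h4, h5, h6⟩⟩
  intro p hp
  exact (h1 p hp).contDiffWithinAt

end Pool.Agent.H35.CR
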