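import Pool.Agent.H35.CR.Spec

/-!
# Project CR (MP_d5c4e7_an), row R1: the regularising function
-/

set_option autoImplicit false

open Complex Set Polynomial
open scoped ContDiff Topology

namespace Pool.Agent.H35.CR

/-- smooth step from `-1` to `1` -/
noncomputable def r1_step (s : ℝ) : ℝ := Real.smoothTransition ((s + 1) / 2)

lemma r1_step_contDiff : ContDiff ℝ ∞ r1_step := by
  unfold r1_step
  exact Real.smoothTransition.contDiff.comp ((contDiff_id.add contDiff_const).div_const _)

lemma r1_step_cont : Continuous r1_step := r1_step_contDiff.continuous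

lemma r1_step_nonneg (s : ℝ) : 0 ≤ r1_step s := Real.smoothTransition.nonneg _

lemma r1_step_le_one (s : ℝ) : r1_step s ≤ 1 := Real.smoothTransition.le_one _

lemma r1_step_lt_one {s : ℝ} (h : s < 1) : r1_step s < 1 :=
  Real.smoothTransition.lt_one_of_lt_one (by linarith)

lemma r1_step_mono : Monotone r1_step := by
  intro a b hab
  unfold r1_step
  apply Real.smoothTransition.monotone
  linarith

lemma r1_step_low {s : ℝ} (h : s ≤ -1) : r1_step s = 0 :=
  Real.smoothTransition.zero_of_nonpos (by linarith)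

lemma r1_step_high {s : ℝ} (h : 1 ≤ s) : r1_step s = 1 :=
  Real.smoothTransition.one_of_one_le (by linarith)

lemma r1_step_symm (s : ℝ) : r1_step s + r1_step (-s) = 1 := by
  unfold r1_step Real.smoothTransition
  have e1 : (1 : ℝ) - (s + 1) / 2 = (-s + 1) / 2 := by ring
  have e2 : (1 : ℝ) - (-s + 1) / 2 = (s + 1) / 2 := by ring
  rw [e1, e2]
  have h := Real.smoothTransition.pos_denom ((s + 1) / 2)
  rw [e1] at h
  rw [add_comm (expNegInvGlue ((-s + 1) / 2)) (expNegInvGlue ((s + 1) / 2)), ← add_div]
  exact div_self h.ne'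

lemma r1_step_int : ∫ t in (-1 : ℝ)..1, r1_step t = 1 := by
  have h1 : ∫ t in (-1 : ℝ)..1, r1_step (-t) = ∫ t in (-1 : ℝ)..1, r1_step t := by
    simp
  have h2 : ∫ t in (-1 : ℝ)..1, (r1_step t + r1_step (-t)) = 2 := by
    have : ∀ t, r1_step t + r1_step (-t) = 1 := r1_step_symm
    simp only [this]
    simp
    norm_num
  have hc : Continuous (fun t : ℝ => r1_step (-t)) := r1_step_cont.comp continuous_neg
  rw [intervalIntegral.integral_add (r1_step_cont.intervalIntegrable _ _)
    (hc.intervalIntegrable _ _), h1] at h2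
  linarith

/-- the regularising function -/
noncomputable def r1_g (s : ℝ) : ℝ := ∫ t in (-1 : ℝ)..s, r1_step t

lemma r1_hasDerivAt (s : ℝ) : HasDerivAt r1_g (r1_step s) s :=
  intervalIntegral.integral_hasDerivAt_right (r1_step_cont.intervalIntegrable _ _)
    (r1_step_cont.stronglyMeasurableAtFilter _ _) r1_step_cont.continuousAt

lemma r1_deriv : deriv r1_g = r1_step := by
  ext s
  exact (r1_hasDerivAt s).deriv

lemma r1_diff : Differentiable ℝ r1_g := fun s => (r1_hasDerivAt s).differentiableAt

lemma r1_low {s : ℝ} (hs : s ≤ -1) : r1_g s = 0 := by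
  show ∫ t in (-1 : ℝ)..s, r1_step t = 0
  have : ∫ t in (-1 : ℝ)..s, r1_step t = ∫ t in (-1 : ℝ)..s, (0 : ℝ) := by
    apply intervalIntegral.integral_congr
    intro t ht
    rw [uIcc_of_ge hs] at ht
    exact r1_step_low ht.2
  rw [this]
  simp

lemma r1_high {s : ℝ} (hs : 1 ≤ s) : r1_g s = s := by
  show ∫ t in (-1 : ℝ)..s, r1_step t = s
  have h1 : ∫ t in (1 : ℝ)..s, r1_step t = ∫ t in (1 : ℝ)..s, (1 : ℝ) := by
    apply intervalIntegral.integral_congr
    intro t ht
    rw [uIcc_of_le hs] at ht
    exact r1_step_high ht.1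
  have h2 := intervalIntegral.integral_add_adjacent_intervals
    (r1_step_cont.intervalIntegrable (-1) 1) (r1_step_cont.intervalIntegrable 1 s)
    (μ := MeasureTheory.volume)
  rw [← h2, r1_step_int, h1]
  simp

lemma r1_mono : Monotone r1_g := by
  apply monotone_of_deriv_nonneg r1_diff
  intro s
  rw [r1_deriv]
  exact r1_step_nonneg s

lemma r1_mono' : Monotone (fun s => s - r1_g s) := by
  have hd' : ∀ s, HasDerivAt (fun s => s - r1_g s) (1 - r1_step s) s :=
    fun s => (hasDerivAt_id s).sub (r1_hasDerivAt s)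
  apply monotone_of_deriv_nonneg (fun s => (hd' s).differentiableAt)
  intro s
  rw [(hd' s).deriv]
  linarith [r1_step_le_one s]

/-- row R1 -/
theorem spReg : SpReg := by
  refine ⟨r1_g, ?_⟩
  constructor
  · rw [contDiff_infty_iff_deriv, r1_deriv]
    exact ⟨r1_diff, r1_step_contDiff⟩
  · intro s
    rw [r1_deriv]
    exact r1_step_nonneg s
  · intro s
    rw [r1_deriv]
    exact r1_step_le_one s
  · intro s hs
    rw [r1_deriv]
    exact r1_step_lt_one hs
  · intro s
    rw [r1_deriv]
    exact r1_step_mono.deriv_nonneg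
  · intro s hs
    exact r1_low hs
  · intro s hs
    exact r1_high hs
  · intro s
    have h1 : r1_g (min s (-1)) ≤ r1_g s := r1_mono (min_le_left _ _)
    rw [r1_low (min_le_right _ _)] at h1
    exact h1
  · intro s
    have h1 : s - r1_g s ≤ max s 1 - r1_g (max s 1) := r1_mono' (le_max_left s 1)
    rw [r1_high (le_max_right _ _)] at h1
    linarith
  · intro s
    rcases le_total s 1 with h | h
    · have h1 : r1_g s ≤ r1_g 1 := r1_mono h
      rw [r1_high le_rfl] at h1
      have h2 := le_max_left (0 : ℝ) s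
      linarith
    · rw [r1_high h]
      have h2 := le_max_right (0 : ℝ) s
      linarith

/-- row R1: numerical properties of the regularised maximum -/
theorem spMMNum : SpMMNum := by
  intro g hg
  constructor
  · intro γ a b hγ hab
    have : g ((a - b) / γ) = 0 := hg.low _ (by rw [div_le_iff₀ hγ]; linarith)
    unfold MM
    rw [this]
    ring
  · intro γ a b hγ hab
    have : g ((a - b) / γ) = (a - b) / γ := hg.high _ (by rw [le_div_iff₀ hγ]; linarith)
    unfold MM
    rw [this, mul_div_cancel₀ _ hγ.ne']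
    ring
  · intro γ a b hγ
    have h1 : (a - b) / γ ≤ g ((a - b) / γ) := hg.ge _
    rw [div_le_iff₀ hγ] at h1
    unfold MM
    linarith
  · intro γ a b hγ
    have h1 := mul_nonneg hγ.le (hg.nonneg ((a - b) / γ))
    unfold MM
    linarith
  · intro γ a b hγ
    have h1 : γ * g ((a - b) / γ) ≤ γ * (max 0 ((a - b) / γ) + 1) :=
      mul_le_mul_of_nonneg_left (hg.le _) hγ.le
    have h2 : γ * (max 0 ((a - b) / γ) + 1) = max 0 (a - b) + γ := by
      rw [mul_add, mul_one, mul_max_of_nonneg _ _ hγ.le, mul_zero, mul_div_cancel₀ _ hγ.ne']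
    have h3 : b + max 0 (a - b) = max a b := by
      rw [← max_add_add_left, add_zero, add_sub_cancel, max_comm]
    unfold MM
    linarith

end Pool.Agent.H35.CR
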