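import Pool.Agent.H35.CR.Spec

/-!
# Project CR, row R2: the regularised maximum of plurisubharmonic functions
-/

set_option autoImplicit false

open Complex Set
open scoped ContDiff Topology

namespace Pool.Agent.H35.CR

section

variable {E : Type} [NormedAddCommGroup E] [NormedSpace ℂ E]

/-- the Levi form of the regularised maximum -/
theorem r2_levi (hL : LC E) {g : ℝ → ℝ} (hg : Reg g) {γ : ℝ} (hγ : 0 < γ) {a b : E → ℝ} {z : E}
    (v : E) (ha : ContDiffAt ℝ 2 a z) (hb : ContDiffAt ℝ 2 b z) :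
    ∃ q : ℝ, 0 ≤ q ∧ levi (fun w => MM g γ (a w) (b w)) z v =
      (1 - deriv g ((a z - b z) / γ)) * levi b z v + deriv g ((a z - b z) / γ) * levi a z v + q := by
  have hg2 : ContDiff ℝ 2 g := hg.smooth.of_le (WithTop.coe_le_coe.mpr le_top)
  have hb' : ContDiffAt ℝ 2 (fun w => (-1 : ℝ) * b w) z := contDiffAt_const.mul hb
  have hab : ContDiffAt ℝ 2 (fun w => a w + (-1 : ℝ) * b w) z := ha.add hb'
  have hu : ContDiffAt ℝ 2 (fun w => γ⁻¹ * (a w + (-1 : ℝ) * b w)) z := contDiffAt_const.mul hab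
  have hgu : ContDiffAt ℝ 2 (fun w => g (γ⁻¹ * (a w + (-1 : ℝ) * b w))) z :=
    hg2.contDiffAt.comp z hu
  have hggu : ContDiffAt ℝ 2 (fun w => γ * g (γ⁻¹ * (a w + (-1 : ℝ) * b w))) z :=
    contDiffAt_const.mul hgu
  have e0 : (fun w => MM g γ (a w) (b w)) =
      fun w => b w + γ * g (γ⁻¹ * (a w + (-1 : ℝ) * b w)) := by
    funext w
    rw [MM]
    congr 3
    rw [div_eq_inv_mul]
    ring
  have e1 : γ⁻¹ * (a z + (-1 : ℝ) * b z) = (a z - b z) / γ := by
    rw [div_eq_inv_mul]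
    ring
  set u : E → ℝ := fun w => γ⁻¹ * (a w + (-1 : ℝ) * b w) with hudef
  have h1 : levi u z v = γ⁻¹ * (levi a z v + (-1 : ℝ) * levi b z v) := by
    rw [hudef, hL.const_mul γ⁻¹ v hab, hL.add v ha hb', hL.const_mul (-1) v hb]
  have h2 := hL.comp_real (g := g) (u := u) v hg2.contDiffAt hu
  refine ⟨γ * (deriv (deriv g) (u z) * ((fderiv ℝ u z v) ^ 2 + (fderiv ℝ u z (I • v)) ^ 2)),
    mul_nonneg hγ.le (mul_nonneg (hg.dd_nonneg _) (by positivity)), ?_⟩
  rw [e0, hL.add v hb hggu, hL.const_mul γ v hgu, h2, h1]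
  have e2 : u z = (a z - b z) / γ := e1
  rw [e2]
  field_simp
  ring

end

/-- row R2 -/
theorem spMMPsh (hL : SpLC) : SpMMPsh := by
  intro g hg E _ _
  have L := hL E
  constructor
  · intro γ a b z _ ha hb
    have h1 : ContDiffAt ℝ ∞ (fun w => (a w - b w) / γ) z := (ha.sub hb).div_const γ
    have h2 : ContDiffAt ℝ ∞ (fun w => g ((a w - b w) / γ)) z := hg.smooth.contDiffAt.comp z h1
    exact hb.add (contDiffAt_const.mul h2)
  · intro γ a b z v hγ ha hb hla hlb
    obtain ⟨q, hq, h⟩ := r2_levi L hg hγ v ha hb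
    rw [h]
    have h1 := hg.d_nonneg ((a z - b z) / γ)
    have h2 := hg.d_le_one ((a z - b z) / γ)
    have h3 := mul_nonneg (sub_nonneg.mpr h2) hlb
    have h4 := mul_nonneg h1 hla
    linarith
  · intro γ a b z hγ ha hb hsa hsb v hv
    obtain ⟨q, hq, h⟩ := r2_levi L hg hγ v ha hb
    rw [h]
    have h1 := hg.d_nonneg ((a z - b z) / γ)
    have h2 := hg.d_le_one ((a z - b z) / γ)
    have hla := hsa v hv
    have hlb := hsb v hv
    rcases h1.eq_or_lt with h0 | h0
    · rw [← h0]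
      linarith
    · have h3 := mul_nonneg (sub_nonneg.mpr h2) hlb.le
      have h4 := mul_pos h0 hla
      linarith
  · intro γ a b z hγ ha hb hla hsb hlt v hv
    obtain ⟨q, hq, h⟩ := r2_levi L hg hγ v ha hb
    rw [h]
    have h1 := hg.d_nonneg ((a z - b z) / γ)
    have h2 := hg.d_lt_one ((a z - b z) / γ) (by rw [div_lt_one hγ]; exact hlt)
    have h3 := mul_pos (sub_pos.mpr h2) (hsb v hv)
    have h4 := mul_nonneg h1 (hla v)
    linarith

end Pool.Agent.H35.CR
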