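import Pool.Agent.H35.CR.Spec

/-!
# Project CR, row S2: hypersurface pieces for Sard's theorem
-/

set_option autoImplicit false

open Set
open scoped ContDiff Topology

namespace Pool.Agent.H35.CR

/-- a projection complementing a nonzero linear form -/
theorem s2_proj (n : ℕ) (L : EuclideanSpace ℝ (Fin (n + 1)) →L[ℝ] ℝ) (hL : L ≠ 0) :
    ∃ (P : EuclideanSpace ℝ (Fin (n + 1)) →L[ℝ] EuclideanSpace ℝ (Fin n))
      (A : EuclideanSpace ℝ (Fin (n + 1)) ≃L[ℝ] (ℝ × EuclideanSpace ℝ (Fin n))),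
      (A : EuclideanSpace ℝ (Fin (n + 1)) →L[ℝ] (ℝ × EuclideanSpace ℝ (Fin n))) = L.prod P := by
  classical
  set K : Submodule ℝ (EuclideanSpace ℝ (Fin (n + 1))) :=
    LinearMap.ker (L : EuclideanSpace ℝ (Fin (n + 1)) →ₗ[ℝ] ℝ) with hK
  have hsurj : LinearMap.range (L : EuclideanSpace ℝ (Fin (n + 1)) →ₗ[ℝ] ℝ) = ⊤ := by
    apply LinearMap.range_eq_top.2
    have h1 : ∃ x, L x ≠ 0 := by
      by_contra h
      push Not at h
      exact hL (by ext x; simp [h])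
    obtain ⟨x, hx⟩ := h1
    intro c
    refine ⟨(c / L x) • x, ?_⟩
    simp [hx]
  have hdim : Module.finrank ℝ K = n := by
    have h1 := LinearMap.finrank_range_add_finrank_ker
      (L : EuclideanSpace ℝ (Fin (n + 1)) →ₗ[ℝ] ℝ)
    rw [hsurj, finrank_top, Module.finrank_self, finrank_euclideanSpace_fin, ← hK] at h1
    omega
  have e : K ≃L[ℝ] EuclideanSpace ℝ (Fin n) :=
    ContinuousLinearEquiv.ofFinrankEq (by rw [hdim, finrank_euclideanSpace_fin])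
  set P : EuclideanSpace ℝ (Fin (n + 1)) →L[ℝ] EuclideanSpace ℝ (Fin n) :=
    (e : K →L[ℝ] EuclideanSpace ℝ (Fin n)) ∘L K.orthogonalProjectionOnto with hP
  have hinj : Function.Injective (L.prod P) := by
    rw [injective_iff_map_eq_zero]
    intro x hx
    have h1 : L x = 0 := congrArg Prod.fst hx
    have h2 : P x = 0 := congrArg Prod.snd hx
    have hxK : x ∈ K := h1
    have h3 : K.orthogonalProjectionOnto x = ⟨x, hxK⟩ :=
      K.orthogonalProjectionOnto_mem_subspace_eq_self ⟨x, hxK⟩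
    have h4 : e (K.orthogonalProjectionOnto x) = 0 := h2
    rw [h3] at h4
    have h5 := (map_eq_zero_iff e e.injective).1 h4
    exact congrArg Subtype.val h5
  have hfr : Module.finrank ℝ (EuclideanSpace ℝ (Fin (n + 1))) =
      Module.finrank ℝ (ℝ × EuclideanSpace ℝ (Fin n)) := by
    rw [Module.finrank_prod, Module.finrank_self, finrank_euclideanSpace_fin,
      finrank_euclideanSpace_fin, add_comm]
  refine ⟨P, (LinearEquiv.ofInjectiveOfFinrankEq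
    (L.prod P : EuclideanSpace ℝ (Fin (n + 1)) →ₗ[ℝ] (ℝ × EuclideanSpace ℝ (Fin n))) hinj
      hfr).toContinuousLinearEquiv, ?_⟩
  ext x <;> rfl

theorem sd_param (n : ℕ) (g : EuclideanSpace ℝ (Fin (n + 1)) → ℝ)
    (x₀ : EuclideanSpace ℝ (Fin (n + 1))) (O : Set (EuclideanSpace ℝ (Fin (n + 1))))
    (hO : IsOpen O) (hx : x₀ ∈ O) (hg : ContDiffOn ℝ ∞ g O) (h0 : fderiv ℝ g x₀ ≠ 0) :
    ∃ (U : Set (EuclideanSpace ℝ (Fin (n + 1)))) (B : Set (EuclideanSpace ℝ (Fin n)))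
      (ψ : EuclideanSpace ℝ (Fin n) → EuclideanSpace ℝ (Fin (n + 1))),
      IsOpen U ∧ x₀ ∈ U ∧ U ⊆ O ∧ IsOpen B ∧ ContDiffOn ℝ ∞ ψ B ∧ (∀ b ∈ B, ψ b ∈ O) ∧
      ∀ x ∈ U, g x = g x₀ → ∃ b ∈ B, ψ b = x := by
  obtain ⟨P, A, hA⟩ := s2_proj n (fderiv ℝ g x₀) h0
  set F : EuclideanSpace ℝ (Fin (n + 1)) → ℝ × EuclideanSpace ℝ (Fin n) :=
    fun x => (g x, P x) with hF
  have hgx : ∀ x ∈ O, ContDiffAt ℝ ∞ g x := fun x hx => hg.contDiffAt (hO.mem_nhds hx)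
  have hFx : ∀ x ∈ O, ContDiffAt ℝ ∞ F x := fun x hx => (hgx x hx).prodMk P.contDiff.contDiffAt
  have hd : ∀ x ∈ O, HasFDerivAt F ((fderiv ℝ g x).prod P) x := fun x hx =>
    ((hgx x hx).differentiableAt (by simp)).hasFDerivAt.prodMk P.hasFDerivAt
  have hd0 : HasFDerivAt F (A : EuclideanSpace ℝ (Fin (n + 1)) →L[ℝ] _) x₀ := by
    rw [hA]; exact hd x₀ hx
  set Φ := (hFx x₀ hx).toOpenPartialHomeomorph F hd0 (by simp) with hΦ
  have hΦF : ∀ x, Φ x = F x := fun x => rfl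
  have hsrc : x₀ ∈ Φ.source := (hFx x₀ hx).mem_toOpenPartialHomeomorph_source hd0 (by simp)
  -- invertible derivative near `x₀`
  have hc : ContinuousAt (fun x => (fderiv ℝ g x).prod P) x₀ := by
    have h1 : ContinuousAt (fderiv ℝ g) x₀ :=
      ((hgx x₀ hx).fderiv_right (m := 0) (by simp)).continuousAt
    have h2 : Continuous (fun L : EuclideanSpace ℝ (Fin (n + 1)) →L[ℝ] ℝ => L.prod P) :=
      (ContinuousLinearMap.prodₗᵢ ℝ).continuous.comp (continuous_id.prodMk continuous_const)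
    exact h2.continuousAt.comp h1
  have hev : ∀ᶠ x in 𝓝 x₀, (fderiv ℝ g x).prod P ∈ Set.range
      ((↑) : (EuclideanSpace ℝ (Fin (n + 1)) ≃L[ℝ] (ℝ × EuclideanSpace ℝ (Fin n))) →
        (EuclideanSpace ℝ (Fin (n + 1)) →L[ℝ] (ℝ × EuclideanSpace ℝ (Fin n)))) := by
    apply hc.eventually
    apply ContinuousLinearEquiv.isOpen.mem_nhds
    exact ⟨A, hA⟩
  have hev2 : ∀ᶠ x in 𝓝 x₀, x ∈ O ∧ x ∈ Φ.source ∧ (fderiv ℝ g x).prod P ∈ Set.range
      ((↑) : (EuclideanSpace ℝ (Fin (n + 1)) ≃L[ℝ] (ℝ × EuclideanSpace ℝ (Fin n))) →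
        (EuclideanSpace ℝ (Fin (n + 1)) →L[ℝ] (ℝ × EuclideanSpace ℝ (Fin n)))) :=
    (hO.eventually_mem hx).and ((Φ.open_source.eventually_mem hsrc).and hev)
  obtain ⟨U, hU, hUo, hxU⟩ := eventually_nhds_iff.1 hev2
  have hΦU : IsOpen (Φ '' U) := Φ.isOpen_image_of_subset_source hUo (fun x hx => (hU x hx).2.1)
  have hι : Continuous (fun b : EuclideanSpace ℝ (Fin n) => ((g x₀, b) : ℝ × _)) := by fun_prop
  refine ⟨U, {b | (g x₀, b) ∈ Φ '' U}, fun b => Φ.symm (g x₀, b), hUo, hxU,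
    fun x hx => (hU x hx).1, hΦU.preimage hι, ?_, ?_, ?_⟩
  · intro b hb
    apply ContDiffAt.contDiffWithinAt
    obtain ⟨x, hxU', hxb⟩ := hb
    have h1 : Φ.symm (g x₀, b) = x := by
      rw [← hxb]; exact Φ.left_inv (hU x hxU').2.1
    obtain ⟨A', hA'⟩ := (hU x hxU').2.2
    have h2 : ContDiffAt ℝ ∞ Φ.symm (g x₀, b) := by
      apply Φ.contDiffAt_symm (f₀' := A')
      · rw [← hxb]; exact Φ.map_source (hU x hxU').2.1
      · rw [h1, hA']; exact hd x (hU x hxU').1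
      · rw [h1]; exact hFx x (hU x hxU').1
    exact h2.comp b (by fun_prop)
  · rintro b ⟨x, hxU', hxb⟩
    have h1 : Φ.symm (g x₀, b) = x := by
      rw [← hxb]; exact Φ.left_inv (hU x hxU').2.1
    change Φ.symm (g x₀, b) ∈ O
    rw [h1]
    exact (hU x hxU').1
  · intro x hxU' hgx'
    refine ⟨P x, ⟨x, hxU', ?_⟩, ?_⟩
    · change (g x, P x) = (g x₀, P x)
      rw [hgx']
    · change Φ.symm (g x₀, P x) = x
      rw [← hgx']
      exact Φ.left_inv (hU x hxU').2.1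

end Pool.Agent.H35.CR
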