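import Pool.Agent.H35.CR.Spec

/-!
# Project CR (MP_d5c4e7_an), row S3: the theorem of Sard for smooth real functions, induction
-/

set_option autoImplicit false

open Complex Set Polynomial MeasureTheory
open scoped ContDiff Topology

namespace Pool.Agent.H35.CR

/-- statement of row S1 -/
def S3Flat : Prop := ∀ (n : ℕ) (f : EuclideanSpace ℝ (Fin n) → ℝ)
  (O : Set (EuclideanSpace ℝ (Fin n))), IsOpen O → ContDiffOn ℝ ∞ f O →
  MeasureTheory.volume (f '' {x ∈ O | ∀ j, 1 ≤ j → j ≤ n → iteratedFDeriv ℝ j f x = 0}) = 0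

/-- statement of row S2 -/
def S3Param : Prop := ∀ (n : ℕ) (g : EuclideanSpace ℝ (Fin (n + 1)) → ℝ)
  (x₀ : EuclideanSpace ℝ (Fin (n + 1))) (O : Set (EuclideanSpace ℝ (Fin (n + 1)))),
  IsOpen O → x₀ ∈ O → ContDiffOn ℝ ∞ g O → fderiv ℝ g x₀ ≠ 0 →
  ∃ (U : Set (EuclideanSpace ℝ (Fin (n + 1)))) (B : Set (EuclideanSpace ℝ (Fin n)))
    (ψ : EuclideanSpace ℝ (Fin n) → EuclideanSpace ℝ (Fin (n + 1))), IsOpen U ∧ x₀ ∈ U ∧
    U ⊆ O ∧ IsOpen B ∧ ContDiffOn ℝ ∞ ψ B ∧ (∀ b ∈ B, ψ b ∈ O) ∧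
    ∀ x ∈ U, g x = g x₀ → ∃ b ∈ B, ψ b = x

/-- the statement in dimension `n` -/
def S3P (n : ℕ) : Prop := ∀ (f : EuclideanSpace ℝ (Fin n) → ℝ)
  (O : Set (EuclideanSpace ℝ (Fin n))), IsOpen O → ContDiffOn ℝ ∞ f O →
  MeasureTheory.volume (f '' {x ∈ O | fderiv ℝ f x = 0}) = 0

/-- images which are locally null are null -/
theorem s3_local {E : Type} [NormedAddCommGroup E] [NormedSpace ℝ E] [FiniteDimensional ℝ E]
    (f : E → ℝ) (A : Set E)
    (h : ∀ x ∈ A, ∃ U : Set E, U ∈ 𝓝 x ∧ MeasureTheory.volume (f '' (A ∩ U)) = 0) :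
    MeasureTheory.volume (f '' A) = 0 := by
  classical
  have : ProperSpace E := FiniteDimensional.proper ℝ E
  choose! U hU hn using h
  obtain ⟨t, htA, htc, hcov⟩ := TopologicalSpace.countable_cover_nhdsWithin
    (f := U) (s := A) (fun x hx => mem_nhdsWithin_of_mem_nhds (hU x hx))
  have hsub : f '' A ⊆ ⋃ x ∈ t, f '' (A ∩ U x) := by
    rintro _ ⟨a, ha, rfl⟩
    obtain ⟨x, hx, hax⟩ := mem_iUnion₂.mp (hcov ha)
    exact mem_iUnion₂.mpr ⟨x, hx, ⟨a, ⟨ha, hax⟩, rfl⟩⟩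
  refine measure_mono_null hsub ?_
  rw [measure_biUnion_null_iff htc]
  exact fun x hx => hn x (htA hx)

theorem s3_succ {E : Type} [NormedAddCommGroup E] [NormedSpace ℝ E] (f : E → ℝ) (k : ℕ) (x : E)
    (h : fderiv ℝ (iteratedFDeriv ℝ k f) x = 0) : iteratedFDeriv ℝ (k + 1) f x = 0 := by
  ext m
  rw [iteratedFDeriv_succ_apply_left, h]
  rfl

/-- the pieces near which some derivative is a submersion -/
theorem s3_piece {n : ℕ} (hp : S3Param) (hn : S3P n)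
    (f : EuclideanSpace ℝ (Fin (n + 1)) → ℝ) (O : Set (EuclideanSpace ℝ (Fin (n + 1))))
    (hO : IsOpen O) (hf : ContDiffOn ℝ ∞ f O) (k : ℕ) :
    MeasureTheory.volume (f '' {x | x ∈ O ∧ fderiv ℝ f x = 0 ∧ iteratedFDeriv ℝ k f x = 0 ∧
      iteratedFDeriv ℝ (k + 1) f x ≠ 0}) = 0 := by
  refine s3_local f _ fun x₀ hx₀ => ?_
  obtain ⟨h1, h2, h3, h4⟩ := hx₀
  have h5 : fderiv ℝ (iteratedFDeriv ℝ k f) x₀ ≠ 0 := by
    intro h
    apply h4
    exact s3_succ f k x₀ h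
  obtain ⟨v, hv⟩ : ∃ v, fderiv ℝ (iteratedFDeriv ℝ k f) x₀ v ≠ 0 := by
    by_contra hcon
    push Not at hcon
    exact h5 (ContinuousLinearMap.ext hcon)
  obtain ⟨m, hm⟩ : ∃ m, (fderiv ℝ (iteratedFDeriv ℝ k f) x₀ v) m ≠ 0 := by
    by_contra hcon
    push Not at hcon
    exact hv (ContinuousMultilinearMap.ext hcon)
  set ap : (ContinuousMultilinearMap ℝ (fun _ : Fin k => EuclideanSpace ℝ (Fin (n + 1))) ℝ) →L[ℝ] ℝ :=
    ContinuousMultilinearMap.apply ℝ (fun _ : Fin k => EuclideanSpace ℝ (Fin (n + 1))) ℝ m with hap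
  set g : EuclideanSpace ℝ (Fin (n + 1)) → ℝ := fun x => ap (iteratedFDeriv ℝ k f x) with hg
  have hsm : ∀ x ∈ O, ContDiffAt ℝ ∞ (iteratedFDeriv ℝ k f) x := fun x hx =>
    (hf.contDiffAt (hO.mem_nhds hx)).iteratedFDeriv_right (i := k) (m := ∞) (by
      exact_mod_cast (le_top : ((⊤ : ℕ∞) + (k : ℕ∞)) ≤ ⊤))
  have hgs : ContDiffOn ℝ ∞ g O := fun x hx =>
    (ap.contDiff.contDiffAt.comp x (hsm x hx)).contDiffWithinAt
  have hgd : fderiv ℝ g x₀ ≠ 0 := by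
    intro h
    have h6 : HasFDerivAt g (ap.comp (fderiv ℝ (iteratedFDeriv ℝ k f) x₀)) x₀ := by
      have h7 : HasFDerivAt (iteratedFDeriv ℝ k f) (fderiv ℝ (iteratedFDeriv ℝ k f) x₀) x₀ :=
        ((hsm x₀ h1).differentiableAt (by simp)).hasFDerivAt
      exact ap.hasFDerivAt.comp x₀ h7
    rw [h6.fderiv] at h
    have h8 := congrArg (fun L : EuclideanSpace ℝ (Fin (n + 1)) →L[ℝ] ℝ => L v) h
    exact hm h8
  obtain ⟨U, B, ψ, hUo, hxU, hUO, hB, hψ, hψO, hpar⟩ := hp n g x₀ O hO h1 hgs hgd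
  refine ⟨U, hUo.mem_nhds hxU, ?_⟩
  have hcomp : ContDiffOn ℝ ∞ (f ∘ ψ) B := hf.comp hψ hψO
  refine measure_mono_null ?_ (hn (f ∘ ψ) B hB hcomp)
  rintro _ ⟨x, ⟨⟨hx1, hx2, hx3, hx4⟩, hxU'⟩, rfl⟩
  have hgx : g x = g x₀ := by
    show ap (iteratedFDeriv ℝ k f x) = ap (iteratedFDeriv ℝ k f x₀)
    rw [hx3, h3]
  obtain ⟨b, hb, hbx⟩ := hpar x hxU' hgx
  refine ⟨b, ⟨hb, ?_⟩, ?_⟩
  · have e1 : HasFDerivAt f (fderiv ℝ f (ψ b)) (ψ b) :=
      ((hf.contDiffAt (hO.mem_nhds (hψO b hb))).differentiableAt (by simp)).hasFDerivAt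
    have e2 : HasFDerivAt ψ (fderiv ℝ ψ b) b :=
      ((hψ.contDiffAt (hB.mem_nhds hb)).differentiableAt (by simp)).hasFDerivAt
    rw [(e1.comp b e2).fderiv, hbx, hx2]
    simp
  · show f (ψ b) = f x
    rw [hbx]

theorem s3_ind (hfl : S3Flat) (hp : S3Param) : ∀ n, S3P n := by
  intro n
  induction n with
  | zero =>
    intro f O hO hf
    refine measure_mono_null (image_mono ?_) (hfl 0 f O hO hf)
    rintro x ⟨hx, -⟩
    exact ⟨hx, fun j h1 h2 => by omega⟩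
  | succ n ih =>
    intro f O hO hf
    have hcov : {x | x ∈ O ∧ fderiv ℝ f x = 0} ⊆
        {x | x ∈ O ∧ ∀ j, 1 ≤ j → j ≤ n + 1 → iteratedFDeriv ℝ j f x = 0} ∪
        ⋃ k : ℕ, {x | x ∈ O ∧ fderiv ℝ f x = 0 ∧ iteratedFDeriv ℝ k f x = 0 ∧
          iteratedFDeriv ℝ (k + 1) f x ≠ 0} := by
      rintro x ⟨hx, hd⟩
      by_cases hall : ∀ j, 1 ≤ j → j ≤ n + 1 → iteratedFDeriv ℝ j f x = 0
      · exact Or.inl ⟨hx, hall⟩
      · right
        push Not at hall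
        have hex : ∃ j, 1 ≤ j ∧ iteratedFDeriv ℝ j f x ≠ 0 := by
          obtain ⟨j, h1, -, h3⟩ := hall
          exact ⟨j, h1, h3⟩
        classical
        have hs := Nat.find_spec hex
        have hmin := fun m => Nat.find_min hex (m := m)
        set j := Nat.find hex with hj
        have hj1 : j ≠ 1 := by
          intro h
          apply hs.2
          rw [h]
          have h9 := norm_iteratedFDeriv_one (𝕜 := ℝ) (x := x) f
          rw [hd, norm_zero] at h9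
          exact norm_eq_zero.mp h9
        have hj2 : 2 ≤ j := by
          have := hs.1
          omega
        refine mem_iUnion.mpr ⟨j - 1, hx, hd, ?_, ?_⟩
        · by_contra hne
          exact hmin (j - 1) (by omega) ⟨by omega, hne⟩
        · have : j - 1 + 1 = j := by omega
          rw [this]
          exact hs.2
    refine measure_mono_null (image_mono hcov) ?_
    rw [image_union, image_iUnion, measure_union_null_iff]
    refine ⟨hfl (n + 1) f O hO hf, ?_⟩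
    rw [measure_iUnion_null_iff]
    exact fun k => s3_piece hp ih f O hO hf k

/-- the theorem of Sard from rows S1 and S2 -/
theorem s3_sard (hfl : S3Flat) (hp : S3Param) : SpSard := by
  intro E _ _ _ f O hO hf
  set e : E ≃L[ℝ] EuclideanSpace ℝ (Fin (Module.finrank ℝ E)) := toEuclidean with he
  have h1 := s3_ind hfl hp (Module.finrank ℝ E) (f ∘ e.symm) (e.symm ⁻¹' O)
    (hO.preimage e.symm.continuous) (by
      refine hf.comp e.symm.contDiff.contDiffOn fun y hy => hy)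
  refine measure_mono_null ?_ h1
  rintro _ ⟨x, ⟨hx, hd⟩, rfl⟩
  refine ⟨e x, ⟨by simpa using hx, ?_⟩, by simp⟩
  have e1 : HasFDerivAt f (fderiv ℝ f x) (e.symm (e x)) := by
    rw [e.symm_apply_apply]
    exact ((hf.contDiffAt (hO.mem_nhds hx)).differentiableAt (by simp)).hasFDerivAt
  have e2 := e1.comp (e x) e.symm.hasFDerivAt
  have e3 : fderiv ℝ (f ∘ e.symm) (e x) = (fderiv ℝ f x).comp (e.symm : _ →L[ℝ] E) := e2.fderiv
  rw [e3, hd]
  simp

end Pool.Agent.H35.CR
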