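import Pool.Agent.H35.CR.Sd1
import Pool.Agent.H35.CR.Sd2
import Pool.Agent.H35.CR.Sd3

/-!
# Project CR (MP_d5c4e7_an): the theorem of Sard for smooth real functions
-/

namespace Pool.Agent.H35.CR

theorem spSard : SpSard := s3_sard sd_flat sd_param

end Pool.Agent.H35.CR
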