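import Pool.Agent.H35.CR.Spec

/-!
# Project CR (MP_d5c4e7_an), row C4: the recursion
-/

set_option autoImplicit false

open Complex Set Polynomial
open scoped ContDiff Topology

namespace Pool.Agent.H35.CR

/-- the state of the recursion -/
abbrev C4S : Type := PP × PP × ℕ × ℂ

/-- the properties of the state at time `n` -/
structure C4P (a : ℕ → C2) (r : ℕ → ℝ) (n : ℕ) (s : C4S) : Prop where
  inv : Inv s.1 s.2.1
  norm : ‖s.2.2.2‖ = 1
  sep : (sp (s.1 - Polynomial.C (Polynomial.C s.2.2.2)) 0).Separable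
  dvd : (s.1 - Polynomial.C (Polynomial.C s.2.2.2)) ∣ s.2.1
  hit : (∃ q ∈ Metric.ball (a n) (r n), ‖ev s.1 q‖ = 1) →
    ∃ q ∈ Metric.ball (a n) (r n), ev s.1 q = s.2.2.2

theorem c4_ev_X (p : C2) : ev Polynomial.X p = p 1 := by
  simp [ev, sp]

theorem c4_ev_X_sub (c : ℂ) (p : C2) :
    ev (Polynomial.X - Polynomial.C (Polynomial.C c)) p = p 1 - c := by
  simp [ev, sp]

theorem c4_nice_X : Nice (Polynomial.X : PP) :=
  ⟨1, one_ne_zero, by simp, by simp⟩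

theorem c4_nice_X_sub (c : ℂ) : Nice (Polynomial.X - Polynomial.C (Polynomial.C c) : PP) :=
  ⟨1, one_ne_zero, by
    rw [Polynomial.leadingCoeff_X_sub_C, Polynomial.C_1], by
    rw [Polynomial.natDegree_X_sub_C]⟩

theorem c4_inv_zero (c : ℂ) (hc : ‖c‖ = 1) :
    Inv (Polynomial.X : PP) (Polynomial.X - Polynomial.C (Polynomial.C c)) where
  niceQ := c4_nice_X
  niceT := c4_nice_X_sub c
  deg := by rw [Polynomial.natDegree_X_sub_C, Polynomial.natDegree_X]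
  small := by
    intro R η hη
    refine ⟨η, hη, fun p _ hp => ?_⟩
    rw [c4_ev_X_sub] at hp
    rw [c4_ev_X, ← hc]
    exact (abs_norm_sub_norm_le _ _).trans_lt hp

theorem c4_step (hS : SpStep) (hI : SpInv) (hV : SpVal) (a : ℕ → C2) (r : ℕ → ℝ)
    (hr : ∀ n, 0 < r n) (n : ℕ) (s : C4S) (h : C4P a r n s) :
    ∃ s' : C4S, C4P a r (n + 1) s' ∧ s'.1 = s.1 + hP s.2.1 (n + 1) s'.2.2.1 ∧
      StepEst s.1 s.2.1 (n + 1) s'.2.2.1 ∧ s.2.1 ∣ s'.2.1 := by
  obtain ⟨N, hN⟩ := hS s.1 s.2.1 (n + 1) h.inv (by omega)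
  have hQ : Nice (s.1 + hP s.2.1 (n + 1) N) :=
    (hI s.1 s.2.1 (n + 1) N 1 h.inv hN.pos (by simp)).niceQ
  obtain ⟨c, hc, hsep, hhit⟩ := hV (s.1 + hP s.2.1 (n + 1) N) (a (n + 1)) (r (n + 1)) hQ
    (hr (n + 1))
  refine ⟨(s.1 + hP s.2.1 (n + 1) N,
    s.2.1 * (s.1 + hP s.2.1 (n + 1) N - Polynomial.C (Polynomial.C c)), N, c),
    ⟨hI s.1 s.2.1 (n + 1) N c h.inv hN.pos hc, hc, hsep, Dvd.intro_left _ rfl, hhit⟩,
    rfl, hN, Dvd.intro _ rfl⟩

/-- row C4 -/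
theorem spSeqs (hS : SpStep) (hI : SpInv) (hV : SpVal) : SpSeqs := by
  intro a r hr
  obtain ⟨c₀, hc₀, hsep₀, hhit₀⟩ := hV (Polynomial.X : PP) (a 0) (r 0) c4_nice_X (hr 0)
  choose! g hg using c4_step hS hI hV a r hr
  let s₀ : C4S := (Polynomial.X, Polynomial.X - Polynomial.C (Polynomial.C c₀), 0, c₀)
  have h0 : C4P a r 0 s₀ := ⟨c4_inv_zero c₀ hc₀, hc₀, hsep₀, dvd_rfl, hhit₀⟩
  let f : ℕ → C4S := fun n => Nat.rec s₀ (fun n s => g n s) n
  have hf : ∀ n, C4P a r n (f n) := by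
    intro n
    induction n with
    | zero => exact h0
    | succ n ih => exact (hg n _ ih).1
  refine ⟨fun n => (f n).1, fun n => (f n).2.1, fun n => (f n).2.2.1, fun n => (f n).2.2.2, ?_⟩
  exact
    { zero := rfl
      niceQ := fun n => (hf n).inv.niceQ
      c_norm := fun n => (hf n).norm
      sep := fun n => (hf n).sep
      T_dvd := fun n => (hf n).dvd
      T_dvd' := fun n => (hg n _ (hf n)).2.2.2
      succ := fun n => (hg n _ (hf n)).2.1
      est := fun n => (hg n _ (hf n)).2.2.1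
      hit := fun n _ => (hf n).hit }

end Pool.Agent.H35.CR
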