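import Pool.Agent.H35.CR.Ev

/-!
# Project CR, row C1: the estimates of a step hold for all large exponents
-/

set_option autoImplicit false

open Complex Set Polynomial Filter
open scoped ContDiff Topology

namespace Pool.Agent.H35.CR

theorem c1_bound {F : Type*} [NormedAddCommGroup F] {D : Set C2} (hD : Bornology.IsBounded D)
    {f : C2 → F} (hf : Continuous f) : ∃ C : ℝ, 0 ≤ C ∧ ∀ p ∈ D, ‖f p‖ ≤ C := by
  obtain ⟨R, hR⟩ := hD.subset_closedBall (0 : C2)
  obtain ⟨C, hC⟩ := (isCompact_closedBall (0 : C2) R).exists_bound_of_continuousOn hf.continuousOn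
  exact ⟨max C 0, le_max_right _ _, fun p hp => (hC p (hR hp)).trans (le_max_left _ _)⟩

theorem c1_dm_pos (n : ℕ) : 0 < dm n := by
  unfold dm
  positivity

theorem c1_dm_le (k : ℕ) : dm (k + 1) ≤ 1 / 8 := by
  unfold dm
  have h : (1 / 2 : ℝ) ^ k ≤ 1 := pow_le_one₀ (by norm_num) (by norm_num)
  rw [pow_succ]
  linarith

theorem c1_exp_lt {d : ℝ} (h0 : 0 < d) (h1 : d ≤ 1 / 8) : Real.exp (-(2 * d)) < 1 - d := by
  rw [Real.exp_neg]
  have h2 : 2 * d + 1 ≤ Real.exp (2 * d) := Real.add_one_le_exp _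
  have h3 : 0 < 1 - d := by linarith
  rw [inv_lt_comm₀ (Real.exp_pos _) h3]
  refine lt_of_lt_of_le ?_ h2
  rw [inv_lt_iff_one_lt_mul₀ h3]
  nlinarith

theorem spStep (hD : DmProps) : SpStep := by
  intro Q T n hI hn
  obtain ⟨k, rfl⟩ : ∃ k, n = k + 1 := ⟨n - 1, by omega⟩
  have hkk : k + 1 - 1 = k := by omega
  set d := dm (k + 1) with hd
  have hd0 : 0 < d := c1_dm_pos _
  have hd1 : d ≤ 1 / 8 := c1_dm_le k
  have hq0 : 0 < 1 - d := by linarith
  have hq1 : 1 - d < 1 := by linarith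
  -- bounds
  obtain ⟨R, hR⟩ := (hD.bounded (k + 1)).exists_norm_le
  obtain ⟨CT, hCT0, hCT⟩ := c1_bound (hD.bounded (k + 1)) (ev_continuous T)
  obtain ⟨CQ, hCQ0, hCQ⟩ := c1_bound (hD.bounded (k + 1)) (ev_continuous Q)
  obtain ⟨CdT, hCdT0, hCdT⟩ := c1_bound (hD.bounded (k + 1))
    ((ev_contDiff T (n := 1)).continuous_fderiv (by norm_num))
  obtain ⟨Cdf, hCdf0, hCdf⟩ := c1_bound (hD.bounded (k + 1))
    ((fm_contDiff (k + 1) (n := 1)).continuous_fderiv (by norm_num))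
  obtain ⟨κ, hκ0, hκ⟩ := hI.small R (1 / 12) (by norm_num)
  -- eventual inequalities
  have t1 : Tendsto (fun N : ℕ => (1 - d) ^ N) atTop (𝓝 0) :=
    tendsto_pow_atTop_nhds_zero_of_lt_one hq0.le hq1
  have t1' : Tendsto (fun N : ℕ => (N : ℝ) * (1 - d) ^ N) atTop (𝓝 0) :=
    tendsto_self_mul_const_pow_of_lt_one hq0.le hq1
  have e2 : ∀ᶠ N : ℕ in atTop, CT * (1 - d) ^ N ≤ (1 / 2) ^ (k + 1) / 100 := by
    have := t1.const_mul CT
    rw [mul_zero] at this
    exact this.eventually_le_const (by positivity)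
  have e3 : ∀ᶠ N : ℕ in atTop, (1 - d) ^ N * CdT + CT * (Cdf / (1 - d)) * ((N : ℝ) * (1 - d) ^ N)
      ≤ (1 / 2) ^ (k + 1) := by
    have := (t1.mul_const CdT).add (t1'.const_mul (CT * (Cdf / (1 - d))))
    rw [zero_mul, mul_zero, add_zero] at this
    exact this.eventually_le_const (by positivity)
  have t2 : ∀ c : ℝ, 0 < c → Tendsto (fun N : ℕ => Real.exp (N * c)) atTop atTop := by
    intro c hc
    exact Real.tendsto_exp_atTop.comp (tendsto_natCast_atTop_atTop.atTop_mul_const hc)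
  have e4 : ∀ᶠ N : ℕ in atTop, 10 + CQ ≤ Real.exp (N * ((1 / 2) ^ (k + 1) / 16)) :=
    (t2 _ (by positivity)).eventually_ge_atTop _
  have e5 : ∀ᶠ N : ℕ in atTop, Real.exp (-(2 * d * N)) ≤ κ * (1 - d) ^ N := by
    have hr : Real.exp (-(2 * d)) / (1 - d) < 1 := by
      rw [div_lt_one hq0]
      exact c1_exp_lt hd0 hd1
    have h := tendsto_pow_atTop_nhds_zero_of_lt_one (div_nonneg (Real.exp_pos (-(2 * d))).le hq0.le)
      hr
    filter_upwards [h.eventually_le_const hκ0] with N hN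
    have h2 : Real.exp (-(2 * d * N)) = Real.exp (-(2 * d)) ^ N := by
      rw [← Real.exp_nat_mul]
      congr 1
      ring
    rw [h2]
    rw [div_pow, div_le_iff₀ (pow_pos hq0 N)] at hN
    exact hN
  have e6 : ∀ᶠ N : ℕ in atTop, Real.exp (-(2 * d * N)) ≤ 1 / 6 := by
    have h := (t2 (2 * d) (by positivity)).eventually_ge_atTop 6
    filter_upwards [h] with N hN
    rw [Real.exp_neg, one_div]
    refine inv_anti₀ (by norm_num) ?_
    rwa [mul_comm] at hN
  have e7 : ∀ᶠ N : ℕ in atTop, CT * (1 / 4) ^ N ≤ 1 / 2 := by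
    have h : Tendsto (fun N : ℕ => (1 / 4 : ℝ) ^ N) atTop (𝓝 0) :=
      tendsto_pow_atTop_nhds_zero_of_lt_one (by norm_num) (by norm_num)
    have := h.const_mul CT
    rw [mul_zero] at this
    exact this.eventually_le_const (by norm_num)
  obtain ⟨N, h1, h2, h3, h4, h5, h6, h7⟩ :=
    ((eventually_ge_atTop 2).and (e2.and (e3.and (e4.and (e5.and (e6.and e7)))))).exists
  have hsub : Dm k ⊆ Dm (k + 1) := hD.subset k
  refine ⟨N, ⟨h1, ?_, ?_, ?_, ?_, h6, ?_⟩⟩
  · -- small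
    intro p hp
    rw [hkk] at hp
    have hf := hD.fm_lt k p hp
    rw [hh, norm_mul, norm_pow]
    refine le_trans (mul_le_mul (hCT p (hsub hp)) (pow_le_pow_left₀ (norm_nonneg _) hf.le N)
      (by positivity) hCT0) h2
  · -- deriv
    intro p hp
    rw [hkk] at hp
    have hf := hD.fm_lt k p hp
    have hTd : DifferentiableAt ℂ (ev T) p := ev_differentiable T p
    have hfd : DifferentiableAt ℂ (fm (k + 1)) p :=
      (fm_contDiff (k + 1) (n := 1)).differentiable (by norm_num) p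
    have hder : fderiv ℂ (hh T (k + 1) N) p
        = ev T p • ((N : ℂ) * fm (k + 1) p ^ (N - 1)) • fderiv ℂ (fm (k + 1)) p
          + (fm (k + 1) p ^ N) • fderiv ℂ (ev T) p := by
      have h := hTd.hasFDerivAt.mul (hfd.hasFDerivAt.pow N)
      have h' : HasFDerivAt (hh T (k + 1) N) _ p := h
      rw [h'.fderiv]
      rw [nsmul_eq_mul]
    rw [hder]
    refine (norm_add_le _ _).trans ?_
    rw [norm_smul, norm_smul, norm_smul, norm_mul, norm_pow, norm_pow, Complex.norm_natCast]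
    have hfN : ‖fm (k + 1) p‖ ^ N ≤ (1 - d) ^ N := pow_le_pow_left₀ (norm_nonneg _) hf.le N
    have hfN1 : ‖fm (k + 1) p‖ ^ (N - 1) ≤ (1 - d) ^ (N - 1) :=
      pow_le_pow_left₀ (norm_nonneg _) hf.le _
    have hqN : (1 - d) ^ (N - 1) = (1 - d) ^ N / (1 - d) := by
      obtain ⟨M, rfl⟩ : ∃ M, N = M + 1 := ⟨N - 1, by omega⟩
      rw [Nat.add_sub_cancel, pow_succ]
      field_simp
    have b1 : ‖ev T p‖ * ((N : ℝ) * ‖fm (k + 1) p‖ ^ (N - 1) * ‖fderiv ℂ (fm (k + 1)) p‖)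
        ≤ CT * ((N : ℝ) * (1 - d) ^ (N - 1) * Cdf) := by
      have hp' := hsub hp
      gcongr
      · exact hCT p hp'
      · exact hCdf p hp'
    have b2 : ‖fm (k + 1) p‖ ^ N * ‖fderiv ℂ (ev T) p‖ ≤ (1 - d) ^ N * CdT := by
      have hp' := hsub hp
      gcongr
      exact hCdT p hp'
    refine le_trans (add_le_add b1 b2) (le_trans (le_of_eq ?_) h3)
    rw [hqN]
    field_simp
    ring
  · -- upper
    intro p hp
    exact le_trans (by have := hCQ p hp; linarith) h4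
  · -- lower
    intro p hp hp'
    rw [hkk] at hp'
    by_cases hT : ‖ev T p‖ < κ
    · right
      exact (hκ p (hR p hp) hT).le
    · left
      have hf := hD.fm_ge k p hp hp'
      rw [hh, norm_mul, norm_pow]
      refine h5.trans ?_
      have hT' : κ ≤ ‖ev T p‖ := not_lt.mp hT
      exact mul_le_mul hT' (pow_le_pow_left₀ hq0.le hf N) (by positivity) (norm_nonneg _)
  · -- deep
    intro p hp hf
    rw [hh, norm_mul, norm_pow]
    have b : ‖fm (k + 1) p‖ ^ N ≤ (1 / 16) ^ N := pow_le_pow_left₀ (norm_nonneg _) hf N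
    have b2 : (1 / 16 : ℝ) ^ N = (1 / 4) ^ N * (1 / 4) ^ N := by
      rw [← mul_pow]; norm_num
    calc ‖ev T p‖ * ‖fm (k + 1) p‖ ^ N ≤ CT * ((1 / 4) ^ N * (1 / 4) ^ N) := by
          rw [← b2]
          exact mul_le_mul (hCT p hp) b (by positivity) hCT0
      _ = (CT * (1 / 4) ^ N) * (1 / 4) ^ N := by ring
      _ ≤ 1 / 2 * (1 / 4) ^ N := by
          exact mul_le_mul_of_nonneg_right h7 (by positivity)

end Pool.Agent.H35.CR
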