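import Pool.Agent.H35.CR.Spec

/-!
# Project CR (MP_d5c4e7_an), row D: the bounded strictly psh function by gluing
-/

set_option autoImplicit false

open Complex Set
open scoped ContDiff Topology

namespace Pool.Agent.H35.CR

section

variable {E : Type} [NormedAddCommGroup E] [InnerProductSpace ℂ E]

/-- the building blocks `v_m` -/
noncomputable def d_v (w : ℕ → E → ℝ) (s : ℕ → ℝ) (m : ℕ) (p : E) : ℝ :=
  (1 - (1 / 2) ^ m + w m p) + s m * ‖p‖ ^ 2

open Classical in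
/-- the functions `V_m` -/
noncomputable def d_V (g : ℝ → ℝ) (Δ : ℕ → Set E) (w : ℕ → E → ℝ) (s : ℕ → ℝ) : ℕ → E → ℝ
  | 0 => fun p => s 0 * ‖p‖ ^ 2
  | m + 1 => fun p => if p ∈ Δ m then
      MM g ((1 / 2) ^ (m + 1) / 16) (d_V g Δ w s m p) (d_v w s (m + 1) p)
      else d_v w s (m + 1) p

omit [InnerProductSpace ℂ E] in
theorem d_V_mem {g : ℝ → ℝ} {Δ : ℕ → Set E} {w : ℕ → E → ℝ} {s : ℕ → ℝ} {m : ℕ} {p : E}
    (h : p ∈ Δ m) : d_V g Δ w s (m + 1) p =
      MM g ((1 / 2) ^ (m + 1) / 16) (d_V g Δ w s m p) (d_v w s (m + 1) p) := by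
  simp only [d_V, if_pos h]

omit [InnerProductSpace ℂ E] in
theorem d_V_not {g : ℝ → ℝ} {Δ : ℕ → Set E} {w : ℕ → E → ℝ} {s : ℕ → ℝ} {m : ℕ} {p : E}
    (h : p ∉ Δ m) : d_V g Δ w s (m + 1) p = d_v w s (m + 1) p := by
  simp only [d_V, if_neg h]

theorem d_two {f : E → ℝ} {z : E} (h : ContDiffAt ℝ ∞ f z) : ContDiffAt ℝ 2 f z :=
  h.of_le (WithTop.coe_le_coe.mpr le_top)

theorem d_strict_congr (hL : SpLC) {f f' : E → ℝ} {z : E} (h : f =ᶠ[𝓝 z] f')
    (hf : StrictAt f' z) : StrictAt f z := by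
  intro v hv
  rw [(hL E).congr v h]
  exact hf v hv

theorem d_sq (hN : SpNormSq) (z : E) : ContDiffAt ℝ ∞ (fun w : E => ‖w‖ ^ 2) z :=
  (hN E z 0).1

theorem d_smul_sq_smooth (hN : SpNormSq) (c : ℝ) (z : E) :
    ContDiffAt ℝ ∞ (fun w : E => c * ‖w‖ ^ 2) z :=
  contDiffAt_const.mul (d_sq hN z)

theorem d_smul_sq_levi (hL : SpLC) (hN : SpNormSq) (c : ℝ) (z v : E) :
    levi (fun w : E => c * ‖w‖ ^ 2) z v = c * (4 * ‖v‖ ^ 2) := by
  rw [(hL E).const_mul c v (d_two (d_sq hN z)), (hN E z v).2]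

theorem d_v_smooth (hN : SpNormSq) {w : ℕ → E → ℝ} (hw : ∀ m z, ContDiffAt ℝ ∞ (w m) z)
    (s : ℕ → ℝ) (m : ℕ) (z : E) : ContDiffAt ℝ ∞ (d_v w s m) z := by
  unfold d_v
  exact (contDiffAt_const.add (hw m z)).add (d_smul_sq_smooth hN (s m) z)

theorem d_v_strict (hL : SpLC) (hN : SpNormSq) {w : ℕ → E → ℝ}
    (hw : ∀ m z, ContDiffAt ℝ ∞ (w m) z) (hl : ∀ m z v, 0 ≤ levi (w m) z v)
    {s : ℕ → ℝ} (hs : ∀ m, 0 < s m) (m : ℕ) (z : E) : StrictAt (d_v w s m) z := by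
  intro v hv
  have h1 : levi (d_v w s m) z v =
      levi (fun p => 1 - (1 / 2) ^ m + w m p) z v + levi (fun p => s m * ‖p‖ ^ 2) z v := by
    have h := (hL E).add (f := fun p => 1 - (1 / 2) ^ m + w m p)
      (g := fun p => s m * ‖p‖ ^ 2) (z := z) v
      (d_two (contDiffAt_const.add (hw m z))) (d_two (d_smul_sq_smooth hN (s m) z))
    exact h
  have h2 : levi (fun p => 1 - (1 / 2) ^ m + w m p) z v =
      levi (fun _ : E => (1 : ℝ) - (1 / 2) ^ m) z v + levi (w m) z v :=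
    (hL E).add (f := fun _ : E => (1 : ℝ) - (1 / 2) ^ m) (g := w m) (z := z) v
      (d_two contDiffAt_const) (d_two (hw m z))
  rw [h1, h2, (hL E).const, d_smul_sq_levi hL hN]
  have h3 : 0 < ‖v‖ := norm_pos_iff.mpr hv
  have h4 := hl m z v
  have h5 := hs m
  positivity

end

/-- row D -/
theorem spV (hL : SpLC) (hN : SpNormSq) (hg : SpReg) (hM : SpMMNum) (hP : SpMMPsh) : SpV := by
  intro E _ _ G Δ w hG hΔ hmono hex hbd hw hl hup hlow hdeep
  obtain ⟨g, hgR⟩ := hg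
  have hMN := hM g hgR
  have hMP := hP g hgR E
  -- radii
  have hR : ∀ m, ∃ R : ℝ, 0 < R ∧ ∀ p ∈ Δ m, ‖p‖ ≤ R := by
    intro m
    obtain ⟨R, hR0, hR⟩ := (hbd m).exists_pos_norm_le
    exact ⟨R, hR0, hR⟩
  choose R hR0 hR using hR
  set s : ℕ → ℝ := fun m => (1 / 2) ^ m / (16 * R m ^ 2) with hs_def
  have hs : ∀ m, 0 < s m := by
    intro m
    have := hR0 m
    simp only [hs_def]
    positivity
  have hsq : ∀ m, ∀ p ∈ Δ m, s m * ‖p‖ ^ 2 ≤ (1 / 2) ^ m / 16 := by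
    intro m p hp
    have h1 := hR m p hp
    have h2 := hR0 m
    have h3 : ‖p‖ ^ 2 ≤ R m ^ 2 := by
      have := norm_nonneg p
      nlinarith
    calc s m * ‖p‖ ^ 2 ≤ s m * R m ^ 2 := mul_le_mul_of_nonneg_left h3 (hs m).le
      _ = (1 / 2) ^ m / 16 := by
        simp only [hs_def]
        field_simp
  have hsq0 : ∀ m (p : E), 0 ≤ s m * ‖p‖ ^ 2 := by
    intro m p
    have := hs m
    positivity
  have hb : ∀ m : ℕ, 0 < ((1 : ℝ) / 2) ^ m := fun m => by positivity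
  have hb1 : ∀ m : ℕ, ((1 : ℝ) / 2) ^ m ≤ 1 := fun m =>
    pow_le_one₀ (by norm_num) (by norm_num)
  have hbs : ∀ m : ℕ, ((1 : ℝ) / 2) ^ (m + 1) = (1 / 2) ^ m / 2 := fun m => by
    rw [pow_succ]; ring
  have hmono' : ∀ {k l : ℕ}, k ≤ l → Δ k ⊆ Δ l := fun {k l} h =>
    monotone_nat_of_le_succ hmono h
  set v : ℕ → E → ℝ := d_v w s with hv_def
  set V : ℕ → E → ℝ := d_V g Δ w s with hV_def
  have hVm : ∀ {m : ℕ} {p : E}, p ∈ Δ m →
      V (m + 1) p = MM g ((1 / 2) ^ (m + 1) / 16) (V m p) (v (m + 1) p) := fun {m p} h =>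
    d_V_mem h
  have hVn : ∀ {m : ℕ} {p : E}, p ∉ Δ m → V (m + 1) p = v (m + 1) p := fun {m p} h => d_V_not h
  -- upper bound of v
  have hvup : ∀ m, ∀ p ∈ G, p ∈ Δ (m + 1) → v (m + 1) p ≤ 1 - 7 / 8 * (1 / 2) ^ (m + 1) := by
    intro m p hpG hp
    have h1 := hup m p hpG hp
    have h2 := hsq (m + 1) p hp
    show (1 - (1 / 2) ^ (m + 1) + w (m + 1) p) + s (m + 1) * ‖p‖ ^ 2 ≤ _
    linarith
  have hvlow : ∀ m, ∀ p ∈ G, p ∈ Δ (m + 1) → p ∉ Δ m →
      1 - 3 / 2 * (1 / 2) ^ (m + 1) ≤ v (m + 1) p := by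
    intro m p hpG hp hp'
    have h1 := hlow m p hpG hp hp'
    have h2 := hsq0 (m + 1) p
    show _ ≤ (1 - (1 / 2) ^ (m + 1) + w (m + 1) p) + s (m + 1) * ‖p‖ ^ 2
    linarith
  -- bounds of V
  have hVb : ∀ m, ∀ p ∈ G, p ∈ Δ m → 0 ≤ V m p ∧ V m p ≤ 1 - 13 / 16 * (1 / 2) ^ m := by
    intro m
    induction m with
    | zero =>
      intro p hpG hp
      have h1 := hsq 0 p hp
      have h2 := hsq0 0 p
      have h3 : V 0 p = s 0 * ‖p‖ ^ 2 := rfl
      rw [h3]
      refine ⟨h2, ?_⟩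
      norm_num at h1 ⊢
      linarith
    | succ m ih =>
      intro p hpG hp
      have hbm := hb (m + 1)
      have hbm1 := hb1 m
      have hbm2 := hbs m
      by_cases hpm : p ∈ Δ m
      · obtain ⟨h1, h2⟩ := ih p hpG hpm
        rw [hVm hpm]
        have hγ : (0 : ℝ) < (1 / 2) ^ (m + 1) / 16 := by positivity
        have h3 := hMN.ge_left _ (V m p) (v (m + 1) p) hγ
        have h4 := hMN.le_max _ (V m p) (v (m + 1) p) hγ
        have h5 := hvup m p hpG hp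
        refine ⟨le_trans h1 h3, le_trans h4 ?_⟩
        have h6 : max (V m p) (v (m + 1) p) ≤ 1 - 7 / 8 * (1 / 2) ^ (m + 1) := by
          apply max_le _ h5
          refine le_trans h2 ?_
          linarith
        linarith
      · rw [hVn hpm]
        have h5 := hvup m p hpG hp
        have h6 := hvlow m p hpG hp hpm
        refine ⟨?_, ?_⟩
        · linarith
        · linarith
  -- smoothness and strictness
  have hvs : ∀ m z, ContDiffAt ℝ ∞ (v m) z := d_v_smooth hN hw s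
  have hvst : ∀ m z, StrictAt (v m) z := d_v_strict hL hN hw hl hs
  have hVs : ∀ m, ∀ p ∈ G, p ∈ Δ m → ContDiffAt ℝ ∞ (V m) p ∧ StrictAt (V m) p := by
    intro m
    induction m with
    | zero =>
      intro p hpG hp
      have h3 : V 0 = fun p => s 0 * ‖p‖ ^ 2 := rfl
      rw [h3]
      refine ⟨d_smul_sq_smooth hN (s 0) p, ?_⟩
      intro u hu
      rw [d_smul_sq_levi hL hN]
      have h3 : 0 < ‖u‖ := norm_pos_iff.mpr hu
      have h5 := hs 0
      positivity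
    | succ m ih =>
      intro p hpG hp
      have hγ : (0 : ℝ) < (1 / 2) ^ (m + 1) / 16 := by positivity
      by_cases hpm : p ∈ Δ m
      · obtain ⟨h1, h2⟩ := ih p hpG hpm
        have h3 : V (m + 1) =ᶠ[𝓝 p]
            fun q => MM g ((1 / 2) ^ (m + 1) / 16) (V m q) (v (m + 1) q) := by
          filter_upwards [(hΔ m).mem_nhds hpm] with q hq
          exact hVm hq
        refine ⟨(hMP.smooth _ _ _ p hγ h1 (hvs (m + 1) p)).congr_of_eventuallyEq h3, ?_⟩
        exact d_strict_congr hL h3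
          (hMP.strict _ _ _ p hγ (d_two h1) (d_two (hvs (m + 1) p)) h2 (hvst (m + 1) p))
      · have h6 := hvlow m p hpG hp hpm
        have hc : ContinuousAt (v (m + 1)) p := (hvs (m + 1) p).continuousAt
        have h7 : ∀ᶠ q in 𝓝 p, 1 - 3 / 2 * (1 / 2) ^ (m + 1) - (1 / 2) ^ (m + 1) / 16 <
            v (m + 1) q := by
          apply hc.eventually_const_lt
          have := hb (m + 1)
          linarith
        have h3 : V (m + 1) =ᶠ[𝓝 p] v (m + 1) := by
          filter_upwards [h7, hG.mem_nhds hpG] with q hq hqG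
          by_cases hqm : q ∈ Δ m
          · rw [hVm hqm]
            apply hMN.eq_right _ _ _ hγ
            have h8 := (hVb m q hqG hqm).2
            have h9 := hbs m
            linarith
          · exact hVn hqm
        exact ⟨(hvs (m + 1) p).congr_of_eventuallyEq h3, d_strict_congr hL h3 (hvst (m + 1) p)⟩
  -- V is locally eventually constant
  have hst : ∀ k, ∀ p ∈ G, p ∈ Δ k → ∀ j, k ≤ j → V (j + 3) p = V (j + 2) p := by
    intro k p hpG hp j hj
    have hpj : p ∈ Δ j := hmono' hj hp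
    have hpj2 : p ∈ Δ (j + 2) := hmono' (by omega) hpj
    have hpj3 : p ∈ Δ (j + 3) := hmono' (by omega) hpj
    have h1 : V (j + 3) p = _ := hVm hpj2
    rw [h1]
    have hγ : (0 : ℝ) < (1 / 2) ^ (j + 2 + 1) / 16 := by positivity
    apply hMN.eq_left _ _ _ hγ
    have h2 := (hVb (j + 2) p hpG hpj2).1
    have h3 := hdeep j p hpG hpj
    have h4 := hsq (j + 3) p hpj3
    have h5 := hb (j + 3)
    have h6 := hb1 (j + 3)
    have h7 : v (j + 2 + 1) p = (1 - (1 / 2) ^ (j + 3) + w (j + 3) p) + s (j + 3) * ‖p‖ ^ 2 := rfl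
    rw [h7]
    show (1 / 2) ^ (j + 3) / 16 ≤ _
    linarith
  have hst2 : ∀ k, ∀ p ∈ G, p ∈ Δ k → ∀ i, V (k + 2 + i) p = V (k + 2) p := by
    intro k p hpG hp i
    induction i with
    | zero => rfl
    | succ i ih =>
      rw [← ih]
      have := hst k p hpG hp (k + i) (by omega)
      have e1 : k + 2 + (i + 1) = k + i + 3 := by omega
      have e2 : k + 2 + i = k + i + 2 := by omega
      rw [e1, e2]
      exact this
  choose κ hκ using hex
  refine ⟨fun p => V (κ p + 2) p, ?_, ?_, ?_⟩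
  all_goals
    have key : ∀ k, ∀ p ∈ G, p ∈ Δ k → V (κ p + 2) p = V (k + 2) p := by
      intro k p hpG hp
      have h1 := hst2 k p hpG hp (κ p)
      have h2 := hst2 (κ p) p hpG (hκ p) k
      have e1 : k + 2 + κ p = κ p + 2 + k := by omega
      rw [← h1, ← h2, e1]
    have key2 : ∀ k, ∀ p ∈ G, p ∈ Δ k → (fun p => V (κ p + 2) p) =ᶠ[𝓝 p] V (k + 2) := by
      intro k p hpG hp
      filter_upwards [(hΔ k).mem_nhds hp, hG.mem_nhds hpG] with q hq hqG
      exact key k q hqG hq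
  · intro p hpG
    have h2 : p ∈ Δ (κ p + 2) := hmono' (by omega) (hκ p)
    exact ((hVs (κ p + 2) p hpG h2).1.congr_of_eventuallyEq
      (key2 (κ p) p hpG (hκ p))).contDiffWithinAt
  · intro p hpG
    have h2 : p ∈ Δ (κ p + 2) := hmono' (by omega) (hκ p)
    exact d_strict_congr hL (key2 (κ p) p hpG (hκ p)) (hVs (κ p + 2) p hpG h2).2
  · intro p hpG
    have h2 : p ∈ Δ (κ p + 2) := hmono' (by omega) (hκ p)
    obtain ⟨h3, h4⟩ := hVb (κ p + 2) p hpG h2
    refine ⟨h3, le_trans h4 ?_⟩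
    have := hb (κ p + 2)
    linarith

end Pool.Agent.H35.CR
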