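import Pool.Agent.H35.CR.Ev

/-!
# Project CR, row C3: the choice of the value
-/

set_option autoImplicit false

open Complex Set Polynomial
open scoped ContDiff Topology

namespace Pool.Agent.H35.CR

/-- points of the unit circle near a given point, outside a finite set -/
theorem c3_circle (B : Set ℂ) (hB : B.Finite) (c₀ : ℂ) (h0 : ‖c₀‖ = 1) (V : Set ℂ)
    (hV : V ∈ 𝓝 c₀) : ∃ c ∈ V, ‖c‖ = 1 ∧ c ∉ B := by
  let g : ℝ → ℂ := fun t => c₀ * Complex.exp (t * I)
  have hg : Continuous g := by fun_prop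
  have hg0 : g 0 = c₀ := by simp [g]
  have hgn : ∀ t, ‖g t‖ = 1 := by
    intro t
    simp only [g]
    rw [norm_mul, h0, Complex.norm_exp_ofReal_mul_I, one_mul]
  have h1 : g ⁻¹' V ∈ 𝓝 (0 : ℝ) := hg.continuousAt.preimage_mem_nhds (by rwa [hg0])
  obtain ⟨δ, hδ, hball⟩ := Metric.mem_nhds_iff.mp h1
  set ε := min δ 1 with hε
  have hεpos : 0 < ε := lt_min hδ one_pos
  have hinj : InjOn g (Ioo (0 : ℝ) ε) := by
    intro s hs t ht hst
    have hc : c₀ ≠ 0 := by
      intro h
      rw [h] at h0
      simp at h0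
    have h2 : Complex.exp (s * I) = Complex.exp (t * I) := mul_left_cancel₀ hc hst
    have hb : ∀ u ∈ Ioo (0 : ℝ) ε, -Real.pi < ((u : ℂ) * I).im ∧ ((u : ℂ) * I).im ≤ Real.pi := by
      intro u hu
      have h3 : ((u : ℂ) * I).im = u := by simp
      rw [h3]
      have h4 : u < 1 := hu.2.trans_le (min_le_right _ _)
      have h5 := Real.pi_gt_three
      exact ⟨by linarith [hu.1], by linarith⟩
    have h6 := Complex.exp_inj_of_neg_pi_lt_of_le_pi (hb s hs).1 (hb s hs).2 (hb t ht).1
      (hb t ht).2 h2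
    have h7 := mul_right_cancel₀ Complex.I_ne_zero h6
    exact_mod_cast h7
  have h8 : (g '' (Ioo (0 : ℝ) ε)).Infinite := (Ioo_infinite hεpos).image hinj
  obtain ⟨c, hc, hcB⟩ := (h8.sdiff hB).nonempty
  obtain ⟨t, ht, rfl⟩ := hc
  refine ⟨g t, ?_, hgn t, hcB⟩
  apply hball
  rw [Metric.mem_ball, dist_zero_right, Real.norm_of_nonneg ht.1.le]
  exact ht.2.trans_le (min_le_left _ _)

/-- the critical values of a polynomial -/
theorem c3_crit (p : Polynomial ℂ) (hp : 1 ≤ p.natDegree) : ∃ B : Set ℂ, B.Finite ∧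
    ∀ c ∉ B, (p - Polynomial.C c).Separable := by
  have hd : Polynomial.derivative p ≠ 0 := by
    intro h
    have := Polynomial.natDegree_eq_zero_of_derivative_eq_zero h
    omega
  refine ⟨(fun s => p.eval s) '' {s | (Polynomial.derivative p).IsRoot s}, ?_, ?_⟩
  · apply Set.Finite.image
    exact Polynomial.finite_setOfPred_isRoot hd
  · intro c hc
    rw [Polynomial.Separable, Polynomial.isCoprime_iff_aeval_ne_zero_of_isAlgClosed ℂ ℂ]
    intro s
    by_contra hcon
    push Not at hcon
    obtain ⟨h1, h2⟩ := hcon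
    apply hc
    refine ⟨s, ?_, ?_⟩
    · simpa using h2
    · have h3 : p.eval s - c = 0 := by simpa using h1
      exact sub_eq_zero.mp h3

theorem spVal : SpVal := by
  intro Q a r hQ hr
  obtain ⟨k, hk, hlead, hdeg⟩ := hQ
  obtain ⟨hn0, -, -⟩ := nice_sp hlead hk 0
  obtain ⟨B, hB, hsep⟩ := c3_crit (sp Q 0) (by rw [hn0]; exact hdeg)
  have key : ∀ c ∉ B, (sp (Q - Polynomial.C (Polynomial.C c)) 0).Separable := by
    intro c hc
    rw [sp_sub, sp_CC]
    exact hsep c hc
  by_cases hex : ∃ q ∈ Metric.ball a r, ‖ev Q q‖ = 1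
  · obtain ⟨q, hq, hq1⟩ := hex
    set p := sp Q (q 0) with hp
    obtain ⟨hnp, -, -⟩ := nice_sp hlead hk (q 0)
    have han : AnalyticAt ℂ (fun y => p.eval y) (q 1) := by
      have : Differentiable ℂ (fun y => p.eval y) := p.differentiable
      exact this.analyticAt _
    have hq2 : ev Q q = p.eval (q 1) := rfl
    rcases han.eventually_constant_or_nhds_le_map_nhds with hconst | hopen
    · exfalso
      have h1 : Polynomial.natDegree (p - Polynomial.C (p.eval (q 1))) = p.natDegree := by
        simp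
      have h2 : p - Polynomial.C (p.eval (q 1)) ≠ 0 := by
        intro h
        rw [h] at h1
        simp only [Polynomial.natDegree_zero] at h1
        rw [hp, hnp] at h1
        omega
      have h3 := Polynomial.finite_setOfPred_isRoot h2
      have h4 : {y | (p - Polynomial.C (p.eval (q 1))).IsRoot y} ∈ 𝓝 (q 1) := by
        filter_upwards [hconst] with y hy
        show Polynomial.eval y (p - Polynomial.C (p.eval (q 1))) = 0
        simp [hy]
      exact infinite_of_mem_nhds (q 1) h4 h3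
    · have hU : {y : ℂ | (!₂[q 0, y] : C2) ∈ Metric.ball a r} ∈ 𝓝 (q 1) := by
        have hc : Continuous fun y : ℂ => (!₂[q 0, y] : C2) := by fun_prop
        apply hc.continuousAt.preimage_mem_nhds
        have : (!₂[q 0, q 1] : C2) = q := by
          ext i
          fin_cases i <;> rfl
        rw [this]
        exact Metric.isOpen_ball.mem_nhds hq
      have hV : (fun y => p.eval y) '' {y : ℂ | (!₂[q 0, y] : C2) ∈ Metric.ball a r} ∈
          𝓝 (ev Q q) := by
        rw [hq2]
        exact hopen (Filter.image_mem_map hU)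
      obtain ⟨c, ⟨y, hy, hyc⟩, hc1, hcB⟩ := c3_circle B hB (ev Q q) hq1 _ hV
      refine ⟨c, hc1, key c hcB, fun _ => ⟨!₂[q 0, y], hy, ?_⟩⟩
      rw [← hyc]
      rfl
  · obtain ⟨c, -, hc1, hcB⟩ := c3_circle B hB 1 (by simp) univ Filter.univ_mem
    exact ⟨c, hc1, key c hcB, fun h => absurd h hex⟩

end Pool.Agent.H35.CR
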