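import Pool.Agent.H35.CR.Ev

/-!
# Project CR, row C6: the estimates for `w_n`
-/

set_option autoImplicit false

open Complex Set Polynomial
open scoped ContDiff Topology

namespace Pool.Agent.H35.CR

theorem c6_gw {W : C2 → ℂ} {p : C2} (hp : p ∈ GW W) :
    ‖W p‖ < 8 ∧ 1 / 3 ≤ |‖W p‖ - 1| := by
  obtain ⟨h0, h1, h2⟩ := hp
  have hpos : 0 < ‖W p‖ := norm_pos_iff.mpr h0
  have hexp : Real.exp (Real.log ‖W p‖) = ‖W p‖ := Real.exp_log hpos
  constructor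
  · have h3 : Real.log ‖W p‖ < 2 := (abs_lt.mp h2).2
    have h4 : ‖W p‖ < Real.exp 2 := by
      rw [← hexp]
      exact Real.exp_lt_exp.mpr h3
    have h5 : Real.exp 2 = Real.exp 1 * Real.exp 1 := by
      rw [← Real.exp_add]
      norm_num
    have h6 := Real.exp_one_lt_d9
    have h7 := Real.exp_pos 1
    nlinarith
  · have h8 : (3 : ℝ) / 2 ≤ Real.exp (1 / 2) := by
      have := Real.add_one_le_exp (1 / 2 : ℝ)
      linarith
    rcases lt_abs.mp h1 with h | h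
    · have h9 : Real.exp (1 / 2) < ‖W p‖ := by
        rw [← hexp]
        exact Real.exp_lt_exp.mpr h
      rw [abs_of_nonneg (by linarith)]
      linarith
    · have h9 : ‖W p‖ < Real.exp (-(1 / 2)) := by
        rw [← hexp]
        exact Real.exp_lt_exp.mpr (by linarith)
      have h10 : Real.exp (-(1 / 2)) ≤ 2 / 3 := by
        rw [Real.exp_neg, inv_le_comm₀ (Real.exp_pos _) (by norm_num)]
        norm_num
        exact h8
      rw [abs_of_nonpos (by linarith)]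
      linarith

theorem c6_hh {a : ℕ → C2} {r : ℕ → ℝ} {Q T : ℕ → PP} {N : ℕ → ℕ} {c : ℕ → ℂ}
    (hS : Seqs a r Q T N c) (m : ℕ) (p : C2) :
    hh (T m) (m + 1) (N (m + 1)) p = ev (Q (m + 1)) p - ev (Q m) p := by
  rw [hS.succ m, ev_add, ev_hP]
  ring

theorem spWn (hD : DmProps) : SpWn := by
  intro a r Q T N c W hS hW
  refine ⟨?_, ?_, ?_⟩
  · intro m p hp hpm
    have hE := hS.est m
    have hN : 2 ≤ N (m + 1) := hE.pos
    have hNR : (2 : ℝ) ≤ N (m + 1) := by exact_mod_cast hN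
    obtain ⟨hW8, _⟩ := c6_gw hp
    have hnear := hW.near (m + 1) p hpm
    have hpow : (1 / 2 : ℝ) ^ (m + 1) ≤ 1 := pow_le_one₀ (by norm_num) (by norm_num)
    have h1 : ‖ev (Q (m + 1)) p‖ ≤ 8 + 1 / 100 := by
      have h2 : ‖ev (Q (m + 1)) p‖ ≤ ‖W p‖ + ‖W p - ev (Q (m + 1)) p‖ := by
        have := norm_sub_le (W p) (W p - ev (Q (m + 1)) p)
        rwa [sub_sub_cancel] at this
      linarith
    have h3 : ‖hh (T m) (m + 1) (N (m + 1)) p‖ ≤ 8 + 1 / 100 + ‖ev (Q m) p‖ := by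
      rw [c6_hh hS]
      exact (norm_sub_le _ _).trans (by linarith)
    have h4 : (1 / 16 : ℝ) ^ (N (m + 1)) ≤ 1 := pow_le_one₀ (by norm_num) (by norm_num)
    have h4' : (0 : ℝ) < (1 / 16 : ℝ) ^ (N (m + 1)) := by positivity
    have hup := hE.upper p hpm
    set q := ‖ev (Q m) p‖ with hq
    have hq0 : 0 ≤ q := norm_nonneg _
    have h5 : ‖hh (T m) (m + 1) (N (m + 1)) p‖ ^ 2 + (1 / 16 : ℝ) ^ (N (m + 1)) / 2 ≤
        Real.exp (N (m + 1) * ((1 / 2) ^ (m + 1) / 16)) ^ 2 := by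
      have h6 : ‖hh (T m) (m + 1) (N (m + 1)) p‖ ^ 2 ≤ (8 + 1 / 100 + q) ^ 2 :=
        pow_le_pow_left₀ (norm_nonneg _) h3 2
      have h7 : (10 + q) ^ 2 ≤ Real.exp (N (m + 1) * ((1 / 2) ^ (m + 1) / 16)) ^ 2 :=
        pow_le_pow_left₀ (by positivity) hup 2
      nlinarith
    have h8 : Real.log (‖hh (T m) (m + 1) (N (m + 1)) p‖ ^ 2 + (1 / 16 : ℝ) ^ (N (m + 1)) / 2) ≤
        2 * (N (m + 1) * ((1 / 2) ^ (m + 1) / 16)) := by
      have h9 := Real.log_le_log (by positivity) h5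
      rwa [Real.log_pow, Real.log_exp, Nat.cast_ofNat] at h9
    have h10 : wn T N (m + 1) p = 1 / (2 * N (m + 1)) *
        Real.log (‖hh (T m) (m + 1) (N (m + 1)) p‖ ^ 2 + (1 / 16 : ℝ) ^ (N (m + 1)) / 2) := rfl
    rw [h10]
    calc 1 / (2 * (N (m + 1) : ℝ)) *
        Real.log (‖hh (T m) (m + 1) (N (m + 1)) p‖ ^ 2 + (1 / 16 : ℝ) ^ (N (m + 1)) / 2)
        ≤ 1 / (2 * (N (m + 1) : ℝ)) * (2 * (N (m + 1) * ((1 / 2) ^ (m + 1) / 16))) :=
          mul_le_mul_of_nonneg_left h8 (by positivity)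
      _ = (1 / 2) ^ (m + 1) / 16 := by field_simp
  · intro m p hp hpm hpm'
    have hE := hS.est m
    have hN : 2 ≤ N (m + 1) := hE.pos
    have hNR : (2 : ℝ) ≤ N (m + 1) := by exact_mod_cast hN
    obtain ⟨_, hW1⟩ := c6_gw hp
    have hnear := hW.near (m + 1) p hpm
    have hpow : (1 / 2 : ℝ) ^ (m + 1) ≤ 1 := pow_le_one₀ (by norm_num) (by norm_num)
    have h1 : Real.exp (-(2 * dm (m + 1) * N (m + 1))) ≤ ‖hh (T m) (m + 1) (N (m + 1)) p‖ := by
      rcases hE.lower p hpm (by simpa using hpm') with h | h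
      · exact h
      · refine hE.num.trans ?_
        rw [c6_hh hS]
        have h2 : |‖ev (Q (m + 1)) p‖ - ‖ev (Q m) p‖| ≤ ‖ev (Q (m + 1)) p - ev (Q m) p‖ :=
          abs_norm_sub_norm_le _ _
        have h3 : |‖W p‖ - ‖ev (Q (m + 1)) p‖| ≤ ‖W p - ev (Q (m + 1)) p‖ :=
          abs_norm_sub_norm_le _ _
        have h4 : |‖W p‖ - 1| ≤ |‖W p‖ - ‖ev (Q (m + 1)) p‖| +
            |‖ev (Q (m + 1)) p‖ - ‖ev (Q m) p‖| + |‖ev (Q m) p‖ - 1| := by
          have e : ‖W p‖ - 1 = (‖W p‖ - ‖ev (Q (m + 1)) p‖) +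
            (‖ev (Q (m + 1)) p‖ - ‖ev (Q m) p‖) + (‖ev (Q m) p‖ - 1) := by ring
          calc |‖W p‖ - 1| = |(‖W p‖ - ‖ev (Q (m + 1)) p‖) +
            (‖ev (Q (m + 1)) p‖ - ‖ev (Q m) p‖) + (‖ev (Q m) p‖ - 1)| := by rw [← e]
            _ ≤ _ := abs_add_three _ _ _
        linarith
    have h5 : Real.exp (-(2 * dm (m + 1) * N (m + 1))) ^ 2 ≤
        ‖hh (T m) (m + 1) (N (m + 1)) p‖ ^ 2 + (1 / 16 : ℝ) ^ (N (m + 1)) / 2 := by
      have h6 := pow_le_pow_left₀ (Real.exp_nonneg _) h1 2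
      have h7 : (0 : ℝ) < (1 / 16 : ℝ) ^ (N (m + 1)) := by positivity
      linarith
    have h8 := Real.log_le_log (pow_pos (Real.exp_pos _) 2) h5
    rw [Real.log_pow, Real.log_exp, Nat.cast_ofNat] at h8
    have h10 : wn T N (m + 1) p = 1 / (2 * N (m + 1)) *
        Real.log (‖hh (T m) (m + 1) (N (m + 1)) p‖ ^ 2 + (1 / 16 : ℝ) ^ (N (m + 1)) / 2) := rfl
    rw [h10]
    calc -((1 / 2 : ℝ) ^ (m + 1) / 2)
        = 1 / (2 * (N (m + 1) : ℝ)) * (2 * -(2 * dm (m + 1) * N (m + 1))) := by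
          rw [dm]
          field_simp
          norm_num
      _ ≤ _ := mul_le_mul_of_nonneg_left h8 (by positivity)
  · intro m p hp hpm
    have hE := hS.est (m + 2)
    have hN : 2 ≤ N (m + 3) := hE.pos
    have hNR : (2 : ℝ) ≤ N (m + 3) := by exact_mod_cast hN
    have hsub : p ∈ Dm (m + 3) := hD.subset _ (hD.subset _ (hD.subset _ hpm))
    have h1 : ‖hh (T (m + 2)) (m + 3) (N (m + 3)) p‖ ≤ (1 / 2) * (1 / 4) ^ (N (m + 3)) :=
      hE.deep p hsub (hD.fm_small m p hpm)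
    have h4' : (0 : ℝ) < (1 / 16 : ℝ) ^ (N (m + 3)) := by positivity
    have h2 : ‖hh (T (m + 2)) (m + 3) (N (m + 3)) p‖ ^ 2 + (1 / 16 : ℝ) ^ (N (m + 3)) / 2 ≤
        (1 / 16 : ℝ) ^ (N (m + 3)) := by
      have h3 := pow_le_pow_left₀ (norm_nonneg _) h1 2
      have h5 : ((1 / 2 : ℝ) * (1 / 4) ^ (N (m + 3))) ^ 2 = 1 / 4 * (1 / 16) ^ (N (m + 3)) := by
        rw [mul_pow, ← pow_mul, mul_comm (N (m + 3)) 2, pow_mul]
        norm_num
      rw [h5] at h3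
      linarith
    have h6 := Real.log_le_log (by positivity) h2
    have h7 : Real.log ((1 / 16 : ℝ) ^ (N (m + 3))) = N (m + 3) * -(4 * Real.log 2) := by
      rw [Real.log_pow]
      congr 1
      rw [one_div, Real.log_inv, show (16 : ℝ) = 2 ^ 4 by norm_num, Real.log_pow]
      norm_num
    rw [h7] at h6
    have h8 := Real.log_two_gt_d9
    have h10 : wn T N (m + 3) p = 1 / (2 * N (m + 3)) *
        Real.log (‖hh (T (m + 2)) (m + 3) (N (m + 3)) p‖ ^ 2 +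
          (1 / 16 : ℝ) ^ (N (m + 3)) / 2) := rfl
    rw [h10]
    calc _ ≤ 1 / (2 * (N (m + 3) : ℝ)) * (N (m + 3) * -(4 * Real.log 2)) :=
          mul_le_mul_of_nonneg_left h6 (by positivity)
      _ = -(2 * Real.log 2) := by
          field_simp
          norm_num
      _ ≤ -(5 / 4) := by linarith

end Pool.Agent.H35.CR
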