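import Pool.Agent.H35.CR.Fin
import Pool.Agent.H35.CR.Bd
import Pool.Agent.H35.CR.Bid
import Pool.Agent.H35.CR.Cdn
import Pool.Agent.H35.CR.Cor
import Pool.Agent.H35.CR.Crv
import Pool.Agent.H35.CR.Dns
import Pool.Agent.H35.CR.Ivr
import Pool.Agent.H35.CR.Lev1
import Pool.Agent.H35.CR.Lev2
import Pool.Agent.H35.CR.Lev3
import Pool.Agent.H35.CR.Lim
import Pool.Agent.H35.CR.Lio
import Pool.Agent.H35.CR.Phi
import Pool.Agent.H35.CR.Reg1
import Pool.Agent.H35.CR.Reg2
import Pool.Agent.H35.CR.Rts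
import Pool.Agent.H35.CR.Sard
import Pool.Agent.H35.CR.Seq
import Pool.Agent.H35.CR.Stp
import Pool.Agent.H35.CR.VV
import Pool.Agent.H35.CR.Val
import Pool.Agent.H35.CR.WW
import Pool.Agent.H35.CR.Wes

/-!
# Project CR: the theorem
-/

set_option autoImplicit false

namespace Pool.Agent.H35.CR

theorem cr_spCurve : SpCurve := spCurve lc spComp spRoots (spLiou1 lc) spCurveDense spOpen

theorem cr_spW : SpW :=
  spW dmProps (spSeqs (spStep dmProps) spInv spVal) (spLim dmProps) (spWn dmProps)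
    (spDense dmProps) spLogC lc

theorem cr_spV : SpV := spV lc spNormSq spReg spMMNum (spMMPsh lc)

theorem cr_spPhi : SpPhi := spPhi lc spLogC spReg spMMNum (spMMPsh lc)

theorem cr_spCore : SpCore := spCore lc cr_spCurve spOpen

/-- the final theorem -/
theorem spFinal : SpFinal :=
  spFinal_of dmProps cr_spW cr_spV cr_spPhi spSard spBd cr_spCore

end Pool.Agent.H35.CR
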