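import Pool.Agent.H35.CR.Spec

/-!
# Row CR-B1: the roots of a polynomial over `ℂ[x]` are locally analytic functions
-/

set_option autoImplicit false

open Complex Set Polynomial
open scoped ContDiff Topology

namespace Pool.Agent.H35.CR

theorem b1_natDegree_sp (F : PP) (hF : Nice F) (x : ℂ) :
    (sp F x).natDegree = F.natDegree := by
  obtain ⟨c, hc, hlc, -⟩ := hF
  refine Polynomial.natDegree_map_of_leadingCoeff_ne_zero _ ?_
  rw [hlc]
  simpa using hc

theorem b1_derivative_sp (F : PP) (x : ℂ) :
    derivative (sp F x) = sp (derivative F) x := by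
  simp only [sp, Polynomial.derivative_map]

/-- the resultant of `F` and `F'` -/
noncomputable def b1_res (F : PP) : ℂ[X] := resultant F (derivative F)

theorem b1_eval_res (F : PP) (hF : Nice F) (x : ℂ) :
    (b1_res F).eval x = resultant (sp F x) (derivative (sp F x)) := by
  have h1 : (sp F x).natDegree = F.natDegree := b1_natDegree_sp F hF x
  have h2 : (derivative (sp F x)).natDegree = (derivative F).natDegree := by
    rw [Polynomial.natDegree_derivative, Polynomial.natDegree_derivative, h1]
  have h3 : (b1_res F).eval x = (Polynomial.evalRingHom x) (b1_res F) := rfl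
  rw [h3, b1_res, ← Polynomial.resultant_map_map]
  change resultant (sp F x) (sp (derivative F) x) _ _ = _
  rw [← b1_derivative_sp, h1, h2]

theorem b1_sep_iff (F : PP) (hF : Nice F) (x : ℂ) :
    (sp F x).Separable ↔ (b1_res F).eval x ≠ 0 := by
  rw [b1_eval_res F hF x, Ne, Polynomial.resultant_eq_zero_iff, Polynomial.separable_def]
  have h0 : sp F x ≠ 0 := by
    intro h
    have h1 := b1_natDegree_sp F hF x
    obtain ⟨c, hc, hlc, hd⟩ := hF
    rw [h] at h1
    simp at h1
    omega
  constructor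
  · rintro h ⟨-, h'⟩
    exact h' h
  · intro h
    by_contra h'
    exact h ⟨Or.inl h0, h'⟩

theorem b1_contDiff (F : PP) : ContDiff ℂ ω (fun p : ℂ × ℂ => (sp F p.1).eval p.2) := by
  have h1 : ∀ p : ℂ × ℂ, (sp F p.1).eval p.2 =
      ∑ i ∈ Finset.range (F.natDegree + 1), (F.coeff i).eval p.1 * p.2 ^ i := by
    intro p
    have h0 : (sp F p.1).natDegree < F.natDegree + 1 :=
      lt_of_le_of_lt Polynomial.natDegree_map_le (Nat.lt_succ_self _)
    rw [Polynomial.eval_eq_sum_range' h0]
    refine Finset.sum_congr rfl fun i _ => ?_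
    simp [sp, Polynomial.coeff_map]
  simp only [h1]
  refine ContDiff.sum fun i _ => ?_
  refine ContDiff.mul ?_ (contDiff_snd.pow i)
  have h2 : ContDiff ℂ ω (fun x : ℂ => (F.coeff i).eval x) := by
    have := Polynomial.contDiff_aeval (R := ℂ) (𝕜 := ℂ) (F.coeff i) ω
    simpa using this
  exact h2.comp contDiff_fst

/-- the implicit function theorem for the curve -/
theorem b1_ift (F : PP) (x₀ y₀ : ℂ) (h0 : (sp F x₀).eval y₀ = 0)
    (h1 : (derivative (sp F x₀)).eval y₀ ≠ 0) :
    ∃ s : ℂ → ℂ, AnalyticAt ℂ s x₀ ∧ s x₀ = y₀ ∧ ∀ᶠ x in 𝓝 x₀, (sp F x).eval (s x) = 0 := by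
  set f : ℂ × ℂ → ℂ := fun p => (sp F p.1).eval p.2 with hf
  have cdf : ContDiffAt ℂ ω f (x₀, y₀) := (b1_contDiff F).contDiffAt
  have hd : HasFDerivAt f (fderiv ℂ f (x₀, y₀)) (x₀, y₀) :=
    (cdf.differentiableAt (by simp)).hasFDerivAt
  have hinr : (fderiv ℂ f (x₀, y₀) ∘L .inr ℂ ℂ ℂ) 1 = (derivative (sp F x₀)).eval y₀ := by
    have h2 : HasFDerivAt (fun y : ℂ => (x₀, y)) (ContinuousLinearMap.inr ℂ ℂ ℂ) y₀ :=
      hasFDerivAt_prodMk_right x₀ y₀
    have h3 : HasFDerivAt (fun y : ℂ => f (x₀, y)) (fderiv ℂ f (x₀, y₀) ∘L .inr ℂ ℂ ℂ) y₀ :=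
      HasFDerivAt.comp y₀ hd h2
    have h4 : HasDerivAt (fun y : ℂ => f (x₀, y)) ((derivative (sp F x₀)).eval y₀) y₀ :=
      (sp F x₀).hasDerivAt y₀
    exact h3.hasDerivAt.unique h4
  have if₂ : (fderiv ℂ f (x₀, y₀) ∘L .inr ℂ ℂ ℂ).IsInvertible := by
    set L := fderiv ℂ f (x₀, y₀) ∘L .inr ℂ ℂ ℂ with hL
    set a := (derivative (sp F x₀)).eval y₀ with ha
    refine ⟨ContinuousLinearEquiv.unitsEquivAut ℂ (Units.mk0 a h1), ?_⟩
    ext
    simp [hinr]
  refine ⟨cdf.implicitFunction (by simp) if₂, ?_, ?_, ?_⟩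
  · exact (cdf.contDiffAt_implicitFunction (by simp) if₂).analyticAt
  · exact cdf.implicitFunction_apply_self (by simp) if₂
  · filter_upwards [cdf.eventually_apply_implicitFunction (by simp) if₂] with x hx
    have : f (x, cdf.implicitFunction (by simp) if₂ x) = 0 := by
      rw [hx]; exact h0
    exact this

/-- row B1 -/
theorem spRoots : SpRoots := by
  intro F hF h0
  refine ⟨{x | (b1_res F).eval x = 0}, ?_, ?_⟩
  · have hne : b1_res F ≠ 0 := by
      intro h
      have := (b1_sep_iff F hF 0).1 h0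
      rw [h] at this
      simp at this
    refine Set.Finite.subset (b1_res F).roots.toFinset.finite_toSet ?_
    intro x hx
    simp only [Finset.mem_coe, Multiset.mem_toFinset]
    exact (Polynomial.mem_roots hne).2 hx
  · intro x₀ hx₀
    have hs : (sp F x₀).Separable := (b1_sep_iff F hF x₀).2 hx₀
    have hdeg : ∀ x, (sp F x).natDegree = F.natDegree := b1_natDegree_sp F hF
    have hF0 : ∀ x, sp F x ≠ 0 := by
      intro x h
      have h1 := hdeg x
      obtain ⟨c, hc, hlc, hd⟩ := hF
      rw [h] at h1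
      simp at h1
      omega
    have hcard : (sp F x₀).roots.toFinset.card = F.natDegree := by
      rw [Multiset.toFinset_card_of_nodup (Polynomial.nodup_roots hs), ← hdeg x₀]
      exact (IsAlgClosed.splits (sp F x₀)).natDegree_eq_card_roots.symm
    set e := (sp F x₀).roots.toFinset.equivFinOfCardEq hcard with he
    have hroot : ∀ i : Fin F.natDegree, (sp F x₀).eval (e.symm i : ℂ) = 0 := by
      intro i
      have := (e.symm i).2
      rw [Multiset.mem_toFinset, Polynomial.mem_roots (hF0 x₀)] at this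
      exact this
    have hex : ∀ i : Fin F.natDegree, ∃ s : ℂ → ℂ, AnalyticAt ℂ s x₀ ∧ s x₀ = (e.symm i : ℂ) ∧
        ∀ᶠ x in 𝓝 x₀, (sp F x).eval (s x) = 0 := by
      intro i
      refine b1_ift F x₀ _ (hroot i) ?_
      exact Polynomial.Separable.eval₂_derivative_ne_zero (RingHom.id ℂ) hs (by simpa using hroot i)
    choose s hsa hs0 hse using hex
    refine ⟨s, hsa, ?_⟩
    have hne : ∀ᶠ x in 𝓝 x₀, ∀ i j : Fin F.natDegree, i ≠ j → s i x ≠ s j x := by
      rw [Filter.eventually_all]
      intro i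
      rw [Filter.eventually_all]
      intro j
      by_cases hij : i = j
      · exact Filter.Eventually.of_forall fun x h => absurd hij h
      · have h1 : s i x₀ ≠ s j x₀ := by
          rw [hs0, hs0]
          intro h
          exact hij (e.symm.injective (Subtype.ext h))
        have h2 : ContinuousAt (fun x => s i x - s j x) x₀ :=
          (hsa i).continuousAt.sub (hsa j).continuousAt
        filter_upwards [h2.eventually_ne (sub_ne_zero.2 h1)] with x hx _
        exact sub_ne_zero.1 hx
    filter_upwards [hne, Filter.eventually_all.2 hse] with x hx hx'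
    symm
    have hnd : (Finset.univ.val.map (fun i => s i x)).Nodup := by
      refine Multiset.Nodup.map ?_ Finset.univ.nodup
      intro i j hij
      by_contra h
      exact hx i j h hij
    refine Multiset.eq_of_le_of_card_le ?_ ?_
    · rw [Multiset.le_iff_subset hnd]
      intro y hy
      rw [Multiset.mem_map] at hy
      obtain ⟨i, -, rfl⟩ := hy
      exact (Polynomial.mem_roots (hF0 x)).2 (hx' i)
    · rw [Multiset.card_map, Finset.card_val, Finset.card_univ, Fintype.card_fin]
      rw [← hdeg x]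
      exact Polynomial.card_roots' _

end Pool.Agent.H35.CR
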