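import Pool.Agent.H35.CR.Spec

/-!
# Project CR: Sard's theorem, flat points
-/

set_option autoImplicit false

open Set
open scoped ContDiff Topology NNReal ENNReal

namespace Pool.Agent.H35.CR

section

variable {E : Type} [NormedAddCommGroup E] [NormedSpace ℝ E]

theorem s1_taylor (n : ℕ) (f : E → ℝ) (x₀ : E) (ρ M : ℝ)
    (hd : ∀ (j : ℕ), j ≤ n → ∀ w ∈ Metric.ball x₀ ρ, DifferentiableAt ℝ (iteratedFDeriv ℝ j f) w)
    (hM : ∀ w ∈ Metric.ball x₀ ρ, ‖iteratedFDeriv ℝ (n + 1) f w‖ ≤ M)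
    (y : E) (hy : y ∈ Metric.ball x₀ ρ)
    (hy0 : ∀ j, 1 ≤ j → j ≤ n → iteratedFDeriv ℝ j f y = 0) (j : ℕ) (hj : j ≤ n) :
    ∀ i, i + j = n → ∀ w ∈ Metric.ball x₀ ρ,
      ‖iteratedFDeriv ℝ i f w - iteratedFDeriv ℝ i f y‖ ≤ M * ‖w - y‖ ^ (j + 1) := by
  have hM0 : 0 ≤ M := (norm_nonneg _).trans (hM y hy)
  induction j with
  | zero =>
    intro i hi w hw
    rw [add_zero] at hi
    subst hi
    rw [zero_add, pow_one]
    refine (convex_ball x₀ ρ).norm_image_sub_le_of_norm_fderiv_le (𝕜 := ℝ)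
      (fun v hv => hd i le_rfl v hv) ?_ hy hw
    intro v hv
    rw [norm_fderiv_iteratedFDeriv]
    exact hM v hv
  | succ j ih =>
    intro i hi w hw
    have hs : Convex ℝ (Metric.ball x₀ ρ ∩ Metric.closedBall y ‖w - y‖) :=
      (convex_ball x₀ ρ).inter (convex_closedBall _ _)
    have h1 : ‖iteratedFDeriv ℝ i f w - iteratedFDeriv ℝ i f y‖ ≤
        (M * ‖w - y‖ ^ (j + 1)) * ‖w - y‖ := by
      refine hs.norm_image_sub_le_of_norm_fderiv_le (𝕜 := ℝ)
        (fun v hv => hd i (by omega) v hv.1) ?_ ⟨hy, by simp⟩ ⟨hw, by simp [dist_eq_norm]⟩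
      intro v hv
      rw [norm_fderiv_iteratedFDeriv]
      have h2 := ih (by omega) (i + 1) (by omega) v hv.1
      rw [hy0 (i + 1) (by omega) (by omega), sub_zero] at h2
      refine h2.trans (mul_le_mul_of_nonneg_left (pow_le_pow_left₀ (norm_nonneg _) ?_ _) hM0)
      have := hv.2
      rwa [Metric.mem_closedBall, dist_eq_norm] at this
    calc _ ≤ _ := h1
      _ = _ := by ring

end

/-- Sard's theorem, flat points -/
theorem sd_flat (n : ℕ) (f : EuclideanSpace ℝ (Fin n) → ℝ) (O : Set (EuclideanSpace ℝ (Fin n)))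
    (hO : IsOpen O) (hf : ContDiffOn ℝ ∞ f O) :
    MeasureTheory.volume
      (f '' {x ∈ O | ∀ j, 1 ≤ j → j ≤ n → iteratedFDeriv ℝ j f x = 0}) = 0 := by
  set A : Set (EuclideanSpace ℝ (Fin n)) :=
    {x ∈ O | ∀ j, 1 ≤ j → j ≤ n → iteratedFDeriv ℝ j f x = 0} with hA
  have hr : (0 : ℝ≥0) < ((n + 1 : ℕ) : ℝ≥0) := by positivity
  have hloc : ∀ x ∈ A, ∃ C : ℝ≥0, ∃ t ∈ 𝓝[A] x, HolderOnWith C ((n + 1 : ℕ) : ℝ≥0) f t := by
    intro x₀ hx₀
    have hx₀O : x₀ ∈ O := hx₀.1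
    have hca : ∀ w ∈ O, ContDiffAt ℝ ∞ f w := fun w hw => hf.contDiffAt (hO.mem_nhds hw)
    have hcont : ContinuousAt (iteratedFDeriv ℝ (n + 1) f) x₀ := by
      have h1 : DifferentiableAt ℝ (iteratedFDeriv ℝ (n + 1) f) x₀ :=
        (hca x₀ hx₀O).differentiableAt_iteratedFDeriv (by
          exact_mod_cast WithTop.coe_lt_coe.mpr (WithTop.coe_lt_top (n + 1)))
      exact h1.continuousAt
    have hev : ∀ᶠ w in 𝓝 x₀, ‖iteratedFDeriv ℝ (n + 1) f w‖ ≤
        ‖iteratedFDeriv ℝ (n + 1) f x₀‖ + 1 := by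
      have h2 := hcont.norm.eventually (Iio_mem_nhds (lt_add_one _))
      filter_upwards [h2] with w hw
      exact le_of_lt hw
    obtain ⟨ρ, hρ, hball⟩ := Metric.eventually_nhds_iff_ball.mp (hev.and (hO.mem_nhds hx₀O))
    set M : ℝ := ‖iteratedFDeriv ℝ (n + 1) f x₀‖ + 1 with hM
    have hM0 : 0 ≤ M := by positivity
    refine ⟨M.toNNReal, A ∩ Metric.ball x₀ ρ,
      inter_mem_nhdsWithin _ (Metric.ball_mem_nhds _ hρ), ?_⟩
    intro y hy z hz
    have h3 := s1_taylor n f x₀ ρ M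
      (fun j _ w hw => (hca w (hball w hw).2).differentiableAt_iteratedFDeriv (by
          exact_mod_cast WithTop.coe_lt_coe.mpr (WithTop.coe_lt_top j)))
      (fun w hw => (hball w hw).1) y hy.2 hy.1.2 n le_rfl 0 (by omega) z hz.2
    have h4 : ‖iteratedFDeriv ℝ 0 f z - iteratedFDeriv ℝ 0 f y‖ = ‖f z - f y‖ := by
      rw [iteratedFDeriv_zero_eq_comp]
      simp only [Function.comp_apply]
      rw [← map_sub, LinearIsometryEquiv.norm_map]
    rw [h4] at h3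
    rw [edist_comm, edist_comm y z, edist_dist, edist_dist, dist_eq_norm, dist_eq_norm,
      NNReal.coe_natCast, ENNReal.rpow_natCast, ← ENNReal.ofReal_pow (norm_nonneg _)]
    have h5 : ((M.toNNReal : ℝ≥0) : ℝ≥0∞) = ENNReal.ofReal M := rfl
    rw [h5, ← ENNReal.ofReal_mul hM0]
    exact ENNReal.ofReal_le_ofReal h3
  have hdim := dimH_image_le_of_locally_holder_on hr hloc
  have hA2 : dimH A ≤ n := by
    refine (dimH_mono (subset_univ A)).trans ?_
    rw [Real.dimH_univ_eq_finrank]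
    simp
  have hlt : dimH (f '' A) < ((1 : ℝ≥0) : ℝ≥0∞) := by
    refine lt_of_le_of_lt (hdim.trans (ENNReal.div_le_div_right hA2 _)) ?_
    rw [ENNReal.div_lt_iff (Or.inl (by positivity)) (Or.inl (by simp))]
    simp only [ENNReal.coe_one, one_mul]
    push_cast
    exact_mod_cast Nat.lt_succ_self n
  have h6 := hausdorffMeasure_of_dimH_lt hlt
  rw [NNReal.coe_one, MeasureTheory.hausdorffMeasure_real] at h6
  exact h6

end Pool.Agent.H35.CR
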