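import Pool.Agent.H35.CR.Defs

/-!
# Project CR (MP_d5c4e7_an): statements of the rows
-/

set_option autoImplicit false

open Complex Set Polynomial
open scoped ContDiff Topology

namespace Pool.Agent.H35.CR

/-! ## Levi calculus -/

/-- row L1: elementary calculus of the Levi form -/
structure LC (E : Type) [NormedAddCommGroup E] [NormedSpace ℂ E] : Prop where
  congr : ∀ {f g : E → ℝ} {z : E} (v : E), f =ᶠ[𝓝 z] g → levi f z v = levi g z v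
  const : ∀ (c : ℝ) (z v : E), levi (fun _ : E => c) z v = 0
  add : ∀ {f g : E → ℝ} {z : E} (v : E), ContDiffAt ℝ 2 f z → ContDiffAt ℝ 2 g z →
    levi (fun w => f w + g w) z v = levi f z v + levi g z v
  const_mul : ∀ {f : E → ℝ} {z : E} (c : ℝ) (v : E), ContDiffAt ℝ 2 f z →
    levi (fun w => c * f w) z v = c * levi f z v
  comp_real : ∀ {g : ℝ → ℝ} {u : E → ℝ} {z : E} (v : E), ContDiffAt ℝ 2 g (u z) →
    ContDiffAt ℝ 2 u z → levi (fun w => g (u w)) z v =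
      deriv g (u z) * levi u z v +
        deriv (deriv g) (u z) * ((fderiv ℝ u z v) ^ 2 + (fderiv ℝ u z (I • v)) ^ 2)
  max_test : ∀ {u : E → ℝ} {z : E} (v : E), ContDiffAt ℝ 2 u z → IsLocalMax u z →
    levi u z v ≤ 0
  smul : ∀ {u : E → ℝ} {z : E} (c : ℂ) (v : E), ContDiffAt ℝ 2 u z →
    levi u z (c • v) = ‖c‖ ^ 2 * levi u z v

/-- row L2: composition with a holomorphic map -/
def SpComp : Prop := ∀ (E F : Type) [NormedAddCommGroup E] [NormedSpace ℂ E]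
  [NormedAddCommGroup F] [NormedSpace ℂ F] (H : E → F) (u : F → ℝ) (z v : E),
  ContDiffAt ℂ 2 H z → ContDiffAt ℝ 2 u (H z) →
    levi (fun w => u (H w)) z v = levi u (H z) (fderiv ℂ H z v)

/-- row L2: logarithms of holomorphic functions -/
structure LogC (E : Type) [NormedAddCommGroup E] [NormedSpace ℂ E] : Prop where
  log_sq : ∀ (h : E → ℂ) (c : ℝ) (z v : E), ContDiffAt ℂ 2 h z → 0 < c →
    0 ≤ levi (fun w => Real.log (‖h w‖ ^ 2 + c)) z v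
  log_norm : ∀ (h : E → ℂ) (z v : E), ContDiffAt ℂ 2 h z → h z ≠ 0 →
    levi (fun w => Real.log ‖h w‖) z v = 0

/-- row L3: strict plurisubharmonicity is an open condition -/
def SpOpen : Prop := ∀ (E : Type) [NormedAddCommGroup E] [NormedSpace ℂ E]
  [FiniteDimensional ℂ E] (u : E → ℝ) (z : E), ContDiffAt ℝ 2 u z → StrictAt u z →
    ∀ᶠ w in 𝓝 z, StrictAt u w

/-- row L3: the square of the norm -/
def SpNormSq : Prop := ∀ (E : Type) [NormedAddCommGroup E] [InnerProductSpace ℂ E] (z v : E),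
  ContDiffAt ℝ ∞ (fun w : E => ‖w‖ ^ 2) z ∧ levi (fun w : E => ‖w‖ ^ 2) z v = 4 * ‖v‖ ^ 2

/-! ## The regularised maximum -/

/-- a smooth convex function `g` with `g s = 0` for `s ≤ -1` and `g s = s` for `s ≥ 1` -/
structure Reg (g : ℝ → ℝ) : Prop where
  smooth : ContDiff ℝ ∞ g
  d_nonneg : ∀ s, 0 ≤ deriv g s
  d_le_one : ∀ s, deriv g s ≤ 1
  d_lt_one : ∀ s, s < 1 → deriv g s < 1
  dd_nonneg : ∀ s, 0 ≤ deriv (deriv g) s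
  low : ∀ s, s ≤ -1 → g s = 0
  high : ∀ s, 1 ≤ s → g s = s
  nonneg : ∀ s, 0 ≤ g s
  ge : ∀ s, s ≤ g s
  le : ∀ s, g s ≤ max 0 s + 1

/-- the regularised maximum -/
noncomputable def MM (g : ℝ → ℝ) (γ a b : ℝ) : ℝ := b + γ * g ((a - b) / γ)

/-- row R1 -/
def SpReg : Prop := ∃ g : ℝ → ℝ, Reg g

/-- row R1: numerical properties of the regularised maximum -/
structure MMNum (g : ℝ → ℝ) : Prop where
  eq_right : ∀ γ a b : ℝ, 0 < γ → a - b ≤ -γ → MM g γ a b = b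
  eq_left : ∀ γ a b : ℝ, 0 < γ → γ ≤ a - b → MM g γ a b = a
  ge_left : ∀ γ a b : ℝ, 0 < γ → a ≤ MM g γ a b
  ge_right : ∀ γ a b : ℝ, 0 < γ → b ≤ MM g γ a b
  le_max : ∀ γ a b : ℝ, 0 < γ → MM g γ a b ≤ max a b + γ

/-- row R2: the regularised maximum of two psh functions -/
structure MMPsh (g : ℝ → ℝ) (E : Type) [NormedAddCommGroup E] [NormedSpace ℂ E] : Prop where
  smooth : ∀ (γ : ℝ) (a b : E → ℝ) (z : E), 0 < γ → ContDiffAt ℝ ∞ a z → ContDiffAt ℝ ∞ b z →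
    ContDiffAt ℝ ∞ (fun w => MM g γ (a w) (b w)) z
  nonneg : ∀ (γ : ℝ) (a b : E → ℝ) (z v : E), 0 < γ → ContDiffAt ℝ 2 a z → ContDiffAt ℝ 2 b z →
    0 ≤ levi a z v → 0 ≤ levi b z v → 0 ≤ levi (fun w => MM g γ (a w) (b w)) z v
  strict : ∀ (γ : ℝ) (a b : E → ℝ) (z : E), 0 < γ → ContDiffAt ℝ 2 a z → ContDiffAt ℝ 2 b z →
    StrictAt a z → StrictAt b z → StrictAt (fun w => MM g γ (a w) (b w)) z
  strict' : ∀ (γ : ℝ) (a b : E → ℝ) (z : E), 0 < γ → ContDiffAt ℝ 2 a z → ContDiffAt ℝ 2 b z →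
    (∀ v, 0 ≤ levi a z v) → StrictAt b z → a z - b z < γ →
      StrictAt (fun w => MM g γ (a w) (b w)) z

/-- row L1 -/
def SpLC : Prop := ∀ (E : Type) [NormedAddCommGroup E] [NormedSpace ℂ E], LC E

/-- row L2 -/
def SpLogC : Prop := ∀ (E : Type) [NormedAddCommGroup E] [NormedSpace ℂ E], LogC E

/-- row R1 -/
def SpMMNum : Prop := ∀ g : ℝ → ℝ, Reg g → MMNum g

/-- row R2 -/
def SpMMPsh : Prop := ∀ g : ℝ → ℝ, Reg g →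
  ∀ (E : Type) [NormedAddCommGroup E] [NormedSpace ℂ E], MMPsh g E

/-! ## The bounded strictly psh function `V` -/

/-- row D: the inductive gluing -/
def SpV : Prop := ∀ (E : Type) [NormedAddCommGroup E] [InnerProductSpace ℂ E]
  (G : Set E) (Δ : ℕ → Set E) (w : ℕ → E → ℝ), IsOpen G → (∀ m, IsOpen (Δ m)) →
  (∀ m, Δ m ⊆ Δ (m + 1)) → (∀ p, ∃ m, p ∈ Δ m) → (∀ m, Bornology.IsBounded (Δ m)) →
  (∀ m z, ContDiffAt ℝ ∞ (w m) z) → (∀ m z v, 0 ≤ levi (w m) z v) →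
  (∀ m, ∀ p ∈ G, p ∈ Δ (m + 1) → w (m + 1) p ≤ (1 / 2) ^ (m + 1) / 16) →
  (∀ m, ∀ p ∈ G, p ∈ Δ (m + 1) → p ∉ Δ m → -((1 / 2) ^ (m + 1) / 2) ≤ w (m + 1) p) →
  (∀ m, ∀ p ∈ G, p ∈ Δ m → w (m + 3) p ≤ -(5 / 4)) →
  ∃ V : E → ℝ, ContDiffOn ℝ ∞ V G ∧ (∀ p ∈ G, StrictAt V p) ∧ ∀ p ∈ G, 0 ≤ V p ∧ V p ≤ 1

/-! ## The function `φ` -/

/-- `{1/2 < |log|W|| < 2}` -/
def GW (W : C2 → ℂ) : Set C2 := {p | W p ≠ 0 ∧ 1 / 2 < |Real.log ‖W p‖| ∧ |Real.log ‖W p‖| < 2}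

/-- `{|log|W|| < 2}` -/
def DW (W : C2 → ℂ) : Set C2 := {p | W p ≠ 0 ∧ |Real.log ‖W p‖| < 2}

/-- the properties of `φ` -/
structure PhiData (W : C2 → ℂ) (φ : C2 → ℝ) : Prop where
  psh : SmoothPsh φ (DW W)
  strict : ∀ p ∈ DW W, 9 / 10 < |Real.log ‖W p‖| → StrictAt φ p
  ge : ∀ p ∈ DW W, Real.log ‖W p‖ ^ 2 ≤ φ p
  eq : ∀ p ∈ DW W, |Real.log ‖W p‖| ≤ 1 / 2 → φ p = Real.log ‖W p‖ ^ 2
  le : ∀ p ∈ DW W,
    φ p ≤ max (Real.log ‖W p‖ ^ 2) (2 * Real.log ‖W p‖ ^ 2 - 3 / 4) + 1 / 4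

/-- row E -/
def SpPhi : Prop := ∀ (W : C2 → ℂ) (V : C2 → ℝ), Differentiable ℂ W →
  ContDiffOn ℝ ∞ V (GW W) → (∀ p ∈ GW W, StrictAt V p) → (∀ p ∈ GW W, 0 ≤ V p ∧ V p ≤ 1) →
  ∃ φ : C2 → ℝ, PhiData W φ

/-! ## Sard's theorem for smooth functions -/

/-- row S -/
def SpSard : Prop := ∀ (E : Type) [NormedAddCommGroup E] [NormedSpace ℝ E]
  [FiniteDimensional ℝ E] (f : E → ℝ) (O : Set E), IsOpen O → ContDiffOn ℝ ∞ f O →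
  MeasureTheory.volume (f '' {x ∈ O | fderiv ℝ f x = 0}) = 0

/-! ## Topology of the sublevel set -/

/-- row G1: the boundary of a component of a regular sublevel set -/
def SpBd : Prop := ∀ (E : Type) [NormedAddCommGroup E] [NormedSpace ℝ E]
  (D : Set E) (φ : E → ℝ) (ε : ℝ), IsOpen D → ContDiffOn ℝ ∞ φ D →
  (∀ p ∈ D, φ p = ε → fderiv ℝ φ p ≠ 0) → closure {p ∈ D | φ p < ε} ⊆ D →
  ∀ q ∈ D, φ q < ε → ∀ p ∈ frontier (connectedComponentIn {p ∈ D | φ p < ε} q),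
    p ∈ D ∧ φ p = ε ∧ ∃ U : Set E, IsOpen U ∧ p ∈ U ∧ U ⊆ D ∧
      ∀ z ∈ U, z ∈ connectedComponentIn {p ∈ D | φ p < ε} q ↔ φ z < ε

/-! ## One complex variable -/

/-- row B2: subharmonic functions on `ℂ` minus a finite set, bounded above, are harmonic -/
def SpLiou1 : Prop := ∀ (Z : Set ℂ) (U : ℂ → ℝ) (M : ℝ), Z.Finite →
  (∀ x ∉ Z, ContDiffAt ℝ 2 U x) → (∀ x ∉ Z, 0 ≤ levi U x 1) → (∀ x ∉ Z, U x ≤ M) →
  ∀ x ∉ Z, levi U x 1 = 0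

/-! ## Polynomials in `y` over `ℂ[x]` -/

/-- polynomials in `x`, `y`, as polynomials in `y` over `ℂ[x]` -/
abbrev PP := Polynomial (Polynomial ℂ)

/-- the polynomial in `y` obtained by giving `x` a value -/
noncomputable def sp (F : PP) (x : ℂ) : Polynomial ℂ := F.map (Polynomial.evalRingHom x)

/-- value at a point `(x, y)` -/
noncomputable def ev (F : PP) (p : C2) : ℂ := (sp F (p 0)).eval (p 1)

/-- nonconstant in `y` with constant leading coefficient -/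
def Nice (F : PP) : Prop := ∃ c : ℂ, c ≠ 0 ∧ F.leadingCoeff = Polynomial.C c ∧ 1 ≤ F.natDegree

/-- row B1: the roots are locally analytic functions -/
def SpRoots : Prop := ∀ F : PP, Nice F → (sp F 0).Separable → ∃ Z : Set ℂ, Z.Finite ∧
  ∀ x₀ ∉ Z, ∃ s : Fin F.natDegree → ℂ → ℂ, (∀ i, AnalyticAt ℂ (s i) x₀) ∧
    ∀ᶠ x in 𝓝 x₀, (sp F x).roots = Finset.univ.val.map (fun i => s i x)

/-- row B3: density of the good points of the curve -/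
def SpCurveDense : Prop := ∀ (F : PP) (Z : Set ℂ) (p : C2) (ε : ℝ), Nice F → Z.Finite →
  ev F p = 0 → 0 < ε → ∃ q : C2, ev F q = 0 ∧ q 0 ∉ Z ∧ ‖q - p‖ < ε

/-- row B4: Liouville's theorem on an algebraic curve -/
def SpCurve : Prop := ∀ (F : PP) (O : Set C2) (u : C2 → ℝ), Nice F → (sp F 0).Separable →
  IsOpen O → (∀ p, ev F p = 0 → p ∈ O) → SmoothPsh u O → (∃ M : ℝ, ∀ p ∈ O, u p ≤ M) →
  ∀ p, ev F p = 0 → ¬ StrictAt u p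

/-! ## The construction of `W` -/

/-- `y + x` (odd `m`) or `y - x` (even `m`) -/
noncomputable def zc (m : ℕ) : PP :=
  if m % 2 = 1 then Polynomial.X + Polynomial.C Polynomial.X
  else Polynomial.X - Polynomial.C Polynomial.X

/-- `f_m = (y ± x) / 4^m` -/
noncomputable def fm (m : ℕ) (p : C2) : ℂ := ev (zc m) p / 4 ^ m

/-- `δ_m = 2^(-m) / 4` -/
noncomputable def dm (m : ℕ) : ℝ := (1 / 2) ^ m / 4

/-- the bidiscs `Δ_m` -/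
def Dm (m : ℕ) : Set C2 := {p | ‖fm (m + 1) p‖ < 1 - dm (m + 1) ∧ ‖fm (m + 2) p‖ < 1 - dm (m + 2)}

/-- row C0: properties of the bidiscs -/
structure DmProps : Prop where
  isOpen : ∀ m, IsOpen (Dm m)
  subset : ∀ m, Dm m ⊆ Dm (m + 1)
  exhaust : ∀ R : ℝ, ∃ m₀, ∀ m, m₀ ≤ m → ∀ p : C2, ‖p‖ ≤ R → p ∈ Dm m
  bounded : ∀ m, Bornology.IsBounded (Dm m)
  fm_lt : ∀ m, ∀ p ∈ Dm m, ‖fm (m + 1) p‖ < 1 - dm (m + 1)
  fm_ge : ∀ m, ∀ p ∈ Dm (m + 1), p ∉ Dm m → 1 - dm (m + 1) ≤ ‖fm (m + 1) p‖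
  fm_small : ∀ m, ∀ p ∈ Dm m, ‖fm (m + 3) p‖ ≤ 1 / 16
  axis : ∀ t : ℝ, |t| ≤ 3 → (!₂[(0 : ℂ), (t : ℂ)] : C2) ∈ Dm 0

/-- the invariants of the recursion -/
structure Inv (Q T : PP) : Prop where
  niceQ : Nice Q
  niceT : Nice T
  deg : Q.natDegree ≤ T.natDegree
  small : ∀ R η : ℝ, 0 < η → ∃ κ : ℝ, 0 < κ ∧ ∀ p : C2, ‖p‖ ≤ R → ‖ev T p‖ < κ →
    |‖ev Q p‖ - 1| < η

/-- the correction term `h_n = T f_n^N` -/
noncomputable def hh (T : PP) (n N : ℕ) (p : C2) : ℂ := ev T p * fm n p ^ N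

/-- the estimates required at step `n` -/
structure StepEst (Q T : PP) (n N : ℕ) : Prop where
  pos : 2 ≤ N
  small : ∀ p ∈ Dm (n - 1), ‖hh T n N p‖ ≤ (1 / 2) ^ n / 100
  deriv : ∀ p ∈ Dm (n - 1), ‖fderiv ℂ (hh T n N) p‖ ≤ (1 / 2) ^ n
  upper : ∀ p ∈ Dm n, 10 + ‖ev Q p‖ ≤ Real.exp (N * ((1 / 2) ^ n / 16))
  lower : ∀ p ∈ Dm n, p ∉ Dm (n - 1) →
    Real.exp (-(2 * dm n * N)) ≤ ‖hh T n N p‖ ∨ |‖ev Q p‖ - 1| ≤ 1 / 12
  num : Real.exp (-(2 * dm n * N)) ≤ 1 / 6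
  deep : ∀ p ∈ Dm n, ‖fm n p‖ ≤ 1 / 16 → ‖hh T n N p‖ ≤ (1 / 2) * (1 / 4) ^ N

/-- row C1: the estimates hold for all large `N` -/
def SpStep : Prop := ∀ (Q T : PP) (n : ℕ), Inv Q T → 1 ≤ n → ∃ N : ℕ, StepEst Q T n N

/-- the polynomial `h_n` -/
noncomputable def hP (T : PP) (n N : ℕ) : PP :=
  T * (Polynomial.C (Polynomial.C ((1 / 4 : ℂ) ^ n)) * zc n) ^ N

/-- row C2: the invariants are preserved -/
def SpInv : Prop := ∀ (Q T : PP) (n N : ℕ) (c : ℂ), Inv Q T → 2 ≤ N → ‖c‖ = 1 →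
  Inv (Q + hP T n N) (T * (Q + hP T n N - Polynomial.C (Polynomial.C c)))

/-- row C3: the choice of the value `c` -/
def SpVal : Prop := ∀ (Q : PP) (a : C2) (r : ℝ), Nice Q → 0 < r → ∃ c : ℂ, ‖c‖ = 1 ∧
  (sp (Q - Polynomial.C (Polynomial.C c)) 0).Separable ∧
  ((∃ q ∈ Metric.ball a r, ‖ev Q q‖ = 1) → ∃ q ∈ Metric.ball a r, ev Q q = c)

/-- the sequences produced by the recursion -/
structure Seqs (a : ℕ → C2) (r : ℕ → ℝ) (Q T : ℕ → PP) (N : ℕ → ℕ) (c : ℕ → ℂ) : Prop where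
  zero : Q 0 = Polynomial.X
  niceQ : ∀ n, Nice (Q n)
  c_norm : ∀ n, ‖c n‖ = 1
  sep : ∀ n, (sp (Q n - Polynomial.C (Polynomial.C (c n))) 0).Separable
  T_dvd : ∀ n, (Q n - Polynomial.C (Polynomial.C (c n))) ∣ T n
  T_dvd' : ∀ n, T n ∣ T (n + 1)
  succ : ∀ n, Q (n + 1) = Q n + hP (T n) (n + 1) (N (n + 1))
  est : ∀ n, StepEst (Q n) (T n) (n + 1) (N (n + 1))
  hit : ∀ n, 1 ≤ n → (∃ q ∈ Metric.ball (a n) (r n), ‖ev (Q n) q‖ = 1) →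
    ∃ q ∈ Metric.ball (a n) (r n), ev (Q n) q = c n

/-- row C4: the recursion -/
def SpSeqs : Prop := ∀ (a : ℕ → C2) (r : ℕ → ℝ), (∀ n, 0 < r n) →
  ∃ (Q T : ℕ → PP) (N : ℕ → ℕ) (c : ℕ → ℂ), Seqs a r Q T N c

/-- the limit function -/
structure WLim (Q T : ℕ → PP) (W : C2 → ℂ) : Prop where
  diff : Differentiable ℂ W
  near : ∀ n, ∀ p ∈ Dm n, ‖W p - ev (Q n) p‖ ≤ (1 / 2) ^ n / 100
  eq : ∀ n p, ev (T n) p = 0 → W p = ev (Q n) p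

/-- row C5: the limit function exists -/
def SpLim : Prop := ∀ (a : ℕ → C2) (r : ℕ → ℝ) (Q T : ℕ → PP) (N : ℕ → ℕ) (c : ℕ → ℂ),
  Seqs a r Q T N c → ∃ W : C2 → ℂ, WLim Q T W

/-- the function `w_n = (1/2N) log(|h_n|² + 16^(-N)/2)` -/
noncomputable def wn (T : ℕ → PP) (N : ℕ → ℕ) (n : ℕ) (p : C2) : ℝ :=
  1 / (2 * N n) * Real.log (‖hh (T (n - 1)) n (N n) p‖ ^ 2 + (1 / 16) ^ (N n) / 2)

/-- row C6: the estimates for `w_n` -/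
def SpWn : Prop := ∀ (a : ℕ → C2) (r : ℕ → ℝ) (Q T : ℕ → PP) (N : ℕ → ℕ) (c : ℕ → ℂ)
  (W : C2 → ℂ), Seqs a r Q T N c → WLim Q T W →
  (∀ m, ∀ p ∈ GW W, p ∈ Dm (m + 1) → wn T N (m + 1) p ≤ (1 / 2) ^ (m + 1) / 16) ∧
  (∀ m, ∀ p ∈ GW W, p ∈ Dm (m + 1) → p ∉ Dm m → -((1 / 2) ^ (m + 1) / 2) ≤ wn T N (m + 1) p) ∧
  (∀ m, ∀ p ∈ GW W, p ∈ Dm m → wn T N (m + 3) p ≤ -(5 / 4))

/-- row C7: density of the curves in `{|W| = 1}` -/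
def SpDense : Prop := ∃ (a : ℕ → C2) (r : ℕ → ℝ), (∀ n, 0 < r n) ∧
  ∀ (Q T : ℕ → PP) (N : ℕ → ℕ) (c : ℕ → ℂ) (W : C2 → ℂ), Seqs a r Q T N c → WLim Q T W →
  ∀ (p : C2) (ε : ℝ), ‖W p‖ = 1 → 0 < ε → ∃ (n : ℕ) (q : C2),
    ev (Q n - Polynomial.C (Polynomial.C (c n))) q = 0 ∧ ‖q - p‖ < ε

/-- outcome of part C -/
structure WData (W : C2 → ℂ) (F : ℕ → PP) (w : ℕ → C2 → ℝ) : Prop where
  diff : Differentiable ℂ W
  nice : ∀ n, Nice (F n)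
  sep : ∀ n, (sp (F n) 0).Separable
  unit : ∀ n p, ev (F n) p = 0 → ‖W p‖ = 1
  dense : ∀ (p : C2) (ε : ℝ), ‖W p‖ = 1 → 0 < ε → ∃ (n : ℕ) (q : C2),
    ev (F n) q = 0 ∧ ‖q - p‖ < ε
  axis : ∀ t : ℝ, |t| ≤ 3 → ‖W !₂[(0 : ℂ), (t : ℂ)] - t‖ ≤ 1 / 100
  smooth : ∀ m z, ContDiffAt ℝ ∞ (w m) z
  levi_nonneg : ∀ m z v, 0 ≤ levi (w m) z v
  upper : ∀ m, ∀ p ∈ GW W, p ∈ Dm (m + 1) → w (m + 1) p ≤ (1 / 2) ^ (m + 1) / 16
  lower : ∀ m, ∀ p ∈ GW W, p ∈ Dm (m + 1) → p ∉ Dm m →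
    -((1 / 2) ^ (m + 1) / 2) ≤ w (m + 1) p
  deep : ∀ m, ∀ p ∈ GW W, p ∈ Dm m → w (m + 3) p ≤ -(5 / 4)

/-- row C8 -/
def SpW : Prop := ∃ (W : C2 → ℂ) (F : ℕ → PP) (w : ℕ → C2 → ℝ), WData W F w

/-! ## Assembly -/

/-- row G2: the hypersurface `{|W| = 1}` lies in the core of every component of the sublevel set -/
def SpCore : Prop := ∀ (W : C2 → ℂ) (F : ℕ → PP) (w : ℕ → C2 → ℝ) (φ : C2 → ℝ) (ε : ℝ) (q : C2),
  WData W F w → PhiData W φ → 2 < ε → ε < 3 → q ∈ DW W → φ q < ε →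
  ∀ p ∈ connectedComponentIn {p ∈ DW W | φ p < ε} q, ‖W p‖ = 1 →
    p ∈ core (connectedComponentIn {p ∈ DW W | φ p < ε} q)

/-- the final statement -/
def SpFinal : Prop := ∃ Ω : Set C2, StrictlyPseudoconvexSmooth Ω ∧ ¬ IsPreconnected (Ω \ core Ω)

end Pool.Agent.H35.CR
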